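import Pool.Agent.R468.RC.A

/-!
Residue classes, part 1: graded families with a bounded exceptional set are equidistributed modulo
powers of three.
-/

set_option autoImplicit false

namespace Pool.Agent.K3h31.CL

open Filter Topology Finset
open Pool.Agent.H499R2.LT
open Pool.Agent.H499R2.ND (Td wc mem_wc cls mem_cls wc_card_le)
open Pool.Agent.H499R2.CZ (FC)
open Pool.Agent.R468.RC (hlf hlf_dvd wc_split ev_log)

variable {d : ℤ} {R : Set ℤ} {S : ℤ → ℤ → Set ℤ}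

theorem two_mem (hS : GF d R S) (k o y : ℤ) (hy : 2 * y ∉ R) : 2 * y ∈ S k o ↔ y ∈ S (k - 1) o :=
  B2_two hS k o y hy

/-- parity decomposition, upper bound -/
theorem par_le (hS : GF d R S) {A : ℝ} (hA : ∀ x ∈ R, (x : ℝ) < A) (k o : ℤ) (m : ℕ) (c : ℤ) :
    (wc (S k o) A (2 * A) (3 ^ m) c).card ≤ (cls (S k o) A (2 * A) m 1 c).card +
      (wc (S (k - 1) o) (A / 2) (2 * (A / 2)) (3 ^ m) (hlf m c)).card := by
  classical
  have hev : ((wc (S (k - 1) o) (A / 2) (2 * (A / 2)) (3 ^ m) (hlf m c)).image fun x => 2 * x).card ≤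
      (wc (S (k - 1) o) (A / 2) (2 * (A / 2)) (3 ^ m) (hlf m c)).card := card_image_le
  have hsub : wc (S k o) A (2 * A) (3 ^ m) c ⊆ cls (S k o) A (2 * A) m 1 c ∪
      (wc (S (k - 1) o) (A / 2) (2 * (A / 2)) (3 ^ m) (hlf m c)).image fun x => 2 * x := by
    intro x hx
    rw [mem_wc] at hx
    obtain ⟨h1, h2, h3⟩ := hx
    have hxR : x ∉ R := fun h => absurd (hA x h) (not_lt.2 h1.1)
    rw [mem_union]
    rcases Int.even_or_odd x with he | ho
    · right
      obtain ⟨y, hy⟩ := he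
      rw [mem_image]
      refine ⟨y, ?_, by omega⟩
      rw [mem_wc]
      have hxy : (x : ℝ) = 2 * y := by rw [hy]; push_cast; ring
      have hx2 : x = 2 * y := by omega
      refine ⟨⟨by linarith [h1.1], by linarith [h1.2]⟩, ?_, ?_⟩
      · rw [hx2] at h2 hxR
        exact (two_mem hS k o y hxR).1 h2
      · rw [hx2] at h3
        exact (hlf_dvd m c y).1 h3
    · left
      rw [mem_cls]
      exact ⟨h1, ho, h2, by rw [one_mul]; exact h3⟩
  refine (card_le_card hsub).trans ((card_union_le _ _).trans ?_)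
  exact Nat.add_le_add_left hev _

/-- parity decomposition, lower bound -/
theorem par_ge (hS : GF d R S) {A : ℝ} (hA : ∀ x ∈ R, (x : ℝ) < A) (k o : ℤ) (m : ℕ) (c : ℤ) :
    (cls (S k o) A (2 * A) m 1 c).card +
      (wc (S (k - 1) o) (A / 2) (2 * (A / 2)) (3 ^ m) (hlf m c)).card ≤
      (wc (S k o) A (2 * A) (3 ^ m) c).card := by
  classical
  have hev : (wc (S (k - 1) o) (A / 2) (2 * (A / 2)) (3 ^ m) (hlf m c)).card =
      ((wc (S (k - 1) o) (A / 2) (2 * (A / 2)) (3 ^ m) (hlf m c)).image fun x => 2 * x).card := by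
    rw [card_image_of_injective]
    intro x y hxy
    simp only at hxy
    omega
  rw [hev, ← card_union_of_disjoint]
  · refine card_le_card ?_
    intro x hx
    rw [mem_union, mem_cls, mem_image] at hx
    rw [mem_wc]
    rcases hx with ⟨h1, h2, h3, h4⟩ | ⟨y, hy, rfl⟩
    · rw [one_mul] at h4
      exact ⟨h1, h3, h4⟩
    · rw [mem_wc] at hy
      obtain ⟨h1, h2, h3⟩ := hy
      have hw : A ≤ ((2 * y : ℤ) : ℝ) ∧ ((2 * y : ℤ) : ℝ) < 2 * A := by
        push_cast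
        exact ⟨by linarith [h1.1], by linarith [h1.2]⟩
      have hxR : 2 * y ∉ R := fun h => absurd (hA _ h) (not_lt.2 hw.1)
      exact ⟨hw, (two_mem hS k o y hxR).2 h2, (hlf_dvd m c y).2 h3⟩
  · rw [Finset.disjoint_left]
    intro x hx hx'
    rw [mem_cls] at hx
    rw [mem_image] at hx'
    obtain ⟨y, _, rfl⟩ := hx'
    have := hx.2.1
    rw [Int.odd_iff] at this
    omega

/-- dyadic windows -/
theorem dy (hS : GF d R S) {C : ℝ} (hC : 0 ≤ C) {B m : ℕ}
    (he : ∀ A : ℝ, 0 < A → 1000 ≤ Real.log A → (m : ℝ) ^ 2 ≤ Real.log A → ∀ k o c c' : ℤ,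
      ((cls (S k o) A (2 * A) m 1 c).card : ℝ)
        ≤ (cls (S k o) A (2 * A) m 1 c').card + C / (Real.log A) ^ B * (A / (2 * 3 ^ m))) {L : ℝ}
    (hL : 1000 ≤ L) (hm : (m : ℝ) ^ 2 ≤ L) (J : ℕ) : ∀ A : ℝ, 0 < A → L ≤ Real.log (A / 2 ^ J) →
    (∀ x ∈ R, (x : ℝ) < A / 2 ^ J) → ∀ k o c c' : ℤ,
    ((wc (S k o) A (2 * A) (3 ^ m) c).card : ℝ) ≤ (wc (S k o) A (2 * A) (3 ^ m) c').card +
      C / L ^ B * (A / 3 ^ m) * (1 - 1 / 2 ^ J) + (A / 2 ^ J / 3 ^ m + 1) := by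
  induction J with
  | zero =>
    intro A hA _ _ k o c c'
    have h1 := wc_card_le (S k o) (by linarith : A ≤ 2 * A) (q := 3 ^ m) (by positivity) c
    have h2 : (0 : ℝ) ≤ (wc (S k o) A (2 * A) (3 ^ m) c').card := Nat.cast_nonneg _
    push_cast at h1
    have e : (2 * A - A) / 3 ^ m = A / 3 ^ m := by ring
    rw [e] at h1
    simp only [pow_zero, div_one, sub_self, mul_zero]
    linarith
  | succ J ih =>
    intro A hA h1 h2 k o c c'
    have e1 : A / 2 ^ (J + 1) = A / 2 / 2 ^ J := by rw [pow_succ]; field_simp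
    have hle : A / 2 ^ (J + 1) ≤ A := div_le_self hA.le (one_le_pow₀ (by norm_num))
    have hlA : L ≤ Real.log A := h1.trans (Real.log_le_log (by positivity) hle)
    have hRA : ∀ x ∈ R, (x : ℝ) < A := fun x hx => (h2 x hx).trans_le hle
    have h3 := ih (A / 2) (by linarith) (by rw [← e1]; exact h1) (by rw [← e1]; exact h2) (k - 1) o (hlf m c)
      (hlf m c')
    have h4 := he A hA (by linarith) (by linarith) k o c c'
    have h5 : ((wc (S k o) A (2 * A) (3 ^ m) c).card : ℝ) ≤ (cls (S k o) A (2 * A) m 1 c).card +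
        (wc (S (k - 1) o) (A / 2) (2 * (A / 2)) (3 ^ m) (hlf m c)).card := by
      exact_mod_cast par_le hS hRA k o m c
    have h6 : ((cls (S k o) A (2 * A) m 1 c').card : ℝ) +
        (wc (S (k - 1) o) (A / 2) (2 * (A / 2)) (3 ^ m) (hlf m c')).card ≤
        (wc (S k o) A (2 * A) (3 ^ m) c').card := by
      exact_mod_cast par_ge hS hRA k o m c'
    have h7 : C / (Real.log A) ^ B * (A / (2 * 3 ^ m)) ≤ C / L ^ B * (A / (2 * 3 ^ m)) := by
      apply mul_le_mul_of_nonneg_right _ (by positivity)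
      exact div_le_div_of_nonneg_left hC (by positivity) (pow_le_pow_left₀ (by linarith) hlA B)
    have e2 : C / L ^ B * (A / (2 * 3 ^ m)) + C / L ^ B * (A / 2 / 3 ^ m) * (1 - 1 / 2 ^ J) =
        C / L ^ B * (A / 3 ^ m) * (1 - 1 / 2 ^ (J + 1)) := by
      rw [pow_succ]; field_simp; ring
    rw [← e2, e1]
    linarith

/-- initial windows -/
theorem zy (hS : GF d R S) {C : ℝ} (hC : 0 ≤ C) {B m : ℕ}
    (he : ∀ A : ℝ, 0 < A → 1000 ≤ Real.log A → (m : ℝ) ^ 2 ≤ Real.log A → ∀ k o c c' : ℤ,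
      ((cls (S k o) A (2 * A) m 1 c).card : ℝ)
        ≤ (cls (S k o) A (2 * A) m 1 c').card + C / (Real.log A) ^ B * (A / (2 * 3 ^ m))) {L : ℝ}
    (hL : 1000 ≤ L) (hm : (m : ℝ) ^ 2 ≤ L) (J : ℕ) : ∀ y : ℝ, 0 < y → L ≤ Real.log (y / 2 ^ J) →
    (∀ x ∈ R, (x : ℝ) < y / 2 ^ J) → ∀ k o c c' : ℤ,
    ((wc (S k o) 0 y (3 ^ m) c).card : ℝ) ≤ (wc (S k o) 0 y (3 ^ m) c').card +
      C / L ^ B * (y / 3 ^ m) + (J + 1) * (y / 2 ^ J / 3 ^ m + 1) := by
  induction J with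
  | zero =>
    intro y hy _ _ k o c c'
    have h1 := wc_card_le (S k o) hy.le (q := 3 ^ m) (by positivity) c
    have h2 : (0 : ℝ) ≤ (wc (S k o) 0 y (3 ^ m) c').card := Nat.cast_nonneg _
    push_cast at h1
    rw [sub_zero] at h1
    have h3 : 0 ≤ C / L ^ B * (y / 3 ^ m) := by positivity
    simp only [pow_zero, div_one, Nat.cast_zero, zero_add, one_mul]
    linarith
  | succ J ih =>
    intro y hy h1 h2 k o c c'
    have e1 : y / 2 ^ (J + 1) = y / 2 / 2 ^ J := by rw [pow_succ]; field_simp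
    have h3 := ih (y / 2) (by linarith) (by rw [← e1]; exact h1) (by rw [← e1]; exact h2) k o c c'
    have h4 := dy hS hC he hL hm J (y / 2) (by linarith) (by rw [← e1]; exact h1) (by rw [← e1]; exact h2) k o c c'
    have h5 : ((wc (S k o) 0 y (3 ^ m) c).card : ℝ) = (wc (S k o) (y / 2) (2 * (y / 2)) (3 ^ m) c).card +
        (wc (S k o) 0 (y / 2) (3 ^ m) c).card := by exact_mod_cast wc_split (S k o) hy.le (3 ^ m) c
    have h6 : ((wc (S k o) 0 y (3 ^ m) c').card : ℝ) = (wc (S k o) (y / 2) (2 * (y / 2)) (3 ^ m) c').card +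
        (wc (S k o) 0 (y / 2) (3 ^ m) c').card := by exact_mod_cast wc_split (S k o) hy.le (3 ^ m) c'
    have h7 : C / L ^ B * (y / 2 / 3 ^ m) * (1 - 1 / 2 ^ J) ≤ C / L ^ B * (y / 2 / 3 ^ m) := by
      apply mul_le_of_le_one_right (by positivity)
      have : (0 : ℝ) ≤ 1 / 2 ^ J := by positivity
      linarith
    have e2 : C / L ^ B * (y / 3 ^ m) = C / L ^ B * (y / 2 / 3 ^ m) + C / L ^ B * (y / 2 / 3 ^ m) := by ring
    rw [h5, h6, e2, e1]
    push_cast
    nlinarith [h3, h4, h7]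

/-- equidistribution modulo powers of three -/
theorem equi3 (B : ℕ) (hd : Odd d) (hd3 : IsCoprime d 3) (hR : FC d R) (hRs : SpW R) {r0 : ℝ}
    (hr0 : ∀ x ∈ R, (x : ℝ) ≤ r0) :
    ∃ C Y0 : ℝ, 0 < C ∧ 2 ≤ Y0 ∧ ∀ S : ℤ → ℤ → Set ℤ, GF d R S → ∀ y : ℝ, Y0 ≤ y → ∀ m : ℕ,
      (m : ℝ) ^ 2 ≤ Real.log y / 2 → ∀ k o c c' : ℤ,
      ((wc (S k o) 0 y (3 ^ m) c).card : ℝ) ≤ (wc (S k o) 0 y (3 ^ m) c').card +
        C / (Real.log y) ^ B * (y / 3 ^ m) := by
  obtain ⟨C, hC, he⟩ := equi_oddG B hd hd3 hR hRs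
  obtain ⟨t0, ht0⟩ := eventually_atTop.1 (ev_log B)
  set t1 : ℝ := max t0 (max 2000 (2 * Real.log (|r0| + 1) + 2)) with ht1
  refine ⟨C * 2 ^ B + 1, Real.exp t1, by positivity, ?_, ?_⟩
  · have h1 : (2000 : ℝ) ≤ t1 := (le_max_left _ _).trans (le_max_right _ _)
    have h2 := Real.add_one_le_exp t1
    linarith
  intro S hS y hy m hm k o c c'
  have hy0 : 0 < y := (Real.exp_pos _).trans_le hy
  set t := Real.log y with ht
  have htt : t1 ≤ t := (Real.le_log_iff_exp_le hy0).2 hy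
  have h2000 : (2000 : ℝ) ≤ t := ((le_max_left _ _).trans (le_max_right _ _)).trans htt
  have hr1 : 2 * Real.log (|r0| + 1) + 2 ≤ t := ((le_max_right _ _).trans (le_max_right _ _)).trans htt
  have hey : Real.exp t = y := Real.exp_log hy0
  have hl2 := Real.log_two_gt_d9
  have hl2' := Real.log_two_lt_d9
  have hl20 : 0 < Real.log 2 := by linarith
  set J : ℕ := ⌊t / (2 * Real.log 2)⌋₊ with hJ
  have hJ1 : (J : ℝ) ≤ t / (2 * Real.log 2) := Nat.floor_le (by positivity)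
  have hJ2 : t / (2 * Real.log 2) < J + 1 := Nat.lt_floor_add_one _
  rw [le_div_iff₀ (by positivity)] at hJ1
  rw [div_lt_iff₀ (by positivity)] at hJ2
  have hlog : Real.log (y / 2 ^ J) = t - J * Real.log 2 := by
    rw [Real.log_div hy0.ne' (by positivity), Real.log_pow]
  have h1 : t / 2 ≤ Real.log (y / 2 ^ J) := by rw [hlog]; linarith
  have hyJ : Real.exp (t / 2) ≤ y / 2 ^ J := (Real.le_log_iff_exp_le (by positivity)).1 h1
  have hyJ2 : y / 2 ^ J ≤ 2 * Real.exp (t / 2) := by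
    have h3 : Real.log (y / 2 ^ J) ≤ Real.log 2 + t / 2 := by rw [hlog]; linarith
    have h4 : y / 2 ^ J ≤ Real.exp (Real.log 2 + t / 2) := by
      rw [← Real.log_le_iff_le_exp (by positivity)]; exact h3
    rwa [Real.exp_add, Real.exp_log (by norm_num)] at h4
  have hRx : ∀ x ∈ R, (x : ℝ) < y / 2 ^ J := by
    intro x hx
    have h3 : (x : ℝ) ≤ |r0| := (hr0 x hx).trans (le_abs_self _)
    have h4 : |r0| + 1 ≤ Real.exp (t / 2) := by
      rw [← Real.log_le_iff_le_exp (by positivity)]; linarith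
    linarith
  have h2 := zy hS hC.le (B := B) (m := m)
    (fun A hA hlA hmA k o c c' => he S hS A hA hlA m hmA k o c c')
    (L := t / 2) (by linarith) hm J y hy0 h1 hRx k o c c'
  have hJ3 : (J : ℝ) + 1 ≤ t := by nlinarith
  have hm0 : (0 : ℝ) ≤ m := Nat.cast_nonneg m
  have h3m : (3 : ℝ) ^ m ≤ Real.exp (t / 2) := by
    have h3 : (m : ℝ) ≤ t / 4 := by nlinarith
    have h4 : Real.log 3 ≤ 1.12 := B0.log3_small
    have h5 : Real.log ((3 : ℝ) ^ m) ≤ t / 2 := by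
      rw [Real.log_pow]
      nlinarith
    rwa [← Real.log_le_iff_le_exp (by positivity)]
  have h3m0 : (0 : ℝ) < 3 ^ m := by positivity
  have h5 : ((J : ℝ) + 1) * (y / 2 ^ J / 3 ^ m + 1) ≤ t * (3 * Real.exp (t / 2) / 3 ^ m) := by
    apply mul_le_mul hJ3 _ (by positivity) (by linarith)
    have h6 : (1 : ℝ) ≤ Real.exp (t / 2) / 3 ^ m := by rwa [le_div_iff₀ h3m0, one_mul]
    have h7 : y / 2 ^ J / 3 ^ m ≤ 2 * Real.exp (t / 2) / 3 ^ m := div_le_div_of_nonneg_right hyJ2 h3m0.le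
    have e : 3 * Real.exp (t / 2) / 3 ^ m = 2 * Real.exp (t / 2) / 3 ^ m + Real.exp (t / 2) / 3 ^ m := by ring
    rw [e]
    linarith
  have ht0' : 0 < t := by linarith
  have h8 := ht0 t ((le_max_left _ _).trans htt)
  rw [hey] at h8
  have h9 : t * (3 * Real.exp (t / 2) / 3 ^ m) ≤ 1 / t ^ B * (y / 3 ^ m) := by
    rw [div_mul_div_comm, one_mul, mul_div_assoc', div_le_div_iff₀ h3m0 (by positivity)]
    have h10 : t * (3 * Real.exp (t / 2)) * (t ^ B * 3 ^ m) =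
        (3 * t ^ (B + 1) * Real.exp (t / 2)) * 3 ^ m := by ring
    rw [h10]
    apply mul_le_mul_of_nonneg_right _ h3m0.le
    have : 0 ≤ t ^ (B + 1) * Real.exp (t / 2) := by positivity
    linarith
  have e3 : C / (t / 2) ^ B * (y / 3 ^ m) = C * 2 ^ B / t ^ B * (y / 3 ^ m) := by
    rw [div_pow]; field_simp
  rw [e3] at h2
  have e4 : (C * 2 ^ B + 1) / t ^ B * (y / 3 ^ m) = C * 2 ^ B / t ^ B * (y / 3 ^ m) + 1 / t ^ B * (y / 3 ^ m) := by
    ring
  rw [e4]
  linarith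

end Pool.Agent.K3h31.CL
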