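import Pool.Agent.K3h31.CL.A
import Pool.Agent.R468.RC.H

/-!
Residue classes for the statistics `α (odd terms) + β (steps)`, part 2: the averages; the levels as
subsets of `ℕ`.
-/

set_option autoImplicit false

namespace Pool.Agent.K3h31.CL

open Filter Topology Finset
open Pool.Agent.H499R2.LT
open Pool.Agent.H499R2.ND (Td wc mem_wc wc_card_le Tn)
open Pool.Agent.H499R2.CZ (FC)
open Pool.Agent.H499R2.HL
open Pool.Agent.R468.GL (Par Lv)
open Pool.Agent.R468.RC (sum_classes SZ_pos RF_one H_shift H_unshift it_class Yk Yk_size it_small H_pos)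

/-- the average over the classes -/
theorem avg3 {d : ℤ} {R : Set ℤ} (B : ℕ) (hd : Odd d) (hd3 : IsCoprime d 3) (hR : FC d R) (hRs : SpW R) {r0 : ℝ}
    (hr0 : ∀ x ∈ R, (x : ℝ) ≤ r0) :
    ∃ C Y0 : ℝ, 0 < C ∧ 2 ≤ Y0 ∧ ∀ S : ℤ → ℤ → Set ℤ, GF d R S → ∀ y : ℝ, Y0 ≤ y → ∀ m : ℕ,
      (m : ℝ) ^ 2 ≤ Real.log y / 2 → ∀ k o c : ℤ,
      |((wc (S k o) 0 y (3 ^ m) c).card : ℝ) - (wc (S k o) 0 y 1 0).card / 3 ^ m| ≤
        C / (Real.log y) ^ B * (y / 3 ^ m) := by
  obtain ⟨C, Y0, hC, hY0, h⟩ := equi3 B hd hd3 hR hRs hr0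
  refine ⟨C, Y0, hC, hY0, fun S hS y hy m hm k o c => ?_⟩
  have h3 : (0 : ℝ) < 3 ^ m := by positivity
  have hcard : ((Finset.range (3 ^ m)).card : ℝ) = 3 ^ m := by rw [Finset.card_range]; push_cast; rfl
  set E := C / (Real.log y) ^ B * (y / 3 ^ m) with hE
  set a := ((wc (S k o) 0 y (3 ^ m) c).card : ℝ) with ha
  have h1 : 3 ^ m * a ≤ (wc (S k o) 0 y 1 0).card + 3 ^ m * E := by
    rw [sum_classes (S k o) y m]
    have h2 : ∑ c' ∈ Finset.range (3 ^ m), a ≤ ∑ c' ∈ Finset.range (3 ^ m), (((wc (S k o) 0 y (3 ^ m) (c' : ℤ)).card : ℝ) + E) :=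
      Finset.sum_le_sum fun c' _ => h S hS y hy m hm k o c c'
    rw [Finset.sum_const, Finset.sum_add_distrib, Finset.sum_const, nsmul_eq_mul, nsmul_eq_mul, hcard] at h2
    exact h2
  have h1' : ((wc (S k o) 0 y 1 0).card : ℝ) ≤ 3 ^ m * a + 3 ^ m * E := by
    rw [sum_classes (S k o) y m]
    have h2 : ∑ c' ∈ Finset.range (3 ^ m), ((wc (S k o) 0 y (3 ^ m) (c' : ℤ)).card : ℝ) ≤ ∑ c' ∈ Finset.range (3 ^ m), (a + E) :=
      Finset.sum_le_sum fun c' _ => h S hS y hy m hm k o c' c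
    rw [Finset.sum_const, nsmul_eq_mul, hcard] at h2
    linarith
  have e : (wc (S k o) 0 y 1 0).card / (3 : ℝ) ^ m * 3 ^ m = (wc (S k o) 0 y 1 0).card := by field_simp
  rw [abs_le]
  constructor
  · have : ((wc (S k o) 0 y 1 0).card / (3 : ℝ) ^ m) ≤ a + E := by
      rw [div_le_iff₀ h3]; linarith
    linarith
  · have : a - E ≤ (wc (S k o) 0 y 1 0).card / (3 : ℝ) ^ m := by
      rw [le_div_iff₀ h3]; linarith
    linarith

/-! ### the statistic -/

variable (P : Par)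

/-- the value of the statistic for `s` steps of the class of `r` -/
def gs (s r : ℕ) : ℤ := P.α * (odn s r : ℤ) + P.β * (s : ℤ)

/-- the trajectory of `n` reaches `1`, and the statistic up to the first hit is `j` -/
def HP (j : ℤ) (n : ℕ) : Prop := ∃ t : ℕ, H t n ∧ gs P t n = j

/-- the levels on the integers -/
def SZ (j : ℤ) : Set ℤ := {x : ℤ | ∃ k o : ℤ, x ∈ SF 1 {1} 1 k o ∧ (P.α : ℤ) * o + P.β * k = j}

theorem GF_SZ : GF 1 (RF 1 {1}) (fun k o => SZ P (P.α * o + P.β * k)) := by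
  intro k o x hx
  have h := fun k' o' => GF_SF 1 {1} 1 k' o' x hx
  set e : ℤ := if x % 2 = 0 then 0 else 1 with he
  constructor
  · rintro ⟨k', o', h1, h2⟩
    refine ⟨k' - 1, o' - e, (h k' o').1 h1, ?_⟩
    linear_combination h2
  · rintro ⟨k', o', h1, h2⟩
    refine ⟨k' + 1, o' + e, (h _ _).2 ?_, ?_⟩
    · rw [add_sub_cancel_right, add_sub_cancel_right]
      exact h1
    · linear_combination h2

theorem SZ_iff (j : ℤ) (n : ℕ) : (n : ℤ) ∈ SZ P j ↔ HP P j n := by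
  unfold SZ SF Hit HP gs
  constructor
  · rintro ⟨k, o, ⟨t, ht, ⟨h1, _, h2⟩, h3⟩, h4⟩
    rw [Td_nat] at h1
    refine ⟨t, ⟨by exact_mod_cast h1, fun i hi hc => h2 i hi ?_⟩, ?_⟩
    · rw [Td_nat, hc]
      simp
    · rw [← od_nat, h3, ht]
      exact h4
  · rintro ⟨t, ⟨h1, h2⟩, h3⟩
    refine ⟨t, odn t n, ⟨t, rfl, ⟨?_, by simp, fun i hi hc => h2 i hi ?_⟩, od_nat t n⟩, h3⟩
    · rw [Td_nat, h1]; rfl
    · rw [Td_nat, Finset.mem_singleton] at hc
      exact_mod_cast hc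

theorem SZ_pos' {j x : ℤ} (hx : x ∈ SZ P j) : 0 < x := by
  obtain ⟨k, o, h1, _⟩ := hx
  exact SZ_pos (k := k) ⟨o, h1⟩

/-- the number of the `n ≤ X` of level `j` with `n ≡ c` modulo `q` -/
noncomputable def cN (j : ℤ) (X q c : ℕ) : ℕ := {n : ℕ | 1 ≤ n ∧ n ≤ X ∧ HP P j n ∧ n ≡ c [MOD q]}.ncard

theorem fin_cN (j : ℤ) (X q c : ℕ) : {n : ℕ | 1 ≤ n ∧ n ≤ X ∧ HP P j n ∧ n ≡ c [MOD q]}.Finite :=
  (Set.finite_Iic X).subset fun _ hn => hn.2.1

theorem cN_wc (j : ℤ) (X q c : ℕ) : cN P j X q c = (wc (SZ P j) 0 ((X : ℝ) + 1) q c).card := by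
  classical
  unfold cN
  rw [← Set.ncard_coe_finset]
  have e : ((wc (SZ P j) 0 ((X : ℝ) + 1) (q : ℤ) (c : ℤ) : Finset ℤ) : Set ℤ) = (fun n : ℕ => (n : ℤ)) ''
      {n : ℕ | 1 ≤ n ∧ n ≤ X ∧ HP P j n ∧ n ≡ c [MOD q]} := by
    ext x
    rw [Finset.mem_coe, mem_wc, Set.mem_image]
    constructor
    · rintro ⟨⟨h1, h2⟩, h3, h4⟩
      have h5 := SZ_pos' P h3
      obtain ⟨n, rfl⟩ := Int.eq_ofNat_of_zero_le h5.le
      refine ⟨n, ⟨by omega, ?_, (SZ_iff P j n).1 h3, ?_⟩, rfl⟩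
      · have : ((n : ℤ) : ℝ) < X + 1 := h2
        have : n < X + 1 := by exact_mod_cast this
        omega
      · exact ((Nat.modEq_iff_dvd).2 (by
          have := dvd_neg.2 h4
          rwa [neg_sub] at this))
    · rintro ⟨n, ⟨h1, h2, h3, h4⟩, rfl⟩
      refine ⟨⟨by positivity, ?_⟩, (SZ_iff P j n).2 h3, ?_⟩
      · have : n < X + 1 := by omega
        exact_mod_cast this
      · have := (Nat.modEq_iff_dvd).1 h4
        have := dvd_neg.2 this
        rwa [neg_sub] at this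
  rw [e, Set.ncard_image_of_injective _ Nat.cast_injective]

/-- equidistribution of the levels modulo powers of three -/
theorem cN_equi (B : ℕ) : ∃ (C : ℝ) (X0 : ℕ), 0 < C ∧ 2 ≤ X0 ∧ ∀ X : ℕ, X0 ≤ X → ∀ m : ℕ,
    (m : ℝ) ^ 2 ≤ Real.log X / 2 → ∀ (j : ℤ) (c : ℕ),
    |(cN P j X (3 ^ m) c : ℝ) - cN P j X 1 0 / 3 ^ m| ≤ C / (Real.log X) ^ B * (X / 3 ^ m) := by
  obtain ⟨C, Y0, hC, hY0, h⟩ := avg3 (d := 1) (R := RF 1 {1}) B odd_one isCoprime_one_left (RF_FC 1 {1})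
    (RF_SpW odd_one isCoprime_one_left {1}) (r0 := 2) (fun x hx => RF_one hx)
  refine ⟨2 * C, ⌈Y0⌉₊ + 2, by positivity, by omega, fun X hX m hm j c => ?_⟩
  have hX1 : (⌈Y0⌉₊ : ℝ) + 2 ≤ X := by exact_mod_cast hX
  have hY1 : Y0 ≤ X := by have := Nat.le_ceil Y0; linarith
  have hX2 : (2 : ℝ) ≤ X := hY0.trans hY1
  have hl : 0 < Real.log X := Real.log_pos (by linarith)
  have hl2 : Real.log X ≤ Real.log ((X : ℝ) + 1) := Real.log_le_log (by linarith) (by linarith)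
  have h1 := h (fun k o => SZ P (P.α * o + P.β * k)) (GF_SZ P) ((X : ℝ) + 1) (by linarith) m (by linarith)
    (P.k1 * j) (P.o1 * j) c
  have hj : (P.α : ℤ) * (P.o1 * j) + P.β * (P.k1 * j) = j := by linear_combination j * P.bez
  simp only [hj] at h1
  rw [cN_wc, cN_wc]
  have e1 : ((3 ^ m : ℕ) : ℤ) = 3 ^ m := by push_cast; rfl
  have e2 : ((1 : ℕ) : ℤ) = 1 := rfl
  have e3 : ((0 : ℕ) : ℤ) = 0 := rfl
  rw [e1, e2, e3]
  refine h1.trans ?_
  have h2 : C / (Real.log ((X : ℝ) + 1)) ^ B ≤ C / (Real.log X) ^ B :=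
    div_le_div_of_nonneg_left hC.le (by positivity) (pow_le_pow_left₀ hl.le hl2 B)
  have h3 : ((X : ℝ) + 1) / 3 ^ m ≤ 2 * (X / 3 ^ m) := by
    rw [← mul_div_assoc]
    exact div_le_div_of_nonneg_right (by linarith) (by positivity)
  calc C / (Real.log ((X : ℝ) + 1)) ^ B * (((X : ℝ) + 1) / 3 ^ m) ≤ C / (Real.log X) ^ B * (2 * (X / 3 ^ m)) := by
        apply mul_le_mul h2 h3 (by positivity) (by positivity)
    _ = 2 * C / (Real.log X) ^ B * (X / 3 ^ m) := by ring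

/-! ### the transfer -/

theorem gs_add (a b n : ℕ) : gs P (a + b) n = gs P a n + gs P b (Tn^[a] n) := by
  unfold gs
  rw [odn_add]
  push_cast
  ring

theorem HP_pos {j : ℤ} {n : ℕ} (h : HP P j n) : 1 ≤ n := by
  obtain ⟨t, h1, _⟩ := h
  exact H_pos h1

theorem HP_shift {s n : ℕ} {j : ℤ} (hs : 2 ^ s < n) (h : HP P j n) : HP P (j - gs P s n) (Tn^[s] n) := by
  obtain ⟨t, h1, h2⟩ := h
  have h3 : s ≤ t := by
    have h4 := pow_le_of_hit h1.1
    have h5 : 2 ^ s < 2 ^ t := by omega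
    exact ((Nat.pow_lt_pow_iff_right (by norm_num)).1 h5).le
  refine ⟨t - s, H_shift h3 h1, ?_⟩
  have h6 := gs_add P s (t - s) n
  rw [Nat.add_sub_cancel' h3, h2] at h6
  linarith

theorem HP_unshift {s n : ℕ} {j : ℤ} (hn : 2 ^ s ≤ n) (h : HP P (j - gs P s n) (Tn^[s] n)) : HP P j n := by
  obtain ⟨t, h1, h2⟩ := h
  refine ⟨s + t, H_unshift (Nat.le_add_right s t) hn (by rwa [Nat.add_sub_cancel_left]), ?_⟩
  rw [gs_add, h2]
  ring

/-- TRANSFER -/
theorem transfer {s r X : ℕ} (j : ℤ) (hr : r < 2 ^ s) (hX : 2 ^ s ≤ X) :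
    cN P j X (2 ^ s) r ≤ cN P (j - gs P s r) (Yk s r X) (3 ^ odn s r) (Tn^[s] r) + 2 ∧
    cN P (j - gs P s r) (Yk s r X) (3 ^ odn s r) (Tn^[s] r) ≤ cN P j X (2 ^ s) r + 2 := by
  classical
  have h2s : 0 < 2 ^ s := by positivity
  have h3o : 0 < 3 ^ odn s r := by positivity
  have hform : ∀ n, n ≡ r [MOD 2 ^ s] → n = r + 2 ^ s * (n / 2 ^ s) := by
    intro n hn
    have h1 : n % 2 ^ s = r := by rw [hn]; exact Nat.mod_eq_of_lt hr
    have h2 := Nat.mod_add_div n (2 ^ s)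
    omega
  have hgs : ∀ u, gs P s (r + 2 ^ s * u) = gs P s r := by
    intro u
    unfold gs
    rw [(it_class s r u).2]
  constructor
  · have hsub : {n : ℕ | 1 ≤ n ∧ n ≤ X ∧ HP P j n ∧ n ≡ r [MOD 2 ^ s]} ⊆
        {n : ℕ | (1 ≤ n ∧ n ≤ X ∧ HP P j n ∧ n ≡ r [MOD 2 ^ s]) ∧ 2 ^ s < n} ∪ {r, 2 ^ s} := by
      rintro n hn
      by_cases h : 2 ^ s < n
      · exact Or.inl ⟨hn, h⟩
      · right
        have h5 := hform n hn.2.2.2
        push Not at h
        rw [Set.mem_insert_iff, Set.mem_singleton_iff]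
        rcases Nat.eq_zero_or_pos (n / 2 ^ s) with h6 | h6
        · left; rw [h6] at h5; omega
        · right
          have h7 : 2 ^ s * 1 ≤ 2 ^ s * (n / 2 ^ s) := Nat.mul_le_mul_left _ h6
          omega
    have hfin := fin_cN P j X (2 ^ s) r
    have hfin2 : {n : ℕ | (1 ≤ n ∧ n ≤ X ∧ HP P j n ∧ n ≡ r [MOD 2 ^ s]) ∧ 2 ^ s < n}.Finite :=
      hfin.subset fun n hn => hn.1
    have h1 : cN P j X (2 ^ s) r ≤
        {n : ℕ | (1 ≤ n ∧ n ≤ X ∧ HP P j n ∧ n ≡ r [MOD 2 ^ s]) ∧ 2 ^ s < n}.ncard + 2 := by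
      unfold cN
      refine (Set.ncard_le_ncard hsub (hfin2.union (Set.toFinite _))).trans ?_
      refine (Set.ncard_union_le _ _).trans ?_
      apply Nat.add_le_add_left
      exact (Set.ncard_insert_le _ _).trans (by rw [Set.ncard_singleton])
    refine h1.trans (Nat.add_le_add_right ?_ 2)
    unfold cN
    refine Set.ncard_le_ncard_of_injOn (fun n => Tn^[s] n) ?_ ?_ (fin_cN P _ _ _ _)
    · rintro n ⟨⟨h1, h2, h3, h4⟩, h0⟩
      have h5 := hform n h4
      obtain ⟨g1, g2⟩ := it_class s r (n / 2 ^ s)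
      rw [← h5] at g1
      have h6 := HP_shift P h0 h3
      have h7 : gs P s n = gs P s r := by rw [h5]; exact hgs _
      rw [h7] at h6
      refine ⟨HP_pos P h6, ?_, h6, ?_⟩
      · show Tn^[s] n ≤ _
        rw [g1]
        unfold Yk
        apply Nat.add_le_add_left
        apply Nat.mul_le_mul_left
        rw [Nat.le_div_iff_mul_le h2s]
        have : n / 2 ^ s * 2 ^ s = 2 ^ s * (n / 2 ^ s) := Nat.mul_comm _ _
        omega
      · show Tn^[s] n ≡ _ [MOD _]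
        rw [g1]
        exact (Nat.modEq_iff_dvd' (Nat.le_add_right _ _)).2 (by
          rw [Nat.add_sub_cancel_left]; exact Dvd.intro _ rfl) |>.symm
    · intro n hn n' hn' he
      have h5 := hform n hn.1.2.2.2
      have h5' := hform n' hn'.1.2.2.2
      obtain ⟨g1, _⟩ := it_class s r (n / 2 ^ s)
      obtain ⟨g1', _⟩ := it_class s r (n' / 2 ^ s)
      rw [← h5] at g1
      rw [← h5'] at g1'
      simp only at he
      rw [g1, g1'] at he
      have h6 : 3 ^ odn s r * (n / 2 ^ s) = 3 ^ odn s r * (n' / 2 ^ s) := by omega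
      have h7 := Nat.eq_of_mul_eq_mul_left h3o h6
      rw [h5, h5', h7]
  · have hsub : {m : ℕ | 1 ≤ m ∧ m ≤ Yk s r X ∧ HP P (j - gs P s r) m ∧ m ≡ Tn^[s] r [MOD 3 ^ odn s r]} ⊆
        ((fun n => Tn^[s] n) '' {n : ℕ | 1 ≤ n ∧ n ≤ X ∧ HP P j n ∧ n ≡ r [MOD 2 ^ s]}) ∪
          {Tn^[s] r, Tn^[s] r - 3 ^ odn s r} := by
      rintro m ⟨h1, h2, h3, h4⟩
      by_cases hm : Tn^[s] r + 3 ^ odn s r ≤ m
      · left
        have h5 := (Nat.modEq_iff_dvd' (by omega)).1 h4.symm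
        obtain ⟨u, hu⟩ := h5
        have hu1 : m = Tn^[s] r + 3 ^ odn s r * u := by omega
        have hu0 : 1 ≤ u := by
          rcases Nat.eq_zero_or_pos u with h | h
          · subst h; omega
          · exact h
        obtain ⟨g1, _⟩ := it_class s r u
        have h6 : u ≤ (X - r) / 2 ^ s := by
          have h7 : 3 ^ odn s r * u ≤ 3 ^ odn s r * ((X - r) / 2 ^ s) := by
            unfold Yk at h2; omega
          exact le_of_mul_le_mul_left h7 h3o
        rw [Nat.le_div_iff_mul_le h2s] at h6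
        have hcm : u * 2 ^ s = 2 ^ s * u := Nat.mul_comm _ _
        have h8 : 2 ^ s ≤ 2 ^ s * u := Nat.le_mul_of_pos_right _ hu0
        refine ⟨r + 2 ^ s * u, ⟨by omega, by omega, ?_, ?_⟩, ?_⟩
        · apply HP_unshift P (s := s) (by omega)
          rw [hgs, g1, ← hu1]; exact h3
        · exact ((Nat.modEq_iff_dvd' (Nat.le_add_right _ _)).2 (by
            rw [Nat.add_sub_cancel_left]; exact Dvd.intro _ rfl)).symm
        · show Tn^[s] (r + 2 ^ s * u) = m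
          rw [g1, hu1]
      · right
        push Not at hm
        have hsm := it_small hr
        rw [Set.mem_insert_iff, Set.mem_singleton_iff]
        rcases Nat.lt_or_ge m (Tn^[s] r) with h | h
        · right
          have h5 := (Nat.modEq_iff_dvd' h.le).1 h4
          obtain ⟨u, hu⟩ := h5
          have hu1 : u = 1 := by
            rcases Nat.lt_or_ge u 1 with h6 | h6
            · have : u = 0 := by omega
              subst this; omega
            · rcases Nat.lt_or_ge u 2 with h7 | h7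
              · omega
              · have h8 : 3 ^ odn s r * 2 ≤ 3 ^ odn s r * u := Nat.mul_le_mul_left _ h7
                omega
          subst hu1
          omega
        · left
          have h5 := (Nat.modEq_iff_dvd' h).1 h4.symm
          obtain ⟨u, hu⟩ := h5
          have hu1 : u = 0 := by
            rcases Nat.eq_zero_or_pos u with h6 | h6
            · exact h6
            · have h8 : 3 ^ odn s r * 1 ≤ 3 ^ odn s r * u := Nat.mul_le_mul_left _ h6
              omega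
          subst hu1
          omega
    unfold cN
    refine (Set.ncard_le_ncard hsub (((fin_cN P _ _ _ _).image _).union (Set.toFinite _))).trans ?_
    refine (Set.ncard_union_le _ _).trans ?_
    apply Nat.add_le_add
    · exact Set.ncard_image_le (fin_cN P _ _ _ _)
    · exact (Set.ncard_insert_le _ _).trans (by rw [Set.ncard_singleton])

/-- neighbours which coalesce have the same level -/
theorem HP_transfer {t n m : ℕ} (h2 : 4 ^ t ≤ n) (hn : n ≤ m) (hm : m < 2 * n) (h : Tn^[t] m = Tn^[t] n) (j : ℤ) :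
    HP P j m ↔ HP P j n := by
  have H0 := H_transfer h2 hn hm h
  unfold HP gs
  constructor
  · rintro ⟨k, h1, h3⟩
    have h4 := (H0 k).1.1 h1
    exact ⟨k, h4, by rw [← (H0 k).2 h4]; exact h3⟩
  · rintro ⟨k, h1, h3⟩
    exact ⟨k, (H0 k).1.2 h1, by rw [(H0 k).2 h1]; exact h3⟩

theorem HP_unique {j j' : ℤ} {n : ℕ} (h : HP P j n) (h' : HP P j' n) : j = j' := by
  obtain ⟨t, h1, h2⟩ := h
  obtain ⟨t', h1', h2'⟩ := h'
  have := H_unique h1 h1'
  subst this
  rw [← h2, h2']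

end Pool.Agent.K3h31.CL
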