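import Pool.Agent.K3h31.CL.B
import Pool.Agent.R468.MF.Fin2

/-!
Residue classes for the statistics `α (odd terms) + β (steps)`, part 3: the counting functions, the
local law for all integers.
-/

set_option autoImplicit false

namespace Pool.Agent.K3h31.CL

open Filter Topology Finset
open Pool.Agent.R468.GL
open Pool.Agent.R468.LL (lam lam_eq lam_pos lam_lt)
open Pool.Agent.H499R2.LT
open Pool.Agent.H499R2.ND (Td Tn Dn)
open Pool.Agent.H499R2.HL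
open Pool.Agent.R468.RC (gd_low gd_pos)

variable (P : Par)

/-- the number of the `n ≤ x` of level `j` with the property `Q` -/
noncomputable def cZ (Q : ℕ → Prop) (p : ℝ × ℤ) : ℝ :=
  ({n : ℕ | 1 ≤ n ∧ (n : ℝ) ≤ p.1 ∧ Q n ∧ HP P p.2 n}.ncard : ℝ)

theorem fin_cZ (Q : ℕ → Prop) (p : ℝ × ℤ) : {n : ℕ | 1 ≤ n ∧ (n : ℝ) ≤ p.1 ∧ Q n ∧ HP P p.2 n}.Finite := by
  refine (Set.finite_Iic ⌊p.1⌋₊).subset fun n hn => ?_
  exact Nat.le_floor hn.2.1

theorem cZ_mono {Q Q' : ℕ → Prop} (h : ∀ n, Q n → Q' n) (p : ℝ × ℤ) : cZ P Q p ≤ cZ P Q' p := by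
  have hs : {n : ℕ | 1 ≤ n ∧ (n : ℝ) ≤ p.1 ∧ Q n ∧ HP P p.2 n} ⊆
      {n : ℕ | 1 ≤ n ∧ (n : ℝ) ≤ p.1 ∧ Q' n ∧ HP P p.2 n} :=
    fun n hn => ⟨hn.1, hn.2.1, h n hn.2.2.1, hn.2.2.2⟩
  unfold cZ
  exact_mod_cast Set.ncard_le_ncard hs (fin_cZ P Q' p)

theorem cZ_nonneg (Q : ℕ → Prop) (p : ℝ × ℤ) : 0 ≤ cZ P Q p := Nat.cast_nonneg _

theorem cZ_cN {q r : ℕ} {p : ℝ × ℤ} (h1 : 0 ≤ p.1) :
    cZ P (fun n => n ≡ r [MOD q]) p = cN P p.2 ⌊p.1⌋₊ q r := by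
  unfold cZ cN
  congr 2
  ext n
  rw [Set.mem_ofPred_eq, Set.mem_ofPred_eq, Nat.le_floor_iff h1]
  tauto

theorem cZ_true {p : ℝ × ℤ} (h1 : 0 ≤ p.1) :
    cZ P (fun _ => True) p = cN P p.2 ⌊p.1⌋₊ 1 0 := by
  have e : (fun _ : ℕ => True) = fun n => n ≡ 0 [MOD 1] := by
    funext n
    exact (eq_true (Nat.modEq_one)).symm
  rw [e, cZ_cN P h1]

/-- the local law for the property `Q` with the weight `t` -/
def LQ (Q : ℕ → Prop) (t : ℝ) (Ψ : ℝ → ℝ) : Prop := ∀ K : ℝ,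
  Tendsto (fun p : ℝ × ℤ => cZ P Q p / (p.1 * gd P p.1 p.2) - t * Ψ (sv P p)) (xg P K) (𝓝 0)

theorem xg_snd (K : ℝ) : Tendsto (fun p : ℝ × ℤ => (p.2 : ℝ)) (xg P K) atTop := by
  have hlam := lam_pos
  have hA := A0_ge P
  refine tendsto_atTop_mono' _ ?_ ((xg_log P K).atTop_div_const (show 0 < 2 * lam by positivity))
  filter_upwards [xg_dev P K, (xg_sqrt P K).eventually (eventually_ge_atTop (max 0 (2 * K))),
    (xg_log P K).eventually (eventually_ge_atTop 0)] with p h1 h2 h3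
  have h4 := (abs_le.1 h1).1
  have h5 : 2 * K * Real.sqrt (Real.log p.1) ≤ Real.log p.1 := by
    have h6 : 2 * K ≤ Real.sqrt (Real.log p.1) := (le_max_right _ _).trans h2
    calc 2 * K * Real.sqrt (Real.log p.1) ≤ Real.sqrt (Real.log p.1) * Real.sqrt (Real.log p.1) :=
          mul_le_mul_of_nonneg_right h6 (Real.sqrt_nonneg _)
      _ = _ := Real.mul_self_sqrt h3
  have h6 : Real.log p.1 ≤ A0 P * Real.log p.1 := le_mul_of_one_le_left h3 hA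
  rw [div_le_iff₀ (by positivity)]
  linarith

theorem xg_snd_ge (K : ℝ) (N : ℤ) : ∀ᶠ p : ℝ × ℤ in xg P K, N ≤ p.2 := by
  filter_upwards [(xg_snd P K).eventually (eventually_ge_atTop (N : ℝ))] with p hp
  exact_mod_cast hp

theorem xg_ge (K X : ℝ) : ∀ᶠ p : ℝ × ℤ in xg P K, X ≤ p.1 := (xg_fst P K).eventually (eventually_ge_atTop X)

theorem gd_pos_ev (K : ℝ) : ∀ᶠ p : ℝ × ℤ in xg P K, 0 < gd P p.1 p.2 := by
  filter_upwards [(xg_log P K).eventually (eventually_gt_atTop 0)] with p h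
  exact gd_pos P h p.2

/-- negligible numbers -/
theorem negl (K : ℝ) {f : ℝ × ℤ → ℝ} (h : ∃ C : ℝ, ∀ᶠ p in xg P K, |f p| ≤ C * p.1 / Real.log p.1) :
    Tendsto (fun p => f p / (p.1 * gd P p.1 p.2)) (xg P K) (𝓝 0) := by
  obtain ⟨C, hC⟩ := h
  obtain ⟨c, hc, hgd⟩ := gd_low P K
  have h1 : Tendsto (fun p : ℝ × ℤ => |C| / c / Real.sqrt (Real.log p.1)) (xg P K) (𝓝 0) :=
    tendsto_const_nhds.div_atTop (xg_sqrt P K)
  refine squeeze_zero_norm' ?_ h1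
  filter_upwards [hC, hgd, xg_ge P K 1, (xg_log P K).eventually (eventually_gt_atTop 0)] with p g1 g2 g3 g4
  have hs : 0 < Real.sqrt (Real.log p.1) := Real.sqrt_pos.2 g4
  have hx : (0 : ℝ) < p.1 := by linarith
  have g5 : 0 < gd P p.1 p.2 := lt_of_lt_of_le (by positivity) g2
  rw [norm_div, Real.norm_eq_abs, Real.norm_of_nonneg (by positivity)]
  have g6 : C * p.1 / Real.log p.1 ≤ |C| * p.1 / Real.log p.1 :=
    div_le_div_of_nonneg_right (mul_le_mul_of_nonneg_right (le_abs_self C) hx.le) g4.le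
  calc |f p| / (p.1 * gd P p.1 p.2) ≤ (|C| * p.1 / Real.log p.1) / (p.1 * (c / Real.sqrt (Real.log p.1))) := by
        apply div_le_div₀ (by positivity) (g1.trans g6) (by positivity)
        exact mul_le_mul_of_nonneg_left g2 hx.le
    _ = |C| / c / Real.sqrt (Real.log p.1) := by
        rw [div_div, div_div, div_eq_div_iff (by positivity) (by positivity)]
        have h5 : Real.sqrt (Real.log p.1) * Real.sqrt (Real.log p.1) = Real.log p.1 := Real.mul_self_sqrt g4.le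
        generalize Real.sqrt (Real.log p.1) = S at h5 hs
        rw [← h5]
        field_simp

theorem lv_HP (n k : ℕ) : n ∈ Lv P 1 1 {1} (k : ℤ) ↔ 1 ≤ n ∧ HP P (k : ℤ) n := by
  unfold Lv
  rw [Set.mem_ofPred_eq]
  apply and_congr_right
  intro _
  simp only [iff_one]
  unfold HP H gs
  apply exists_congr
  intro t
  rw [one_mul, od_nat]

/-- the base case -/
theorem base : ∃ (δ : ℝ) (Ψ : ℝ → ℝ) (M : ℝ), 0 < δ ∧
    Dn (fun n : ℕ => ∃ k : ℕ, (Td 1)^[k] (1 * (n : ℤ)) ∈ ({1} : Finset ℤ)) δ ∧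
    Continuous Ψ ∧ (∀ t, Ψ (t + 1) = Ψ t) ∧
    (∀ t, δ * (ww P * qr P / (1 - qr P)) ≤ Ψ t ∧ Ψ t ≤ δ * (ww P / (1 - qr P))) ∧
    (∫ t in (0 : ℝ)..1, Ψ t = δ) ∧ (∀ t, Ψ t ≤ M) ∧ δ ≤ M ∧ LQ P (fun _ => True) 1 Ψ := by
  obtain ⟨δ, Ψ, M, h0, h1, h2, h3, h4, h5, h6, _, h8, h9, _⟩ :=
    Pool.Agent.R468.MF.freq P (fun n k => HP P (k : ℤ) n) (lv_HP P)
  refine ⟨δ, Ψ, M, h0, h1, h2, h3, h4, h5, h6, h8, ?_⟩
  intro K
  have hlam := lam_pos
  rw [Metric.tendsto_nhds]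
  intro ε hε
  obtain ⟨X₀, hX⟩ := h9 (|K| / lam) (ε / 2) (by positivity)
  filter_upwards [xg_dev P K, xg_ge P K X₀, xg_snd_ge P K 0] with p g1 g2 g4
  obtain ⟨x, j⟩ := p
  simp only at g1 g2 g4 ⊢
  obtain ⟨k, rfl⟩ := Int.eq_ofNat_of_zero_le g4
  have g5 := hX x g2 k (by
    have e : (k : ℝ) - A0 P / lam * Real.log x = ((k : ℝ) * lam - A0 P * Real.log x) / lam := by
      field_simp
    rw [e, abs_div, abs_of_pos hlam, div_mul_eq_mul_div]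
    apply div_le_div_of_nonneg_right _ hlam.le
    have : (((k : ℕ) : ℤ) : ℝ) = k := by push_cast; rfl
    rw [this] at g1
    exact g1.trans (mul_le_mul_of_nonneg_right (le_abs_self K) (Real.sqrt_nonneg _)))
  have e1 : cZ P (fun _ => True) (x, ((k : ℕ) : ℤ)) =
      ({n : ℕ | 1 ≤ n ∧ (n : ℝ) ≤ x ∧ HP P (k : ℤ) n}.ncard : ℝ) := by
    unfold cZ
    congr 2
    ext n
    rw [Set.mem_ofPred_eq, Set.mem_ofPred_eq]
    simp only [true_and]
  rw [Real.dist_eq, sub_zero, e1, one_mul]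
  exact lt_of_le_of_lt g5 (by linarith)

end Pool.Agent.K3h31.CL
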