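import Pool.Agent.K3h31.CL.C
import Pool.Agent.R468.RC.E

/-!
Residue classes for the statistics `α (odd terms) + β (steps)`, part 4: the local limit law in the
classes modulo `2^s`.
-/

set_option autoImplicit false

namespace Pool.Agent.K3h31.CL

open Filter Topology Finset
open Pool.Agent.R468.GL hiding ph
open Pool.Agent.R468.LL (lam lam_eq lam_pos lam_lt)
open Pool.Agent.H499R2.LT
open Pool.Agent.H499R2.ND (Td Tn Dn)
open Pool.Agent.H499R2.HL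
open Pool.Agent.R468.RC (per_close mv_log mv_fst mv_xg mv_gd Yk Yk_size)

variable (P : Par)

/-- the transfer of the arguments -/
noncomputable def ph (s r : ℕ) (p : ℝ × ℤ) : ℝ × ℤ := ((Yk s r ⌊p.1⌋₊ : ℝ), p.2 - gs P s r)

theorem ph_size {s r : ℕ} (hr : r < 2 ^ s) {p : ℝ × ℤ} (hp : (2 : ℝ) ^ s + 1 ≤ p.1) :
    |(ph P s r p).1 / 3 ^ odn s r - p.1 / 2 ^ s| ≤ 2 := by
  have h2s : (1 : ℝ) ≤ 2 ^ s := one_le_pow₀ (by norm_num)
  have hp0 : 0 ≤ p.1 := by linarith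
  have h1 := Nat.floor_le hp0
  have h2 := Nat.lt_floor_add_one p.1
  have h3 : 2 ^ s ≤ ⌊p.1⌋₊ := by
    apply Nat.le_floor
    push_cast
    linarith
  have h4 := Yk_size hr h3
  have h5 : |(⌊p.1⌋₊ : ℝ) / 2 ^ s - p.1 / 2 ^ s| ≤ 1 := by
    rw [← sub_div, abs_div, abs_of_pos (by positivity : (0 : ℝ) < 2 ^ s), div_le_one (by positivity), abs_le]
    constructor <;> linarith
  have e : (ph P s r p).1 / 3 ^ odn s r - p.1 / 2 ^ s =
      ((Yk s r ⌊p.1⌋₊ : ℝ) / 3 ^ odn s r - (⌊p.1⌋₊ : ℝ) / 2 ^ s) + ((⌊p.1⌋₊ : ℝ) / 2 ^ s - p.1 / 2 ^ s) := by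
    unfold ph; ring
  rw [e]
  refine (abs_add_le _ _).trans ?_
  linarith

theorem ph_rat {s r : ℕ} (hr : r < 2 ^ s) (K : ℝ) :
    Tendsto (fun p : ℝ × ℤ => (ph P s r p).1 / p.1) (xg P K) (𝓝 (3 ^ odn s r / 2 ^ s)) := by
  have h1 : Tendsto (fun p : ℝ × ℤ => (3 : ℝ) ^ odn s r * 2 / p.1) (xg P K) (𝓝 0) :=
    tendsto_const_nhds.div_atTop (xg_fst P K)
  rw [tendsto_iff_norm_sub_tendsto_zero]
  refine squeeze_zero' (Eventually.of_forall fun _ => norm_nonneg _) ?_ h1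
  filter_upwards [xg_ge P K ((2 : ℝ) ^ s + 1)] with p hp
  have h2 := ph_size P hr hp
  have h2s : (1 : ℝ) ≤ 2 ^ s := one_le_pow₀ (by norm_num)
  have hp0 : 0 < p.1 := by linarith
  have h3 : (0 : ℝ) < 3 ^ odn s r := by positivity
  have e : (ph P s r p).1 / p.1 - 3 ^ odn s r / 2 ^ s =
      3 ^ odn s r / p.1 * ((ph P s r p).1 / 3 ^ odn s r - p.1 / 2 ^ s) := by field_simp
  rw [Real.norm_eq_abs, e, abs_mul, abs_of_pos (by positivity)]
  calc 3 ^ odn s r / p.1 * |(ph P s r p).1 / 3 ^ odn s r - p.1 / 2 ^ s| ≤ 3 ^ odn s r / p.1 * 2 :=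
        mul_le_mul_of_nonneg_left h2 (by positivity)
    _ = _ := by ring

theorem ph_pos {s r : ℕ} (hr : r < 2 ^ s) (K : ℝ) : ∀ᶠ p : ℝ × ℤ in xg P K, 0 < (ph P s r p).1 := by
  filter_upwards [(ph_rat P hr K).eventually (lt_mem_nhds (show (0 : ℝ) < 3 ^ odn s r / 2 ^ s by positivity)),
    xg_ge P K 1] with p h1 h2
  have hp0 : 0 < p.1 := by linarith
  by_contra hc
  push Not at hc
  have := div_nonpos_of_nonpos_of_nonneg hc hp0.le
  linarith

theorem ph_log {s r : ℕ} (hr : r < 2 ^ s) (K : ℝ) :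
    Tendsto (fun p : ℝ × ℤ => Real.log (ph P s r p).1 - Real.log p.1) (xg P K)
      (𝓝 (Real.log (3 ^ odn s r / 2 ^ s))) := by
  have h1 := ((Real.continuousAt_log (show (3 : ℝ) ^ odn s r / 2 ^ s ≠ 0 by positivity)).tendsto).comp (ph_rat P hr K)
  refine h1.congr' ?_
  filter_upwards [ph_pos P hr K, xg_ge P K 1] with p h2 h3
  simp only [Function.comp]
  rw [Real.log_div h2.ne' (by linarith)]

theorem ph_h1 {s r : ℕ} (hr : r < 2 ^ s) (K : ℝ) : ∀ᶠ p in xg P K, 0 < (ph P s r p).1 ∧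
    |Real.log (ph P s r p).1 - Real.log p.1| ≤ |Real.log (3 ^ odn s r / 2 ^ s)| + 1 := by
  filter_upwards [ph_pos P hr K, (ph_log P hr K).eventually (Metric.ball_mem_nhds _ one_pos)] with p h1 h2
  refine ⟨h1, ?_⟩
  rw [Real.dist_eq, abs_lt] at h2
  have h3 := neg_abs_le (Real.log ((3 : ℝ) ^ odn s r / 2 ^ s))
  have h4 := le_abs_self (Real.log ((3 : ℝ) ^ odn s r / 2 ^ s))
  rw [abs_le]
  constructor
  · linarith [h2.1]
  · linarith [h2.2]

theorem ph_h2 (s r : ℕ) (K : ℝ) : ∀ᶠ p in xg P K, |((ph P s r p).2 : ℝ) - p.2| ≤ |(gs P s r : ℝ)| := by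
  refine Eventually.of_forall fun p => ?_
  unfold ph
  push_cast
  rw [show (p.2 : ℝ) - gs P s r - p.2 = -gs P s r by ring, abs_neg]

theorem ph_sv {s r : ℕ} (hr : r < 2 ^ s) (K : ℝ) :
    Tendsto (fun p : ℝ × ℤ => sv P (ph P s r p) - sv P p) (xg P K)
      (𝓝 ((P.k1 * (odn s r : ℤ) - P.o1 * (s : ℤ) : ℤ) : ℝ)) := by
  have hw := (ww_pos P).ne'
  have hb := P.bezR
  have h1 := ((ph_log P hr K).add_const ((gs P s r : ℝ) * Pool.Agent.R468.GL.kap P)).div_const (ww P)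
  have e : (Real.log (3 ^ odn s r / 2 ^ s) + (gs P s r : ℝ) * Pool.Agent.R468.GL.kap P) / ww P =
      ((P.k1 * (odn s r : ℤ) - P.o1 * (s : ℤ) : ℤ) : ℝ) := by
    rw [Real.log_div (by positivity) (by positivity), Real.log_pow, Real.log_pow, div_eq_iff hw]
    unfold gs Pool.Agent.R468.GL.kap ww
    push_cast
    linear_combination (-(odn s r : ℝ) * Real.log 3 + (s : ℝ) * Real.log 2) * hb
  rw [e] at h1
  refine h1.congr fun p => ?_
  have e2 : ((ph P s r p).2 : ℝ) = p.2 - gs P s r := by unfold ph; push_cast; rfl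
  unfold sv
  rw [e2]
  field_simp
  ring

/-- the error of the transfer -/
theorem tr_err {s r : ℕ} (hr : r < 2 ^ s) (K : ℝ) :
    Tendsto (fun p : ℝ × ℤ => (cZ P (fun n => n ≡ r [MOD 2 ^ s]) p - cZ P (fun _ => True) (ph P s r p) / 3 ^ odn s r) /
      (p.1 * gd P p.1 p.2)) (xg P K) (𝓝 0) := by
  obtain ⟨C, X0, hC, hX0, heq⟩ := cN_equi P 1
  apply negl P K
  refine ⟨4 * C + 2, ?_⟩
  set o := odn s r with ho
  have hphx := mv_fst P (ph_h1 P hr K)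
  have hlg : ∀ᶠ p in xg P K, Real.log p.1 / 2 ≤ Real.log (ph P s r p).1 := by
    filter_upwards [ph_h1 P hr K, (xg_log P K).eventually (eventually_ge_atTop
      (2 * (|Real.log (3 ^ odn s r / 2 ^ s)| + 1)))] with p h1 h2
    have := (abs_le.1 h1.2).1
    linarith
  filter_upwards [xg_ge P K ((2 : ℝ) ^ s + 2), hphx.eventually (eventually_ge_atTop (X0 : ℝ)), hlg,
    (xg_log P K).eventually (eventually_ge_atTop (max 1 (4 * (o : ℝ) ^ 2)))] with p h1 h2 h3 h5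
  have h2s : (1 : ℝ) ≤ 2 ^ s := one_le_pow₀ (by norm_num)
  have hp0 : 0 ≤ p.1 := by linarith
  have hL1 : 1 ≤ Real.log p.1 := (le_max_left _ _).trans h5
  have hL2 : 4 * (o : ℝ) ^ 2 ≤ Real.log p.1 := (le_max_right _ _).trans h5
  have h3s : 2 ^ s ≤ ⌊p.1⌋₊ := by
    apply Nat.le_floor
    push_cast
    linarith
  set j := p.2 with hj
  obtain ⟨t1, t2⟩ := transfer P (X := ⌊p.1⌋₊) j hr h3s
  set Y := Yk s r ⌊p.1⌋₊ with hY
  have hph : (ph P s r p).1 = (Y : ℝ) := rfl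
  have e1 : cZ P (fun n => n ≡ r [MOD 2 ^ s]) p = cN P j ⌊p.1⌋₊ (2 ^ s) r := cZ_cN P hp0
  have e2 : cZ P (fun _ => True) (ph P s r p) = cN P (j - gs P s r) Y 1 0 := by
    rw [cZ_true P (by rw [hph]; positivity), hph, Nat.floor_natCast]
    rfl
  rw [e1, e2]
  rw [hph] at h2 h3
  have hYX : X0 ≤ Y := by exact_mod_cast h2
  have h6 := heq Y hYX o (by linarith) (j - gs P s r) (Tn^[s] r)
  rw [pow_one] at h6
  have t1' : (cN P j ⌊p.1⌋₊ (2 ^ s) r : ℝ) ≤ cN P (j - gs P s r) Y (3 ^ o) (Tn^[s] r) + 2 := by exact_mod_cast t1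
  have t2' : (cN P (j - gs P s r) Y (3 ^ o) (Tn^[s] r) : ℝ) ≤ cN P j ⌊p.1⌋₊ (2 ^ s) r + 2 := by exact_mod_cast t2
  have h7 : |(cN P j ⌊p.1⌋₊ (2 ^ s) r : ℝ) - cN P (j - gs P s r) Y 1 0 / 3 ^ o| ≤ 2 + C / Real.log Y * (Y / 3 ^ o) := by
    have h8 := abs_le.1 h6
    rw [abs_le]
    constructor <;> linarith [h8.1, h8.2]
  refine h7.trans ?_
  have h9 := ph_size P hr (p := p) (by linarith)
  rw [hph, ← ho] at h9
  have h10 : (Y : ℝ) / 3 ^ o ≤ 2 * p.1 := by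
    have h11 := (abs_le.1 h9).2
    have h12 : p.1 / 2 ^ s ≤ p.1 := div_le_self hp0 h2s
    linarith
  have hY0 : 0 < Real.log Y := by linarith
  have h13 : C / Real.log Y ≤ 2 * C / Real.log p.1 := by
    rw [div_le_div_iff₀ hY0 (by linarith)]
    nlinarith
  have h14 : Real.log p.1 ≤ p.1 := Real.log_le_self hp0
  have h15 : 2 ≤ 2 * p.1 / Real.log p.1 := by
    rw [le_div_iff₀ (by linarith)]
    linarith
  calc 2 + C / Real.log Y * (Y / 3 ^ o) ≤ 2 * p.1 / Real.log p.1 + 2 * C / Real.log p.1 * (2 * p.1) := by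
        apply add_le_add h15
        exact mul_le_mul h13 h10 (by positivity) (by positivity)
    _ = (4 * C + 2) * p.1 / Real.log p.1 := by ring

/-- THE LOCAL LIMIT LAW in the classes modulo `2^s` -/
theorem class_law {Ψ : ℝ → ℝ} (hc : Continuous Ψ) (hp : ∀ t, Ψ (t + 1) = Ψ t) {M : ℝ} (hM : ∀ t, |Ψ t| ≤ M)
    (hL : LQ P (fun _ => True) 1 Ψ) {s r : ℕ} (hr : r < 2 ^ s) :
    LQ P (fun n => n ≡ r [MOD 2 ^ s]) (1 / 2 ^ s) Ψ := by
  intro K
  set o := odn s r with ho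
  have hbm : ∀ (f : ℝ × ℤ → ℝ), Tendsto f (xg P K) (𝓝 0) →
      Tendsto (fun p => Ψ (sv P (ph P s r p)) * f p) (xg P K) (𝓝 0) := by
    intro f hf
    refine squeeze_zero_norm (a := fun p => M * ‖f p‖) (fun p => ?_) ?_
    · rw [norm_mul, Real.norm_eq_abs]
      exact mul_le_mul_of_nonneg_right (hM _) (norm_nonneg _)
    · have := hf.norm.const_mul M
      rwa [norm_zero, mul_zero] at this
  have A1 := (hL (2 * |K| + 1)).comp (mv_xg P (ph_h1 P hr K) (ph_h2 P s r K))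
  have hg := mv_gd P (ph_h1 P hr K) (ph_h2 P s r K)
  have hρ : Tendsto (fun p : ℝ × ℤ => ((ph P s r p).1 / p.1 / 3 ^ o) * (gd P (ph P s r p).1 (ph P s r p).2 / gd P p.1 p.2))
      (xg P K) (𝓝 (1 / 2 ^ s)) := by
    have h1 := ((ph_rat P hr K).div_const ((3 : ℝ) ^ o)).mul hg
    have e : (3 : ℝ) ^ odn s r / 2 ^ s / 3 ^ o * 1 = 1 / 2 ^ s := by
      rw [← ho]; field_simp
    rwa [e] at h1
  have A2 := A1.mul hρ
  rw [zero_mul] at A2
  have A3 := hbm _ (by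
    have := hρ.sub_const (1 / 2 ^ s)
    rwa [sub_self] at this)
  have A4 := (per_close hc hp (ph_sv P hr K)).div_const (2 ^ s)
  rw [zero_div] at A4
  have A5 := ((tr_err P hr K).add A2).add (A3.add A4)
  simp only [add_zero] at A5
  refine A5.congr' ?_
  have hgp := (mv_xg P (ph_h1 P hr K) (ph_h2 P s r K)).eventually (gd_pos_ev P (2 * |K| + 1))
  filter_upwards [gd_pos_ev P K, hgp, xg_ge P K 1, ph_pos P hr K] with p h1 h2 h3 h4
  simp only [Function.comp]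
  have hx : 0 < p.1 := by linarith
  have h3o : (0 : ℝ) < 3 ^ o := by positivity
  have h2s : (0 : ℝ) < 2 ^ s := by positivity
  rw [← ho]
  field_simp
  ring

end Pool.Agent.K3h31.CL
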