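import Pool.Agent.K3h31.CL.D
import Pool.Agent.R468.RC.H

/-!
Residue classes for the statistics `α (odd terms) + β (steps)`, part 5: all moduli; runs of equal values.
-/

set_option autoImplicit false

namespace Pool.Agent.K3h31.CL

open Filter Topology Finset
open Pool.Agent.R468.GL hiding ph
open Pool.Agent.H499R2.LT
open Pool.Agent.H499R2.ND (Td Tn Dn)
open Pool.Agent.H499R2.HL
open Pool.Agent.R468.RC (Good BR BR_sub mem_BR BR_small)

variable (P : Par)

theorem Good_HP {h t n : ℕ} (hn : 4 ^ t ≤ n) (hh : h < n) (hG : Good h t n) :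
    ∀ i ≤ h, ∀ j, HP P j (n + i) ↔ HP P j n := by
  obtain ⟨t', ht, g⟩ := hG
  intro i hi j
  have h4 : 4 ^ t' ≤ n := (Nat.pow_le_pow_right (by norm_num) ht).trans hn
  exact HP_transfer P h4 (Nat.le_add_right _ _) (by omega) (g i hi).1 j

/-! ### unions of classes -/

theorem cZ_union {q : ℕ} (hq : 0 < q) (W : Finset ℕ) (hW : W ⊆ Finset.range q) (p : ℝ × ℤ) :
    cZ P (fun n => n % q ∈ W) p = ∑ r ∈ W, cZ P (fun n => n ≡ r [MOD q]) p := by
  classical
  have hfin := fin_cZ P (fun _ => True) p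
  have key : ∀ (Q : ℕ → Prop) [DecidablePred Q], cZ P Q p = ((hfin.toFinset.filter Q).card : ℝ) := by
    intro Q _
    unfold cZ
    rw [← Set.ncard_coe_finset]
    congr 2
    ext n
    rw [Finset.mem_coe, Finset.mem_filter, Set.Finite.mem_toFinset, Set.mem_ofPred_eq, Set.mem_ofPred_eq]
    tauto
  rw [key]
  have h := Finset.card_eq_sum_card_fiberwise (s := hfin.toFinset.filter (fun n => n % q ∈ W)) (t := W)
    (f := fun n => n % q) (fun n hn => (Finset.mem_filter.1 (Finset.mem_coe.1 hn)).2)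
  rw [h]
  push_cast
  refine Finset.sum_congr rfl fun r hr => ?_
  rw [key]
  congr 2
  ext n
  have hrq := Finset.mem_range.1 (hW hr)
  rw [Finset.mem_filter, Finset.mem_filter, Finset.mem_filter]
  have e : (n ≡ r [MOD q]) ↔ n % q = r := by
    unfold Nat.ModEq
    rw [Nat.mod_eq_of_lt hrq]
  rw [e]
  constructor
  · rintro ⟨⟨a, _⟩, b⟩; exact ⟨a, b⟩
  · rintro ⟨a, b⟩; exact ⟨⟨a, by rw [b]; exact hr⟩, b⟩

theorem LQ_union {Ψ : ℝ → ℝ} {q : ℕ} (hq : 0 < q) {t : ℝ} (W : Finset ℕ) (hW : W ⊆ Finset.range q)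
    (h : ∀ r ∈ W, LQ P (fun n => n ≡ r [MOD q]) t Ψ) : LQ P (fun n => n % q ∈ W) (W.card * t) Ψ := by
  intro K
  have h1 := tendsto_finsetSum W fun r hr => h r hr K
  rw [Finset.sum_const_zero] at h1
  refine h1.congr fun p => ?_
  rw [cZ_union P hq W hW, Finset.sum_sub_distrib, Finset.sum_const, nsmul_eq_mul, Finset.sum_div]
  ring

/-- the normalised number -/
noncomputable def aZ (Q : ℕ → Prop) (p : ℝ × ℤ) : ℝ := cZ P Q p / (p.1 * gd P p.1 p.2)

theorem aZ_congr {Q Q' : ℕ → Prop} (h : ∀ n, Q n ↔ Q' n) (p : ℝ × ℤ) : aZ P Q p = aZ P Q' p := by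
  have : Q = Q' := funext fun n => propext (h n)
  rw [this]

theorem LQ_of {Ψ : ℝ → ℝ} {Q Q' : ℕ → Prop} {t : ℝ} (h : LQ P Q' t Ψ)
    (hh : ∀ K ε : ℝ, 0 < ε → ∀ᶠ p in xg P K, |aZ P Q p - aZ P Q' p| ≤ ε) : LQ P Q t Ψ := by
  intro K
  have h1 : Tendsto (fun p => aZ P Q p - aZ P Q' p) (xg P K) (𝓝 0) := by
    rw [Metric.tendsto_nhds]
    intro ε hε
    filter_upwards [hh K (ε / 2) (by positivity)] with p hp
    rw [Real.dist_eq, sub_zero]
    linarith
  have h2 := h1.add (h K)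
  rw [add_zero] at h2
  refine h2.congr fun p => ?_
  unfold aZ
  ring

/-- one step to the right -/
theorem step_count (r q t : ℕ) {p : ℝ × ℤ} :
    cZ P (fun n => n ≡ r [MOD q]) p ≤ cZ P (fun n => n ≡ r + 1 [MOD q]) p +
      cZ P (fun n => n % 2 ^ t ∈ BR 1 t) p + (4 ^ t + 3) := by
  classical
  set A := {n : ℕ | 1 ≤ n ∧ (n : ℝ) ≤ p.1 ∧ n ≡ r [MOD q] ∧ HP P p.2 n} with hA
  set B := {n : ℕ | 1 ≤ n ∧ (n : ℝ) ≤ p.1 ∧ n ≡ r + 1 [MOD q] ∧ HP P p.2 n} with hB
  set D := {n : ℕ | 1 ≤ n ∧ (n : ℝ) ≤ p.1 ∧ n % 2 ^ t ∈ BR 1 t ∧ HP P p.2 n} with hD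
  have hBf : B.Finite := fin_cZ P _ p
  have hDf : D.Finite := fin_cZ P _ p
  set C := {n : ℕ | n + 1 ∈ B} with hC
  have hCf : C.Finite := Set.Finite.of_injOn (f := fun n => n + 1) (fun n hn => hn)
    (fun a _ b _ h => by simpa using h) hBf
  have hCB : C.ncard ≤ B.ncard := Set.ncard_le_ncard_of_injOn (fun n => n + 1) (fun n hn => hn)
    (fun a _ b _ h => by simpa using h) hBf
  set E : Set ℕ := ((Finset.range (4 ^ t + 2) ∪ {⌊p.1⌋₊} : Finset ℕ) : Set ℕ) with hE
  have hEc : E.ncard ≤ 4 ^ t + 3 := by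
    rw [hE, Set.ncard_coe_finset]
    refine (Finset.card_union_le _ _).trans ?_
    rw [Finset.card_range, Finset.card_singleton]
  have hEf : E.Finite := Finset.finite_toSet _
  have hsub : A ⊆ (C ∪ D) ∪ E := by
    rintro n ⟨h1, h2, h3, h5⟩
    by_cases hb : n % 2 ^ t ∈ BR 1 t
    · exact Or.inl (Or.inr ⟨h1, h2, hb, h5⟩)
    by_cases hn : n < 4 ^ t + 2
    · right
      rw [hE, Finset.mem_coe, Finset.mem_union, Finset.mem_range]
      exact Or.inl hn
    by_cases hx : ((n + 1 : ℕ) : ℝ) ≤ p.1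
    · left; left
      refine ⟨by omega, hx, Nat.ModEq.add_right 1 h3, ?_⟩
      have hG : Good 1 t n := by
        by_contra hc
        exact hb (mem_BR.2 hc)
      have h1t : 1 ≤ 4 ^ t := Nat.one_le_pow _ _ (by norm_num)
      exact (Good_HP P (by omega) (by omega) hG 1 le_rfl p.2).2 h5
    · right
      rw [hE, Finset.mem_coe, Finset.mem_union, Finset.mem_singleton]
      right
      push Not at hx
      have hp0 : 0 ≤ p.1 := (Nat.cast_nonneg n).trans h2
      symm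
      rw [Nat.floor_eq_iff hp0]
      refine ⟨h2, ?_⟩
      push_cast at hx
      exact hx
  have h6 : A.ncard ≤ B.ncard + D.ncard + (4 ^ t + 3) := by
    refine (Set.ncard_le_ncard hsub ((hCf.union hDf).union hEf)).trans ?_
    refine (Set.ncard_union_le _ _).trans ?_
    refine add_le_add ((Set.ncard_union_le _ _).trans ?_) hEc
    exact Nat.add_le_add_right hCB _
  unfold cZ
  exact_mod_cast h6

/-- the bad classes are rare in the level -/
theorem bad_small {Ψ : ℝ → ℝ} (hc : Continuous Ψ) (hp : ∀ t, Ψ (t + 1) = Ψ t) {M : ℝ} (hM : ∀ t, |Ψ t| ≤ M)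
    (hL : LQ P (fun _ => True) 1 Ψ) (h : ℕ) {ε : ℝ} (hε : 0 < ε) : ∃ t : ℕ, ∀ K : ℝ, ∀ᶠ p in xg P K,
      aZ P (fun n => n % 2 ^ t ∈ BR h t) p ≤ ε := by
  have hM0 : 0 ≤ M := (abs_nonneg _).trans (hM 0)
  obtain ⟨t, ht⟩ := BR_small h (ε := ε / (2 * (M + 1))) (by positivity)
  refine ⟨t, fun K => ?_⟩
  have h1 := LQ_union P (Ψ := Ψ) (q := 2 ^ t) (by positivity) (BR h t) (BR_sub h t)
    (fun r hr => class_law P hc hp hM hL (Finset.mem_range.1 (BR_sub h t hr))) K
  filter_upwards [h1.eventually (gt_mem_nhds (show (0 : ℝ) < ε / 2 by positivity))] with p hp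
  have h2 : ((BR h t).card : ℝ) * (1 / 2 ^ t) * Ψ (sv P p) ≤ ε / (2 * (M + 1)) * M := by
    have h3 : ((BR h t).card : ℝ) * (1 / 2 ^ t) ≤ ε / (2 * (M + 1)) := by
      rw [mul_one_div]; exact ht
    calc _ ≤ ((BR h t).card : ℝ) * (1 / 2 ^ t) * M :=
          mul_le_mul_of_nonneg_left ((le_abs_self _).trans (hM _)) (by positivity)
      _ ≤ _ := mul_le_mul_of_nonneg_right h3 hM0
  have h4 : ε / (2 * (M + 1)) * M ≤ ε / 2 := by
    rw [div_mul_eq_mul_div, div_le_div_iff₀ (by positivity) (by norm_num)]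
    nlinarith
  unfold aZ
  linarith

theorem const_small (c : ℝ) (K : ℝ) {ε : ℝ} (hε : 0 < ε) : ∀ᶠ p : ℝ × ℤ in xg P K, c / (p.1 * gd P p.1 p.2) ≤ ε := by
  have h1 : Tendsto (fun p : ℝ × ℤ => c / (p.1 * gd P p.1 p.2)) (xg P K) (𝓝 0) := by
    apply negl P K (f := fun _ => c)
    refine ⟨|c|, ?_⟩
    filter_upwards [xg_ge P K 1, (xg_log P K).eventually (eventually_gt_atTop 0)] with p h1 h2
    rw [le_div_iff₀ h2]
    exact mul_le_mul_of_nonneg_left (Real.log_le_self (by linarith)) (abs_nonneg _)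
  filter_upwards [h1.eventually (gt_mem_nhds hε)] with p hp
  exact hp.le

section
variable {Ψ : ℝ → ℝ} (hc : Continuous Ψ) (hp : ∀ t, Ψ (t + 1) = Ψ t) {M : ℝ} (hM : ∀ t, |Ψ t| ≤ M)
  (hL : LQ P (fun _ => True) 1 Ψ)
include hc hp hM hL

/-- neighbouring classes -/
theorem step_small (q : ℕ) {ε : ℝ} (hε : 0 < ε) (K : ℝ) : ∀ᶠ p in xg P K, ∀ r : ℕ,
    aZ P (fun n => n ≡ r [MOD q]) p ≤ aZ P (fun n => n ≡ r + 1 [MOD q]) p + ε := by
  obtain ⟨t, ht⟩ := bad_small P hc hp hM hL 1 (ε := ε / 2) (by positivity)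
  filter_upwards [ht K, const_small P (4 ^ t + 3) K (ε := ε / 2) (by positivity), gd_pos_ev P K, xg_ge P K 1]
    with p h1 h2 h3 h4 r
  have hx : 0 < p.1 * gd P p.1 p.2 := mul_pos (by linarith) h3
  have h5 := step_count P r q t (p := p)
  have h6 := div_le_div_of_nonneg_right h5 hx.le
  rw [add_div, add_div] at h6
  unfold aZ at h1 ⊢
  linarith

/-- ALL MODULI -/
theorem mod_law {q : ℕ} (hq : 1 ≤ q) (r : ℕ) : LQ P (fun n => n ≡ r [MOD q]) (1 / q) Ψ := by
  classical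
  have hq0 : (0 : ℝ) < q := by exact_mod_cast hq
  have hall : ∀ K ε : ℝ, 0 < ε → ∀ᶠ p in xg P K,
      |aZ P (fun n => n ≡ r [MOD q]) p - aZ P (fun _ => True) p / q| ≤ ε := by
    intro K ε hε
    filter_upwards [step_small P hc hp hM hL q (ε := ε / q) (by positivity) K] with p h1
    set a : ℕ → ℝ := fun r => aZ P (fun n => n ≡ r [MOD q]) p with ha
    have h1' : ∀ r, a r ≤ a (r + 1) + ε / q := h1
    have h2 : ∀ j r, a r ≤ a (r + j) + j * (ε / q) := by
      intro j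
      induction j with
      | zero => intro r; simp
      | succ j ih =>
        intro r
        have h3 := ih r
        have h4 := h1' (r + j)
        push_cast
        rw [← add_assoc]
        linarith
    have hcong : ∀ r r', r ≡ r' [MOD q] → a r = a r' := fun r r' h =>
      aZ_congr P (fun n => ⟨fun g => g.trans h, fun g => g.trans h.symm⟩) p
    have h5 : ∀ r r', a r ≤ a r' + ε := by
      intro r r'
      -- `j` with `r + j ≡ r'`
      obtain ⟨j, hj, hjr⟩ : ∃ j : ℕ, j < q ∧ r + j ≡ r' [MOD q] := by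
        refine ⟨(r' + (q - r % q)) % q, Nat.mod_lt _ hq, ?_⟩
        have h6 : r % q < q := Nat.mod_lt _ hq
        have h7 : r + (r' + (q - r % q)) % q ≡ r % q + (r' + (q - r % q)) [MOD q] :=
          Nat.ModEq.add (Nat.mod_modEq r q).symm (Nat.mod_modEq _ q)
        refine h7.trans ?_
        have e : r % q + (r' + (q - r % q)) = r' + q := by omega
        rw [e]
        unfold Nat.ModEq
        rw [Nat.add_mod_right]
      have h8 := h2 j r
      rw [hcong _ _ hjr] at h8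
      have h9 : (j : ℝ) * (ε / q) ≤ q * (ε / q) := mul_le_mul_of_nonneg_right (by exact_mod_cast hj.le) (by positivity)
      rw [mul_div_cancel₀ _ hq0.ne'] at h9
      linarith
    have h6 : aZ P (fun _ => True) p = ∑ r' ∈ Finset.range q, a r' := by
      have e1 : aZ P (fun _ => True) p = aZ P (fun n => n % q ∈ Finset.range q) p :=
        aZ_congr P (fun n => ⟨fun _ => Finset.mem_range.2 (Nat.mod_lt _ hq), fun _ => trivial⟩) p
      rw [e1, ha]
      unfold aZ
      rw [cZ_union P hq (Finset.range q) subset_rfl, Finset.sum_div]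
    have h7 : ∑ r' ∈ Finset.range q, a r' ≤ q * (a r + ε) := by
      have := Finset.sum_le_sum (s := Finset.range q) (fun r' _ => h5 r' r)
      rwa [Finset.sum_const, Finset.card_range, nsmul_eq_mul] at this
    have h8 : q * (a r - ε) ≤ ∑ r' ∈ Finset.range q, a r' := by
      have : ∑ r' ∈ Finset.range q, (a r - ε) ≤ ∑ r' ∈ Finset.range q, a r' :=
        Finset.sum_le_sum (fun r' _ => by linarith [h5 r r'])
      rwa [Finset.sum_const, Finset.card_range, nsmul_eq_mul] at this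
    rw [h6, abs_le]
    constructor
    · have : (∑ r' ∈ Finset.range q, a r') / q ≤ a r + ε := by rw [div_le_iff₀ hq0]; linarith
      linarith
    · have : a r - ε ≤ (∑ r' ∈ Finset.range q, a r') / q := by rw [le_div_iff₀ hq0]; linarith
      linarith
  intro K
  have h1 : Tendsto (fun p => aZ P (fun n => n ≡ r [MOD q]) p - aZ P (fun _ => True) p / q) (xg P K) (𝓝 0) := by
    rw [Metric.tendsto_nhds]
    intro ε hε
    filter_upwards [hall K (ε / 2) (by positivity)] with p hp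
    rw [Real.dist_eq, sub_zero]
    linarith
  have h2 := h1.add ((hL K).div_const (q : ℝ))
  rw [zero_div, add_zero] at h2
  refine h2.congr fun p => ?_
  unfold aZ
  field_simp
  ring

/-- ALL MODULI AND RUNS -/
theorem run_law {q : ℕ} (hq : 1 ≤ q) (r h : ℕ) :
    LQ P (fun n => n ≡ r [MOD q] ∧ ∀ i ≤ h, ∀ j, HP P j (n + i) ↔ HP P j n) (1 / q) Ψ := by
  refine LQ_of P (mod_law P hc hp hM hL hq r) fun K ε hε => ?_
  obtain ⟨t, ht⟩ := bad_small P hc hp hM hL h (ε := ε / 2) (by positivity)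
  filter_upwards [ht K, const_small P (4 ^ t + h + 1) K (ε := ε / 2) (by positivity), gd_pos_ev P K, xg_ge P K 1]
    with p h1 h2 h3 h4
  have hx : 0 < p.1 * gd P p.1 p.2 := mul_pos (by linarith) h3
  have h5 : cZ P (fun n => n ≡ r [MOD q] ∧ ∀ i ≤ h, ∀ j, HP P j (n + i) ↔ HP P j n) p ≤
      cZ P (fun n => n ≡ r [MOD q]) p := cZ_mono P (fun n hn => hn.1) p
  have h6 : cZ P (fun n => n ≡ r [MOD q]) p ≤
      cZ P (fun n => n ≡ r [MOD q] ∧ ∀ i ≤ h, ∀ j, HP P j (n + i) ↔ HP P j n) p +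
      cZ P (fun n => n % 2 ^ t ∈ BR h t) p + (4 ^ t + h + 1) := by
    set A := {n : ℕ | 1 ≤ n ∧ (n : ℝ) ≤ p.1 ∧ n ≡ r [MOD q] ∧ HP P p.2 n} with hA
    set B := {n : ℕ | 1 ≤ n ∧ (n : ℝ) ≤ p.1 ∧ (n ≡ r [MOD q] ∧ ∀ i ≤ h, ∀ j, HP P j (n + i) ↔ HP P j n) ∧
      HP P p.2 n} with hB
    set D := {n : ℕ | 1 ≤ n ∧ (n : ℝ) ≤ p.1 ∧ n % 2 ^ t ∈ BR h t ∧ HP P p.2 n} with hD
    have hBf : B.Finite := fin_cZ P _ p
    have hDf : D.Finite := fin_cZ P _ p
    set E : Set ℕ := ((Finset.range (4 ^ t + h + 1) : Finset ℕ) : Set ℕ) with hE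
    have hEf : E.Finite := Finset.finite_toSet _
    have hEc : E.ncard = 4 ^ t + h + 1 := by rw [hE, Set.ncard_coe_finset, Finset.card_range]
    have hsub : A ⊆ (B ∪ D) ∪ E := by
      rintro n ⟨g1, g2, g3, g5⟩
      by_cases hb : n % 2 ^ t ∈ BR h t
      · exact Or.inl (Or.inr ⟨g1, g2, hb, g5⟩)
      by_cases hn : n < 4 ^ t + h + 1
      · right
        rw [hE, Finset.mem_coe, Finset.mem_range]
        exact hn
      · left; left
        have hG : Good h t n := by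
          by_contra hc
          exact hb (mem_BR.2 hc)
        have h1t : 1 ≤ 4 ^ t := Nat.one_le_pow _ _ (by norm_num)
        exact ⟨g1, g2, ⟨g3, Good_HP P (by omega) (by omega) hG⟩, g5⟩
    have h6 : A.ncard ≤ B.ncard + D.ncard + (4 ^ t + h + 1) := by
      refine (Set.ncard_le_ncard hsub ((hBf.union hDf).union hEf)).trans ?_
      refine (Set.ncard_union_le _ _).trans ?_
      exact add_le_add (Set.ncard_union_le _ _) hEc.le
    unfold cZ
    exact_mod_cast h6
  have h7 := div_le_div_of_nonneg_right h5 hx.le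
  have h8 := div_le_div_of_nonneg_right h6 hx.le
  rw [add_div, add_div] at h8
  unfold aZ at h1 ⊢
  rw [abs_le]
  constructor <;> linarith

end

end Pool.Agent.K3h31.CL
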