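import Pool.Agent.K3h31.CL.E
import Pool.Agent.R468.MF.FinH

/-!
Residue classes, part 6: the local limit law of the heights of the odd integers in residue classes, with
runs.
-/

set_option autoImplicit false

namespace Pool.Agent.K3h31.CL

open Filter Topology Finset
open Pool.Agent.R468.GL hiding ph
open Pool.Agent.R468.LL (lam lam_eq lam_pos lam_lt mu_lam)
open Pool.Agent.H499R2.LT
open Pool.Agent.H499R2.ND (Td Tn Dn Bas IsHt)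
open Pool.Agent.H499R2.HL

theorem HP_PO (k n : ℕ) : HP PO (k : ℤ) n ↔ ∃ t, H t n ∧ odn t n = k := by
  unfold HP gs
  have h5 : (PO.α : ℤ) = 1 := rfl
  have h6 : (PO.β : ℤ) = 0 := rfl
  simp only [h5, h6, one_mul, zero_mul, add_zero, Nat.cast_inj]

theorem ht_HP {m : ℕ} (hm : m % 2 = 1) (h1 : m ≠ 1) (k : ℕ) : IsHt m k ↔ HP PO (k : ℤ) m := by
  rw [HP_PO]
  exact ht_H hm h1 k

/-- the number of the `m ≤ x` in the class of `r` modulo `2 q` such that `m, m + 2, ..., m + 2 h` all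
have the height `k` -/
noncomputable def sH (q r h : ℕ) (p : ℝ × ℤ) : ℝ :=
  ({m : ℕ | (m : ℝ) ≤ p.1 ∧ m ≡ r [MOD 2 * q] ∧ ∀ i ≤ h, IsHt (m + 2 * i) p.2.toNat}.ncard : ℝ)

theorem fin_sH (q r h : ℕ) (p : ℝ × ℤ) :
    {m : ℕ | (m : ℝ) ≤ p.1 ∧ m ≡ r [MOD 2 * q] ∧ ∀ i ≤ h, IsHt (m + 2 * i) p.2.toNat}.Finite := by
  refine (Set.finite_Iic ⌊p.1⌋₊).subset fun n hn => ?_
  exact Nat.le_floor hn.1

theorem odd_of_mod {q r m : ℕ} (hr : r % 2 = 1) (hm : m ≡ r [MOD 2 * q]) : m % 2 = 1 := by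
  have h1 : m ≡ r [MOD 2] := Nat.ModEq.of_mul_right q hm
  rw [← hr]
  exact h1

theorem sH_le {q r h : ℕ} (hr : r % 2 = 1) {p : ℝ × ℤ} (hp : 0 ≤ p.2) :
    sH q r h p ≤ cZ PO (fun n => n ≡ r [MOD 2 * q]) p + 1 := by
  have hsub : {m : ℕ | (m : ℝ) ≤ p.1 ∧ m ≡ r [MOD 2 * q] ∧ ∀ i ≤ h, IsHt (m + 2 * i) p.2.toNat} ⊆
      insert 1 {n : ℕ | 1 ≤ n ∧ (n : ℝ) ≤ p.1 ∧ n ≡ r [MOD 2 * q] ∧ HP PO p.2 n} := by
    rintro m ⟨h1, h2, h3⟩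
    by_cases hm : m = 1
    · exact Or.inl hm
    · right
      have h4 := odd_of_mod hr h2
      have h5 := h3 0 (Nat.zero_le _)
      rw [mul_zero, add_zero] at h5
      have h6 := (ht_HP h4 hm _).1 h5
      rw [Int.toNat_of_nonneg hp] at h6
      exact ⟨by omega, h1, h2, h6⟩
  have h1 := (Set.ncard_le_ncard hsub ((fin_cZ PO (fun n => n ≡ r [MOD 2 * q]) p).insert 1)).trans
    (Set.ncard_insert_le _ _)
  unfold sH cZ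
  exact_mod_cast h1

theorem le_sH {q r h : ℕ} (hr : r % 2 = 1) {p : ℝ × ℤ} (hp : 0 ≤ p.2) :
    cZ PO (fun n => n ≡ r [MOD 2 * q] ∧ ∀ i ≤ 2 * h, ∀ j, HP PO j (n + i) ↔ HP PO j n) p ≤ sH q r h p + 1 := by
  have hsub : {n : ℕ | 1 ≤ n ∧ (n : ℝ) ≤ p.1 ∧ (n ≡ r [MOD 2 * q] ∧
      ∀ i ≤ 2 * h, ∀ j, HP PO j (n + i) ↔ HP PO j n) ∧ HP PO p.2 n} ⊆
      insert 1 {m : ℕ | (m : ℝ) ≤ p.1 ∧ m ≡ r [MOD 2 * q] ∧ ∀ i ≤ h, IsHt (m + 2 * i) p.2.toNat} := by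
    rintro m ⟨h0, h1, ⟨h2, h3⟩, h4⟩
    by_cases hm : m = 1
    · exact Or.inl hm
    · right
      have h5 := odd_of_mod hr h2
      refine ⟨h1, h2, fun i hi => ?_⟩
      rw [ht_HP (by omega) (by omega), Int.toNat_of_nonneg hp]
      exact (h3 (2 * i) (by omega) p.2).2 h4
  have h1 := (Set.ncard_le_ncard hsub ((fin_sH q r h p).insert 1)).trans (Set.ncard_insert_le _ _)
  unfold sH cZ
  exact_mod_cast h1

theorem heights {Ψ : ℝ → ℝ} (hc : Continuous Ψ) (hp : ∀ t, Ψ (t + 1) = Ψ t) {M : ℝ} (hM : ∀ t, |Ψ t| ≤ M)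
    (hL : LQ PO (fun _ => True) 1 Ψ) {q r : ℕ} (hq : 1 ≤ q) (hr : r % 2 = 1) (h : ℕ) (K : ℝ) :
    Tendsto (fun p : ℝ × ℤ => sH q r h p / (p.1 * gd PO p.1 p.2) - 1 / (2 * q : ℕ) * Ψ (sv PO p)) (xg PO K)
      (𝓝 0) := by
  have h1 := run_law PO hc hp hM hL (q := 2 * q) (by omega) r (2 * h) K
  have h2 := mod_law PO hc hp hM hL (q := 2 * q) (by omega) r K
  have h3 : Tendsto (fun p : ℝ × ℤ => 1 / (p.1 * gd PO p.1 p.2)) (xg PO K) (𝓝 0) := by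
    apply negl PO K (f := fun _ => 1)
    refine ⟨1, ?_⟩
    filter_upwards [xg_ge PO K 1, (xg_log PO K).eventually (eventually_gt_atTop 0)] with p h1 h2
    rw [le_div_iff₀ h2, abs_one, one_mul, one_mul]
    exact Real.log_le_self (by linarith)
  have h4 := h1.sub h3
  have h5 := h2.add h3
  rw [sub_zero] at h4
  rw [add_zero] at h5
  refine tendsto_of_tendsto_of_tendsto_of_le_of_le' h4 h5 ?_ ?_
  · filter_upwards [xg_snd_ge PO K 0, gd_pos_ev PO K, xg_ge PO K 1] with p g1 g2 g3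
    have hx : 0 < p.1 * gd PO p.1 p.2 := mul_pos (by linarith) g2
    have g4 := div_le_div_of_nonneg_right (le_sH (q := q) (h := h) hr g1) hx.le
    rw [add_div] at g4
    linarith
  · filter_upwards [xg_snd_ge PO K 0, gd_pos_ev PO K, xg_ge PO K 1] with p g1 g2 g3
    have hx : 0 < p.1 * gd PO p.1 p.2 := mul_pos (by linarith) g2
    have g4 := div_le_div_of_nonneg_right (sH_le (q := q) (h := h) hr g1) hx.le
    rw [add_div] at g4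
    linarith

/-- from the filter to elementary terms -/
theorem xg_elem {Φ : ℝ × ℤ → Prop} {K : ℝ} (h : ∀ᶠ p in xg PO (K * lam), Φ p) : ∃ X₀ : ℝ, 2 ≤ X₀ ∧ ∀ x : ℝ, X₀ ≤ x →
    ∀ k : ℕ, |(k : ℝ) - 2 / Real.log (16 / 9) * Real.log x| ≤ K * Real.sqrt (Real.log x) →
      Φ (x, ((k : ℕ) : ℤ)) := by
  have hlam := lam_pos
  unfold xg at h
  rw [Filter.eventually_inf_principal, Filter.eventually_comap] at h
  obtain ⟨X₀, hX₀⟩ := eventually_atTop.1 h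
  refine ⟨max X₀ 2, le_max_right _ _, fun x hx k hk => ?_⟩
  rw [mu_lam] at hk
  have hmem : |(((k : ℕ) : ℤ) : ℝ) * lam - A0 PO * Real.log x| ≤ K * lam * Real.sqrt (Real.log x) := by
    have e : (((k : ℕ) : ℤ) : ℝ) * lam - A0 PO * Real.log x =
        ((k : ℝ) - 1 / lam * Real.log x) * lam := by
      rw [A0_PO]
      push_cast
      field_simp
    rw [e, abs_mul, abs_of_pos hlam]
    calc _ ≤ K * Real.sqrt (Real.log x) * lam := mul_le_mul_of_nonneg_right hk hlam.le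
      _ = _ := by ring
  exact hX₀ x ((le_max_left _ _).trans hx) (x, ((k : ℕ) : ℤ)) rfl hmem

theorem gd_elem (x : ℝ) (k : ℕ) : gd PO x ((k : ℕ) : ℤ) = Pool.Agent.R468.LL.gd x k := by
  unfold gd Pool.Agent.R468.LL.gd
  rw [A0_PO, ww_PO, mu_lam]
  push_cast
  rfl

theorem sv_elem {x : ℝ} (hx : 0 < x) (k : ℕ) : sv PO (x, ((k : ℕ) : ℤ)) = Real.logb 2 (3 ^ k * x) := by
  unfold sv Real.logb
  rw [ww_PO, kap_PO, Real.log_mul (by positivity) hx.ne', Real.log_pow]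
  push_cast
  ring

theorem half_elem {N x g t u : ℝ} : N / (x / 2 * g) - 2 * t * u = 2 * (N / (x * g) - t * u) := by
  have e5 : x / 2 * g = x * g / 2 := by ring
  rw [e5, div_div_eq_mul_div]
  ring

/-- THE LOCAL LIMIT LAW OF THE HEIGHTS IN RESIDUE CLASSES, WITH RUNS -/
theorem heights_elem {Ψ : ℝ → ℝ} (hc : Continuous Ψ) (hp : ∀ t, Ψ (t + 1) = Ψ t) {M : ℝ} (hM : ∀ t, |Ψ t| ≤ M)
    (hL : LQ PO (fun _ => True) 1 Ψ) (q r h : ℕ) (hq : 1 ≤ q) (hr : r % 2 = 1) (K ε : ℝ) (hε : 0 < ε) :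
    ∃ X₀ : ℝ, ∀ x : ℝ, X₀ ≤ x → ∀ k : ℕ,
      |(k : ℝ) - 2 / Real.log (16 / 9) * Real.log x| ≤ K * Real.sqrt (Real.log x) →
      |({m : ℕ | (m : ℝ) ≤ x ∧ m ≡ r [MOD 2 * q] ∧ ∀ i ≤ h, IsHt (m + 2 * i) k}.ncard : ℝ) /
        (x / 2 * Pool.Agent.R468.LL.gd x k) - 1 / q * Ψ (Real.logb 2 (3 ^ k * x))| ≤ ε := by
  have hq0 : (0 : ℝ) < q := by exact_mod_cast hq
  obtain ⟨X₀, hX2, hX₀⟩ := xg_elem ((Metric.tendsto_nhds.1 (heights hc hp hM hL hq hr h (K * lam))) (ε / 2)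
    (by positivity))
  refine ⟨X₀, fun x hx k hk => ?_⟩
  have hx0 : 0 < x := by linarith
  have k1 := hX₀ x hx k hk
  simp only at k1
  have e1 : sH q r h (x, ((k : ℕ) : ℤ)) =
      ({m : ℕ | (m : ℝ) ≤ x ∧ m ≡ r [MOD 2 * q] ∧ ∀ i ≤ h, IsHt (m + 2 * i) k}.ncard : ℝ) := by
    unfold sH
    simp only [Int.toNat_natCast]
  rw [Real.dist_eq, sub_zero, e1, gd_elem, sv_elem hx0] at k1
  have e4 : (1 : ℝ) / q = 2 * (1 / (2 * q : ℕ)) := by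
    push_cast
    field_simp
  rw [e4, half_elem, abs_mul, abs_two]
  linarith

/-- other properties of odd integers -/
theorem ht_elem {ι : Type*} (Q : ι → ℕ → Prop) (hQ : ∀ i n, Q i n → n % 2 = 1) (t : ι → ℝ) (Ψ : ℝ → ℝ)
    (h : ∀ K ε : ℝ, 0 < ε → ∀ᶠ p in xg PO K, ∀ i, |aZ PO (Q i) p - t i * Ψ (sv PO p)| ≤ ε) (K ε : ℝ) (hε : 0 < ε) :
    ∃ X₀ : ℝ, ∀ x : ℝ, X₀ ≤ x → ∀ k : ℕ,
      |(k : ℝ) - 2 / Real.log (16 / 9) * Real.log x| ≤ K * Real.sqrt (Real.log x) → ∀ i,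
      |({m : ℕ | 1 ≤ m ∧ (m : ℝ) ≤ x ∧ Q i m ∧ IsHt m k}.ncard : ℝ) /
        (x / 2 * Pool.Agent.R468.LL.gd x k) - 2 * t i * Ψ (Real.logb 2 (3 ^ k * x))| ≤ ε := by
  obtain ⟨X₀, hX2, hX₀⟩ := xg_elem (((h (K * lam) (ε / 4) (by positivity)).and
    (const_small PO 1 (K * lam) (ε := ε / 4) (by positivity))).and (gd_pos_ev PO (K * lam)))
  refine ⟨X₀, fun x hx k hk i => ?_⟩
  have hx0 : 0 < x := by linarith
  obtain ⟨⟨k1, k2⟩, k3⟩ := hX₀ x hx k hk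
  have k1 := k1 i
  unfold aZ at k1
  simp only at k1 k2 k3
  have hden : 0 < x * gd PO x ((k : ℕ) : ℤ) := mul_pos hx0 k3
  -- the two sets differ at most by the integer one
  set A := {m : ℕ | 1 ≤ m ∧ (m : ℝ) ≤ x ∧ Q i m ∧ IsHt m k} with hA
  have hAf : A.Finite := (Set.finite_Iic ⌊x⌋₊).subset fun n hn => Nat.le_floor hn.2.1
  have c1 : (A.ncard : ℝ) ≤ cZ PO (Q i) (x, ((k : ℕ) : ℤ)) + 1 := by
    have hsub : A ⊆ insert 1 {n : ℕ | 1 ≤ n ∧ (n : ℝ) ≤ x ∧ Q i n ∧ HP PO ((k : ℕ) : ℤ) n} := by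
      rintro m ⟨h0, h1, h2, h3⟩
      by_cases hm : m = 1
      · exact Or.inl hm
      · right
        exact ⟨h0, h1, h2, (ht_HP (hQ i m h2) hm k).1 h3⟩
    have h1 := (Set.ncard_le_ncard hsub ((fin_cZ PO (Q i) (x, ((k : ℕ) : ℤ))).insert 1)).trans
      (Set.ncard_insert_le _ _)
    unfold cZ
    exact_mod_cast h1
  have c2 : cZ PO (Q i) (x, ((k : ℕ) : ℤ)) ≤ A.ncard + 1 := by
    have hsub : {n : ℕ | 1 ≤ n ∧ (n : ℝ) ≤ x ∧ Q i n ∧ HP PO ((k : ℕ) : ℤ) n} ⊆ insert 1 A := by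
      rintro m ⟨h0, h1, h2, h3⟩
      by_cases hm : m = 1
      · exact Or.inl hm
      · right
        exact ⟨h0, h1, h2, (ht_HP (hQ i m h2) hm k).2 h3⟩
    have h1 := (Set.ncard_le_ncard hsub (hAf.insert 1)).trans (Set.ncard_insert_le _ _)
    unfold cZ
    exact_mod_cast h1
  have d1 := div_le_div_of_nonneg_right c1 hden.le
  have d2 := div_le_div_of_nonneg_right c2 hden.le
  rw [add_div] at d1 d2
  have k1' := abs_le.1 k1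
  rw [← gd_elem, ← sv_elem hx0, half_elem, abs_mul, abs_two]
  have k4 : |(A.ncard : ℝ) / (x * gd PO x ((k : ℕ) : ℤ)) - t i * Ψ (sv PO (x, ((k : ℕ) : ℤ)))| ≤ ε / 2 := by
    rw [abs_le]
    constructor <;> linarith [k1'.1, k1'.2]
  linarith

/-- the basic data -/
theorem base_H : ∃ (δ : ℝ) (Ψ : ℝ → ℝ) (M : ℝ), 0 < δ ∧ δ ≤ 1 ∧
    (δ = 1 ↔ ∀ n : ℕ, 1 ≤ n → Bas n) ∧ Dn Bas δ ∧
    Continuous Ψ ∧ (∀ t, Ψ (t + 1) = Ψ t) ∧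
    (∀ t, δ * Real.log 2 ≤ Ψ t ∧ Ψ t ≤ 2 * δ * Real.log 2) ∧
    (∫ t in (0 : ℝ)..1, Ψ t = δ) ∧ (∀ t, |Ψ t| ≤ M) ∧ LQ PO (fun _ => True) 1 Ψ := by
  obtain ⟨δ, Ψ, M, h0, h1, h2, h3, h4, h5, h6, h7, h8⟩ := base PO
  obtain ⟨g0, g1, g2, g3⟩ := dens_one h1
  have hl2 : 0 < Real.log 2 := Real.log_pos (by norm_num)
  have hlo : ∀ t, δ * Real.log 2 ≤ Ψ t ∧ Ψ t ≤ 2 * δ * Real.log 2 := by
    intro t
    have h9 := h4 t
    rw [ww_PO, qr_PO] at h9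
    have e1 : δ * (Real.log 2 * (1 / 2) / (1 - 1 / 2)) = δ * Real.log 2 := by ring
    have e2 : δ * (Real.log 2 / (1 - 1 / 2)) = 2 * δ * Real.log 2 := by ring
    rw [e1, e2] at h9
    exact h9
  have hM : ∀ t, |Ψ t| ≤ M := fun t => by
    rw [abs_of_nonneg ((by positivity : 0 ≤ δ * Real.log 2).trans (hlo t).1)]
    exact h6 t
  exact ⟨δ, Ψ, M, g0, g1, g2, g3, h2, h3, hlo, h5, hM, h8⟩

/-- THE LOCAL LIMIT LAW OF THE HEIGHTS IN RESIDUE CLASSES, WITH RUNS -/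
theorem main_H : ∃ (δ : ℝ) (Ψ : ℝ → ℝ), 0 < δ ∧ δ ≤ 1 ∧
    (δ = 1 ↔ ∀ n : ℕ, 1 ≤ n → Bas n) ∧ Dn Bas δ ∧
    Continuous Ψ ∧ (∀ t, Ψ (t + 1) = Ψ t) ∧
    (∀ t, δ * Real.log 2 ≤ Ψ t ∧ Ψ t ≤ 2 * δ * Real.log 2) ∧
    (∫ t in (0 : ℝ)..1, Ψ t = δ) ∧
    ∀ (q r h : ℕ), 1 ≤ q → r % 2 = 1 → ∀ K ε : ℝ, 0 < ε → ∃ X₀ : ℝ, ∀ x : ℝ, X₀ ≤ x → ∀ k : ℕ,
      |(k : ℝ) - 2 / Real.log (16 / 9) * Real.log x| ≤ K * Real.sqrt (Real.log x) →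
      |({m : ℕ | (m : ℝ) ≤ x ∧ m ≡ r [MOD 2 * q] ∧ ∀ i ≤ h, IsHt (m + 2 * i) k}.ncard : ℝ) /
        (x / 2 * Pool.Agent.R468.LL.gd x k) - 1 / q * Ψ (Real.logb 2 (3 ^ k * x))| ≤ ε := by
  obtain ⟨δ, Ψ, M, g0, g1, g2, g3, h2, h3, hlo, h5, hM, h8⟩ := base_H
  exact ⟨δ, Ψ, g0, g1, g2, g3, h2, h3, hlo, h5, fun q r h hq hr K ε hε =>
    heights_elem h2 h3 hM h8 q r h hq hr K ε hε⟩

end Pool.Agent.K3h31.CL
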