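import Pool.Agent.K3h31.CL.E
import Pool.Agent.R468.RC.L

/-!
Residue classes for the statistics `α (odd terms) + β (steps)`, part 7: trajectories that avoid the
atypical elements; uniform upper bounds in the classes modulo `2^s`, `s ≤ √(log X) / 2`.
-/

set_option autoImplicit false

namespace Pool.Agent.K3h31.CL

open Filter Topology Finset
open Pool.Agent.R468.GL hiding ph
open Pool.Agent.R468.LL (lam lam_eq lam_pos lam_lt)
open Pool.Agent.H499R2.LT
open Pool.Agent.H499R2.ND (Td Tn Dn)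
open Pool.Agent.H499R2.HL
open Pool.Agent.R468.RC (mp mp_lo mp_hi it_pos typ log_m Dv Reg Reg_shift chain reg_up reg_below reg_lo Tn_le
  it_one odn_succ Yk Yk_size odn_le H_pos)

variable (P : Par)

section
variable {η y : ℝ} (hη : 0 < η) (hη1 : η ≤ 1 / 1000) (hy1 : 400 ≤ Real.log y) (hy2 : 5 ≤ η * Real.log y) (hy0 : 1 ≤ y)
include hη hη1 hy1 hy2 hy0

/-- the number of odd terms is at least almost one half of the number of steps -/
theorem reg_odn : ∀ j v : ℕ, y ≤ v → Reg η y v j → (j : ℝ) - 2 * (odn j v : ℝ) ≤ 15 * η * Real.log v := by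
  intro j
  induction j using Nat.strong_induction_on with
  | _ j ih =>
    intro v hv hR
    have hv1 : 1 ≤ v := by
      have : (1 : ℝ) ≤ v := hy0.trans hv
      exact_mod_cast this
    have hlv : 400 ≤ Real.log v := hy1.trans (Real.log_le_log (by linarith) hv)
    have hl2 := Real.log_two_gt_d9
    rcases Nat.eq_zero_or_pos j with h0 | h0
    · subst h0
      have h1 : (0 : ℝ) ≤ (odn 0 v : ℝ) := Nat.cast_nonneg _
      have h2 : 0 ≤ 15 * η * Real.log v := by positivity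
      push_cast
      linarith
    have hD : ((v : ℕ) : ℤ) ∉ Dv η := (hR 0 h0).2
    have hm : (Nat.log 2 v : ℝ) ≤ 1.5 * Real.log v := by
      have h1 := (log_m hv1).1
      nlinarith
    have hηm : η * (Nat.log 2 v : ℝ) ≤ 1.5 * η * Real.log v := by
      calc η * (Nat.log 2 v : ℝ) ≤ η * (1.5 * Real.log v) := mul_le_mul_of_nonneg_left hm hη.le
        _ = _ := by ring
    by_cases hj : 2 * j ≤ Nat.log 2 v
    · have h1 := (abs_le.1 (typ hv1 hD hj)).1
      have h2 : 0 ≤ η * Real.log v := by positivity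
      linarith
    · obtain ⟨g1, g2, _⟩ := chain hη hη1 hy1 hy2 hy0 hv hD
      set i := Nat.log 2 v / 2 with hi
      have hij : i < j := by omega
      have h3 := (hR i hij).1
      have h4 := ih (j - i) (by omega) (Tn^[i] v) h3 (Reg_shift hR i)
      have h5 := (abs_le.1 (typ hv1 hD (i := i) (by omega))).1
      have h6 : odn j v = odn i v + odn (j - i) (Tn^[i] v) := by
        conv_lhs => rw [← Nat.add_sub_cancel' hij.le]
        exact odn_add i (j - i) v
      rw [h6]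
      rw [Nat.cast_sub hij.le] at h4
      push_cast
      have h7 : 15 * η * Real.log (Tn^[i] v : ℕ) ≤ 15 * η * (0.9 * Real.log v) :=
        mul_le_mul_of_nonneg_left g2 (by positivity)
      linarith

end

theorem it_le_odn (i : ℕ) : ∀ v : ℕ, 1 ≤ v → Tn^[i] v ≤ 2 ^ odn i v * v := by
  induction i with
  | zero => intro v _; simp [odn]
  | succ i ih =>
    intro v hv
    rw [Function.iterate_succ_apply, odn_succ]
    have h1 : 1 ≤ Tn v := it_pos hv 1
    refine (ih (Tn v) h1).trans ?_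
    rcases Nat.mod_two_eq_zero_or_one v with h | h
    · have h2 : Tn v ≤ v := by
        unfold Tn
        rw [if_pos h]
        omega
      rw [h, zero_add]
      exact Nat.mul_le_mul_left _ h2
    · have h2 : Tn v ≤ 2 * v := Tn_le v hv
      rw [h, pow_add, pow_one]
      calc 2 ^ odn i (Tn v) * Tn v ≤ 2 ^ odn i (Tn v) * (2 * v) := Nat.mul_le_mul_left _ h2
        _ = 2 * 2 ^ odn i (Tn v) * v := by ring

theorem odn_mono {a b : ℕ} (h : a ≤ b) (v : ℕ) : odn a v ≤ odn b v := by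
  obtain ⟨c, rfl⟩ := Nat.exists_eq_add_of_le h
  rw [odn_add]
  exact Nat.le_add_right _ _

theorem gs_ge (s r : ℕ) : ((P.α : ℝ) + P.β) * (odn s r : ℝ) ≤ (gs P s r : ℝ) := by
  have h1 : (odn s r : ℝ) ≤ s := by exact_mod_cast odn_le s r
  have h2 : (0 : ℝ) ≤ P.β := Nat.cast_nonneg _
  unfold gs
  push_cast
  nlinarith

/-- LATE TIMES: in the levels of the window a trajectory that avoids the atypical elements does not come
back to its start -/
theorem far (K : ℝ) : ∃ x0 : ℝ, 2 ≤ x0 ∧ ∀ x : ℝ, x0 ≤ x → ∀ (n : ℕ) (l : ℤ), (n : ℝ) ≤ x → x / Real.log x ≤ n →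
    |(l : ℝ) * lam - A0 P * Real.log x| ≤ K * Real.sqrt (Real.log x) → HP P l n →
    ((n : ℕ) : ℤ) ∉ Pool.Agent.R344.TH.HY 1 (Dv (1 / 1000)) (Real.exp (Real.sqrt (Real.log x))) →
    ∀ j : ℕ, Nat.log 2 n ≤ 2 * j + 1 → Tn^[j] n < n := by
  -- large logarithms
  have hev : ∀ᶠ L : ℝ in atTop, 10 ^ 8 ≤ L ∧ Real.log L + (|K| + 2) * Real.sqrt L ≤ L / 1000 := by
    have h1 : Tendsto (fun L : ℝ => Real.log L / L) atTop (𝓝 0) := by
      have := Real.isLittleO_log_id_atTop.tendsto_div_nhds_zero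
      exact this
    have h2 : Tendsto (fun L : ℝ => (|K| + 2) * (Real.sqrt L / L)) atTop (𝓝 0) := by
      have h3 : Tendsto (fun L : ℝ => (|K| + 2) * (1 / Real.sqrt L)) atTop (𝓝 ((|K| + 2) * 0)) :=
        (tendsto_const_nhds.div_atTop Real.tendsto_sqrt_atTop).const_mul _
      rw [mul_zero] at h3
      refine h3.congr' ?_
      filter_upwards [eventually_gt_atTop 0] with L hL
      have := Real.mul_self_sqrt hL.le
      have hs := Real.sqrt_pos.2 hL
      congr 1
      rw [div_eq_div_iff hs.ne' hL.ne', one_mul, this]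
    have h4 := h1.add h2
    rw [add_zero] at h4
    filter_upwards [h4.eventually (gt_mem_nhds (show (0 : ℝ) < 1 / 1000 by norm_num)), eventually_ge_atTop (10 ^ 8 : ℝ)]
      with L h5 h6
    refine ⟨h6, ?_⟩
    have hL : 0 < L := by linarith [show (0 : ℝ) < 10 ^ 8 by norm_num]
    have e : Real.log L / L + (|K| + 2) * (Real.sqrt L / L) = (Real.log L + (|K| + 2) * Real.sqrt L) / L := by
      ring
    rw [e, div_lt_iff₀ hL] at h5
    linarith
  obtain ⟨L0, hL0⟩ := eventually_atTop.1 hev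
  refine ⟨max 2 (Real.exp L0), le_max_left _ _, fun x hx n l hnx hxn hl hHP hnot j hj => ?_⟩
  obtain ⟨k, hH, hgs⟩ := hHP
  have hx2 : 2 ≤ x := (le_max_left _ _).trans hx
  have hx0 : 0 < x := by linarith
  set L := Real.log x with hL
  have hLL : L0 ≤ L := (Real.le_log_iff_exp_le hx0).2 ((le_max_right _ _).trans hx)
  obtain ⟨h8, hsm⟩ := hL0 L hLL
  have hLpos : 0 < L := by linarith [show (0 : ℝ) < 10 ^ 8 by norm_num]
  set y := Real.exp (Real.sqrt L) with hy
  have hly : Real.log y = Real.sqrt L := Real.log_exp _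
  have hs4 : (10000 : ℝ) ≤ Real.sqrt L := by
    rw [Real.le_sqrt (by norm_num) hLpos.le]
    linarith
  have hy1 : 1 ≤ y := Real.one_le_exp (Real.sqrt_nonneg _)
  -- the size of `n`
  have hlogn : L - Real.log L ≤ Real.log n := by
    rw [← Real.log_div hx0.ne' hLpos.ne']
    exact Real.log_le_log (by positivity) hxn
  have hlL : 0 ≤ Real.log L := Real.log_nonneg (by linarith [show (0 : ℝ) < 10 ^ 8 by norm_num])
  have hK0 := abs_nonneg K
  have hsq0 := Real.sqrt_nonneg L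
  have hn1 : 1 ≤ n := H_pos hH
  have hnR : (0 : ℝ) < n := by exact_mod_cast hn1
  have hlognL : Real.log n ≤ L := Real.log_le_log hnR hnx
  have hyn : y ≤ n := by
    rw [hy, ← Real.le_log_iff_exp_le hnR]
    have : Real.sqrt L ≤ (|K| + 2) * Real.sqrt L := by nlinarith
    linarith
  -- the first time below `y`
  have hex : ∃ t, ((Tn^[t] n : ℕ) : ℝ) < y := by
    refine ⟨k, ?_⟩
    rw [hH.1, hy]
    push_cast
    exact Real.one_lt_exp_iff.2 (by linarith)
  classical
  set t := Nat.find hex with ht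
  have ht1 : ((Tn^[t] n : ℕ) : ℝ) < y := Nat.find_spec hex
  have ht2 : ∀ i < t, y ≤ ((Tn^[i] n : ℕ) : ℝ) := fun i hi => not_lt.1 (Nat.find_min hex hi)
  have htk : t ≤ k := Nat.find_min' hex (by
    rw [hH.1, hy]
    push_cast
    exact Real.one_lt_exp_iff.2 (by linarith))
  have hReg : Reg (1 / 1000) y n t := by
    intro i hi
    refine ⟨ht2 i hi, fun hc => hnot ?_⟩
    refine ⟨i, ?_, fun l hl => ?_⟩
    · rw [Pool.Agent.H499R2.CO.Tn_iter_cast]; exact hc
    · rw [Pool.Agent.H499R2.CO.Tn_iter_cast]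
      exact_mod_cast ht2 l (by omega)
  have hη : (0 : ℝ) < 1 / 1000 := by norm_num
  have c1 : 400 ≤ Real.log y := by rw [hly]; linarith
  have c2 : 5 ≤ 1 / 1000 * Real.log y := by rw [hly]; linarith
  have hn16 : 4 ≤ Nat.log 2 n := by
    have h9 : (16 : ℝ) ≤ n := by
      have h10 := Real.add_one_le_exp (Real.sqrt L)
      linarith
    have h11 : 16 ≤ n := by exact_mod_cast h9
    exact (Nat.le_log_iff_pow_le (by norm_num) (by omega)).2 (by omega)
  rcases Nat.lt_or_ge j t with hjt | hjt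
  · exact reg_below hη le_rfl c1 c2 hy1 hyn (fun i hi => hReg i (by omega)) hj (by omega)
  -- the time `t` is large
  have hlo := reg_lo hη le_rfl c1 c2 hy1 t n hyn hReg
  have hod := reg_odn hη le_rfl c1 c2 hy1 t n hyn hReg
  have hT1 : (1 : ℝ) ≤ (Tn^[t] n : ℕ) := by exact_mod_cast it_pos hn1 t
  have hup : Real.log (Tn^[t] n : ℕ) ≤ Real.sqrt L := by
    rw [← hly]
    exact Real.log_le_log (by linarith) ht1.le
  have hmpl : lam = 2 * mp := by rw [lam_eq]; unfold mp; ring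
  have hl' : (l : ℝ) * lam ≤ A0 P * L + |K| * Real.sqrt L := by
    have h12 := (abs_le.1 hl).2
    have h13 : K * Real.sqrt L ≤ |K| * Real.sqrt L := mul_le_mul_of_nonneg_right (le_abs_self K) hsq0
    linarith
  have hmp := mp_lo
  have hmp' := mp_hi
  -- the statistic after the time `t`
  set R : ℝ := (odn (k - t) (Tn^[t] n) : ℝ) with hR
  have hR0 : 0 ≤ R := Nat.cast_nonneg _
  have hsplit : (l : ℝ) = gs P t n + gs P (k - t) (Tn^[t] n) := by
    have h14 := gs_add P t (k - t) n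
    rw [Nat.add_sub_cancel' htk, hgs] at h14
    rw [h14]
    push_cast
    ring
  have hrem := gs_ge P (k - t) (Tn^[t] n)
  rw [← hR] at hrem
  have ha0 : (0 : ℝ) ≤ P.α := Nat.cast_nonneg _
  have hb0 : (0 : ℝ) ≤ P.β := Nat.cast_nonneg _
  have hc1 : (1 : ℝ) ≤ P.α + P.β := by exact_mod_cast P.one_le
  have hgt : A0 P * t - 15 * (1 / 1000) * P.α * Real.log n ≤ 2 * (gs P t n : ℝ) := by
    unfold gs A0
    push_cast
    nlinarith
  have hkey : ((P.α : ℝ) + P.β) * (lam * R) ≤ ((P.α : ℝ) + P.β) * (0.0225 * L) := by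
    have f1 : ((P.α : ℝ) + P.β) * (lam * R) ≤ lam * (l : ℝ) - lam * (gs P t n : ℝ) := by
      have := mul_le_mul_of_nonneg_left hrem (lam_pos.le)
      rw [hsplit]
      linarith
    have f2 : mp * (A0 P * t - 15 * (1 / 1000) * P.α * Real.log n) ≤ lam * (gs P t n : ℝ) := by
      have := mul_le_mul_of_nonneg_left hgt (show (0 : ℝ) ≤ mp by linarith)
      rw [hmpl]
      linarith
    have hA0 : A0 P ≤ 2 * ((P.α : ℝ) + P.β) := by unfold A0; linarith
    have hA00 : 0 ≤ A0 P := by have := A0_ge P; linarith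
    have f3 : A0 P * ((1 - 9 * (1 / 1000)) * Real.log n - Real.sqrt L) ≤ A0 P * (mp * t) :=
      mul_le_mul_of_nonneg_left (by linarith) hA00
    have f4 : A0 P * (L - (1 - 9 * (1 / 1000)) * Real.log n + Real.sqrt L) ≤
        2 * ((P.α : ℝ) + P.β) * (Real.log L + 0.009 * L + Real.sqrt L) := by
      have g1 : L - (1 - 9 * (1 / 1000)) * Real.log n + Real.sqrt L ≤ Real.log L + 0.009 * L + Real.sqrt L := by
        linarith
      have g2 : 0 ≤ Real.log L + 0.009 * L + Real.sqrt L := by positivity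
      calc _ ≤ A0 P * (Real.log L + 0.009 * L + Real.sqrt L) := mul_le_mul_of_nonneg_left g1 hA00
        _ ≤ _ := mul_le_mul_of_nonneg_right hA0 g2
    have f5 : mp * (15 * (1 / 1000) * P.α * Real.log n) ≤ ((P.α : ℝ) + P.β) * (0.00217 * L) := by
      have g1 : (P.α : ℝ) * Real.log n ≤ ((P.α : ℝ) + P.β) * L := by
        have : (0 : ℝ) ≤ Real.log n := by linarith [Real.log_nonneg (by linarith : (1 : ℝ) ≤ n)]
        nlinarith
      have g2 : 0 ≤ ((P.α : ℝ) + P.β) * L := by positivity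
      nlinarith
    have f6 : |K| * Real.sqrt L ≤ ((P.α : ℝ) + P.β) * (|K| * Real.sqrt L) :=
      le_mul_of_one_le_left (by positivity) hc1
    have f7 : ((P.α : ℝ) + P.β) * (2 * (Real.log L + 0.009 * L + Real.sqrt L) + 0.00217 * L + |K| * Real.sqrt L) ≤
        ((P.α : ℝ) + P.β) * (0.0225 * L) := by
      apply mul_le_mul_of_nonneg_left _ (by linarith)
      have g1 : 0 ≤ |K| * Real.sqrt L := by positivity
      linarith
    linarith
  have hkey' : lam * R ≤ 0.0225 * L := le_of_mul_le_mul_left hkey (by linarith)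
  rw [hmpl] at hkey'
  have hR' : R ≤ 0.0783 * L := by nlinarith
  have hR'' : R * Real.log 2 ≤ 0.06 * L := by
    have hl2' := Real.log_two_lt_d9
    have hl2 := Real.log_two_gt_d9
    nlinarith
  rcases Nat.lt_or_ge j k with hjk | hjk
  · have h15 : Tn^[j] n ≤ 2 ^ odn (k - t) (Tn^[t] n) * Tn^[t] n := by
      have h16 := it_le_odn (j - t) (Tn^[t] n) (it_pos hn1 t)
      rw [← Function.iterate_add_apply, Nat.sub_add_cancel hjt] at h16
      refine h16.trans (Nat.mul_le_mul_right _ ?_)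
      exact Nat.pow_le_pow_right (by norm_num) (odn_mono (by omega) _)
    have h17 : ((Tn^[j] n : ℕ) : ℝ) ≤ 2 ^ odn (k - t) (Tn^[t] n) * y := by
      have h18 : ((Tn^[j] n : ℕ) : ℝ) ≤ 2 ^ odn (k - t) (Tn^[t] n) * (Tn^[t] n : ℕ) := by exact_mod_cast h15
      exact h18.trans (mul_le_mul_of_nonneg_left ht1.le (by positivity))
    have h20 : (2 : ℝ) ^ odn (k - t) (Tn^[t] n) * y < n := by
      have h21 : Real.log ((2 : ℝ) ^ odn (k - t) (Tn^[t] n) * y) < Real.log n := by
        rw [Real.log_mul (by positivity) (by linarith), Real.log_pow, hly, ← hR]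
        have h22 : Real.sqrt L ≤ L / 1000 := by
          have : Real.sqrt L ≤ (|K| + 2) * Real.sqrt L := by nlinarith
          linarith
        have h23 : Real.log L ≤ L / 1000 := by
          have : 0 ≤ (|K| + 2) * Real.sqrt L := by positivity
          linarith
        linarith
      exact (Real.log_lt_log_iff (by positivity) hnR).1 h21
    exact_mod_cast h17.trans_lt h20
  · have h22 : Tn^[j] n = Tn^[j - k] 1 := by
      conv_lhs => rw [← Nat.sub_add_cancel hjk, Function.iterate_add_apply, hH.1]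
    rw [h22]
    have h23 := it_one (j - k)
    have h24 : (16 : ℝ) ≤ n := by
      have h10 := Real.add_one_le_exp (Real.sqrt L)
      linarith
    have h11 : 16 ≤ n := by exact_mod_cast h24
    omega

/-- the upper bound for all levels -/
theorem upper : ∃ (A X₀ : ℝ), 0 < A ∧ 2 ≤ X₀ ∧ ∀ X : ℕ, X₀ ≤ X → ∀ j : ℤ,
    (cN P j X 1 0 : ℝ) ≤ A * X / Real.sqrt (Real.log X) := by
  obtain ⟨δ, Ψ, M, h0, _, _, _, _, _, _, _, h8, _, h10, _⟩ :=
    Pool.Agent.R468.MF.freq P (fun n k => HP P (k : ℤ) n) (lv_HP P)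
  have hM : 0 < M := by linarith
  obtain ⟨X₀, hX⟩ := h10 M hM
  have hlam := lam_pos
  have hw := ww_pos P
  have hv : 0 < 2 * Real.pi * (2 * ww P ^ 2 / lam ^ 3) := by
    have := Real.pi_pos
    positivity
  refine ⟨(M + M) / Real.sqrt (2 * Real.pi * (2 * ww P ^ 2 / lam ^ 3)), max X₀ 2,
    div_pos (by linarith) (Real.sqrt_pos.2 hv), le_max_right _ _, fun X hXX j => ?_⟩
  rcases lt_or_ge j 0 with hj | hj
  · have e : cN P j X 1 0 = 0 := by
      unfold cN
      have : {n : ℕ | 1 ≤ n ∧ n ≤ X ∧ HP P j n ∧ n ≡ 0 [MOD 1]} = ∅ := by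
        ext n
        simp only [Set.mem_ofPred_eq, Set.mem_empty_iff_false, iff_false]
        rintro ⟨_, _, ⟨t, _, h2⟩, _⟩
        unfold gs at h2
        have : (0 : ℤ) ≤ P.α * (odn t n : ℤ) + P.β * (t : ℤ) := by positivity
        omega
      rw [this, Set.ncard_empty]
    rw [e]
    push_cast
    have h2 : (2 : ℝ) ≤ X := (le_max_right _ _).trans hXX
    have h3 : 0 < (M + M) / Real.sqrt (2 * Real.pi * (2 * ww P ^ 2 / lam ^ 3)) :=
      div_pos (by linarith) (Real.sqrt_pos.2 hv)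
    positivity
  · obtain ⟨k, rfl⟩ := Int.eq_ofNat_of_zero_le hj
    have g1 := (hX X ((le_max_left _ _).trans hXX)).1 k
    have e1 : (cN P ((k : ℕ) : ℤ) X 1 0 : ℝ) =
        ({n : ℕ | 1 ≤ n ∧ (n : ℝ) ≤ (X : ℝ) ∧ HP P (k : ℤ) n}.ncard : ℝ) := by
      unfold cN
      congr 2
      ext n
      rw [Set.mem_ofPred_eq, Set.mem_ofPred_eq, Nat.cast_le]
      simp only [Nat.modEq_one, and_true]
    rw [e1]
    refine g1.trans (le_of_eq ?_)
    have e2 : 2 * Real.pi * (2 * ww P ^ 2 / lam ^ 3 * Real.log X) =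
      2 * Real.pi * (2 * ww P ^ 2 / lam ^ 3) * Real.log X := by ring
    rw [e2, Real.sqrt_mul hv.le, div_mul_eq_mul_div, div_div]

/-- uniform upper bound in the classes -/
theorem class_up : ∃ (A : ℝ) (X1 : ℕ), 0 < A ∧ 2 ≤ X1 ∧ ∀ X : ℕ, X1 ≤ X → ∀ s : ℕ, (s : ℝ) ≤ Real.sqrt (Real.log X) / 2 →
    ∀ r < 2 ^ s, ∀ j : ℤ, (cN P j X (2 ^ s) r : ℝ) ≤ A * X / (2 ^ s * Real.sqrt (Real.log X)) := by
  obtain ⟨A, X₀, hA, hX₀, hU⟩ := upper P
  obtain ⟨C, X2, hC, hX2, heq⟩ := cN_equi P 1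
  refine ⟨4 * (A + C) + 2, ⌈Real.exp 16⌉₊ + X2 ^ 2 + ⌈X₀⌉₊ ^ 2 + 2, by positivity, by omega, ?_⟩
  intro X hX s hs r hr j
  have hXe : Real.exp 16 ≤ X := by
    have h1 : ⌈Real.exp 16⌉₊ ≤ X := by omega
    exact (Nat.le_ceil _).trans (by exact_mod_cast h1)
  have hX0 : (0 : ℝ) < X := (Real.exp_pos _).trans_le hXe
  set t := Real.log X with ht
  have ht16 : 16 ≤ t := (Real.le_log_iff_exp_le hX0).2 hXe
  have hst : Real.sqrt t ≤ t / 4 := by
    rw [Real.sqrt_le_left (by linarith)]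
    nlinarith
  have hst4 : 4 ≤ Real.sqrt t := by
    rw [Real.le_sqrt (by norm_num) (by linarith)]
    linarith
  have hs0 : (0 : ℝ) ≤ s := Nat.cast_nonneg s
  have hl2 := Real.log_two_gt_d9
  have hl2' := Real.log_two_lt_d9
  have hls : (s : ℝ) * Real.log 2 ≤ t / 8 := by nlinarith
  have h2s : (2 : ℝ) ^ s = Real.exp (s * Real.log 2) := by
    rw [← Real.log_pow, Real.exp_log (by positivity)]
  have h2s0 : (0 : ℝ) < 2 ^ s := by positivity
  have hXt : (X : ℝ) = Real.exp t := (Real.exp_log hX0).symm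
  have h2sX' : (2 : ℝ) ^ s ≤ Real.exp (t / 8) := by rw [h2s]; exact Real.exp_le_exp.2 hls
  have h2sX : 2 ^ s ≤ X := by
    have : (2 : ℝ) ^ s ≤ X := by
      rw [hXt]
      exact h2sX'.trans (Real.exp_le_exp.2 (by linarith))
    exact_mod_cast this
  obtain ⟨t1, _⟩ := transfer P (X := X) j hr h2sX
  have hYs := Yk_size hr h2sX
  set o := odn s r with ho
  set Y := Yk s r X with hY
  have h3o : (0 : ℝ) < 3 ^ o := by positivity
  have h3o1 : (1 : ℝ) ≤ 3 ^ o := one_le_pow₀ (by norm_num)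
  have hY0 : (0 : ℝ) ≤ Y := Nat.cast_nonneg _
  obtain ⟨b1, b2⟩ := abs_le.1 hYs
  have hXs : Real.exp (7 / 8 * t) ≤ X / 2 ^ s := by
    rw [le_div_iff₀ h2s0, hXt]
    calc Real.exp (7 / 8 * t) * 2 ^ s ≤ Real.exp (7 / 8 * t) * Real.exp (t / 8) :=
          mul_le_mul_of_nonneg_left h2sX' (Real.exp_pos _).le
      _ = Real.exp t := by rw [← Real.exp_add]; congr 1; ring
  have hhalf : Real.exp (t / 2) ≤ X / 2 ^ s - 1 := by
    have h1 : Real.exp (7 / 8 * t) = Real.exp (3 / 8 * t) * Real.exp (t / 2) := by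
      rw [← Real.exp_add]; congr 1; ring
    have h2 : 2 ≤ Real.exp (3 / 8 * t) := by
      have := Real.add_one_le_exp (3 / 8 * t)
      linarith
    have h3 : 1 ≤ Real.exp (t / 2) := Real.one_le_exp (by linarith)
    nlinarith
  have hYlow : Real.exp (t / 2) ≤ Y := by
    have h1 : (Y : ℝ) / 3 ^ o ≤ Y := div_le_self hY0 h3o1
    linarith
  have hYpos : (0 : ℝ) < Y := (Real.exp_pos _).trans_le hYlow
  have hlY : t / 2 ≤ Real.log Y := (Real.le_log_iff_exp_le hYpos).2 hYlow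
  have hsq : ∀ Z : ℕ, Z ^ 2 ≤ X → Z ≤ Y := by
    intro Z hZ
    have h1 : ((Z : ℝ)) ^ 2 ≤ X := by exact_mod_cast hZ
    have h2 : (Z : ℝ) ≤ Real.exp (t / 2) := by
      have h3 : (Z : ℝ) ^ 2 ≤ Real.exp (t / 2) ^ 2 := by
        rw [← Real.exp_nat_mul]
        have : ((2 : ℕ) : ℝ) * (t / 2) = t := by push_cast; ring
        rw [this, ← hXt]; exact h1
      exact (abs_le_of_sq_le_sq' h3 (Real.exp_pos _).le).2
    exact_mod_cast h2.trans hYlow
  have hYX2 : X2 ≤ Y := hsq X2 (by omega)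
  have hYX0 : X₀ ≤ Y := (Nat.le_ceil X₀).trans (by exact_mod_cast hsq ⌈X₀⌉₊ (by omega))
  have ho2 : (o : ℝ) ^ 2 ≤ Real.log Y / 2 := by
    have h1 : (o : ℝ) ≤ Real.sqrt t / 2 := by
      have : (o : ℝ) ≤ s := by exact_mod_cast odn_le s r
      linarith
    have h2 : (o : ℝ) ^ 2 ≤ (Real.sqrt t / 2) ^ 2 := pow_le_pow_left₀ (Nat.cast_nonneg _) h1 2
    rw [div_pow, Real.sq_sqrt (by linarith)] at h2
    linarith
  have h5 := heq Y hYX2 o ho2 (j - gs P s r) (Tn^[s] r)
  rw [pow_one] at h5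
  have h6 := hU Y hYX0 (j - gs P s r)
  have t1' : (cN P j X (2 ^ s) r : ℝ) ≤ cN P (j - gs P s r) Y (3 ^ o) (Tn^[s] r) + 2 := by exact_mod_cast t1
  have h7 := (abs_le.1 h5).2
  have hYq : (Y : ℝ) / 3 ^ o ≤ 2 * (X / 2 ^ s) := by
    have : 1 ≤ (X : ℝ) / 2 ^ s := by
      have := Real.exp_pos (t / 2)
      linarith
    linarith
  have hlY0 : 0 < Real.log Y := by linarith
  have hsY : Real.sqrt t / 2 ≤ Real.sqrt (Real.log Y) := by
    rw [Real.le_sqrt (by linarith) hlY0.le, div_pow, Real.sq_sqrt (by linarith)]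
    linarith
  have hst0 : 0 < Real.sqrt t := by linarith
  have h8 : (cN P (j - gs P s r) Y 1 0 : ℝ) / 3 ^ o ≤ A * (2 * (X / 2 ^ s)) * (2 / Real.sqrt t) := by
    have h9 : A * Y / Real.sqrt (Real.log Y) ≤ A * Y * (2 / Real.sqrt t) := by
      rw [div_eq_mul_inv]
      apply mul_le_mul_of_nonneg_left _ (by positivity)
      rw [inv_eq_one_div, div_le_div_iff₀ (by linarith) hst0]
      linarith
    calc (cN P (j - gs P s r) Y 1 0 : ℝ) / 3 ^ o ≤ (A * Y * (2 / Real.sqrt t)) / 3 ^ o :=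
          div_le_div_of_nonneg_right (h6.trans h9) h3o.le
      _ = A * (Y / 3 ^ o) * (2 / Real.sqrt t) := by ring
      _ ≤ _ := by
          apply mul_le_mul_of_nonneg_right _ (by positivity)
          exact mul_le_mul_of_nonneg_left hYq hA.le
  have h10 : C / Real.log Y * (Y / 3 ^ o) ≤ C * (2 / Real.sqrt t) * (2 * (X / 2 ^ s)) := by
    apply mul_le_mul _ hYq (by positivity) (by positivity)
    rw [div_eq_mul_inv]
    apply mul_le_mul_of_nonneg_left _ hC.le
    rw [inv_eq_one_div, div_le_div_iff₀ hlY0 hst0]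
    have h11 : Real.sqrt t ≤ Real.log Y := by linarith
    linarith
  have h12 : 2 ≤ 2 * (X / 2 ^ s) / Real.sqrt t := by
    rw [le_div_iff₀ hst0]
    have h13 := Real.add_one_le_exp (7 / 8 * t)
    linarith
  have e : (4 * (A + C) + 2) * X / (2 ^ s * Real.sqrt t) = A * (2 * (X / 2 ^ s)) * (2 / Real.sqrt t) +
      C * (2 / Real.sqrt t) * (2 * (X / 2 ^ s)) + 2 * (X / 2 ^ s) / Real.sqrt t := by
    field_simp
    ring
  rw [e]
  linarith

end Pool.Agent.K3h31.CL
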