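import Pool.Agent.K3h31.CL.G
import Pool.Agent.R468.RC.M

/-!
Residue classes for the statistics `α (odd terms) + β (steps)`, part 8: in a level few trajectories come
back to their start after a bounded time.
-/

set_option autoImplicit false

namespace Pool.Agent.K3h31.CL

open Filter Topology Finset
open Pool.Agent.R468.GL hiding ph
open Pool.Agent.R468.LL (lam lam_eq lam_pos lam_lt)
open Pool.Agent.H499R2.LT
open Pool.Agent.H499R2.ND (Td Tn Dn)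
open Pool.Agent.H499R2.HL
open Pool.Agent.R344.TH (HY HY_count)
open Pool.Agent.R468.RC (Wj odn_mod dev_both many_odd ev_x Dv Dv_thin gd_low)

variable (P : Par)

/-- the middle range -/
theorem mid_count {ρ : ℝ} (hρ0 : 0 < ρ) (hρ1 : ρ < 1) (hW : ∀ j : ℕ, ((Wj j).card : ℝ) ≤ 2 * 2 ^ j * ρ ^ j) {A : ℝ} (hA : 0 < A)
    {X J j0 : ℕ} {l : ℤ} (hX : 1 < X)
    (hc : ∀ j < j0, ∀ r < 2 ^ j, (cN P l X (2 ^ j) r : ℝ) ≤ A * X / (2 ^ j * Real.sqrt (Real.log X))) :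
    ({n : ℕ | 1 ≤ n ∧ n ≤ X ∧ HP P l n ∧ ∃ j, J ≤ j ∧ j < j0 ∧ (3 / 5 : ℝ) * j ≤ (odn j n : ℝ)}.ncard : ℝ) ≤
      2 * A / (1 - ρ) * ρ ^ J * (X / Real.sqrt (Real.log X)) := by
  classical
  have hL : 0 < Real.log X := Real.log_pos (by exact_mod_cast hX)
  have hs : 0 < Real.sqrt (Real.log X) := Real.sqrt_pos.2 hL
  have hX0 : (0 : ℝ) < X := by positivity
  set F : ℕ → Set ℕ := fun j => {n : ℕ | 1 ≤ n ∧ n ≤ X ∧ HP P l n ∧ (3 / 5 : ℝ) * j ≤ (odn j n : ℝ)} with hF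
  have hFf : ∀ j, (F j).Finite := fun j => (Set.finite_Iic X).subset fun _ hn => hn.2.1
  have hFc : ∀ j < j0, ((F j).ncard : ℝ) ≤ 2 * A * ρ ^ j * (X / Real.sqrt (Real.log X)) := by
    intro j hj
    have h1 : (F j).ncard ≤ ∑ r ∈ Wj j, cN P l X (2 ^ j) r := by
      have hsub : F j ⊆ ⋃ r ∈ Wj j, {n : ℕ | 1 ≤ n ∧ n ≤ X ∧ HP P l n ∧ n ≡ r [MOD 2 ^ j]} := by
        rintro n ⟨g1, g2, g3, g4⟩
        rw [Set.mem_iUnion₂]
        refine ⟨n % 2 ^ j, ?_, g1, g2, g3, (Nat.mod_modEq n (2 ^ j)).symm⟩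
        unfold Wj
        rw [Finset.mem_filter, Finset.mem_range, ← odn_mod]
        exact ⟨Nat.mod_lt _ (by positivity), g4⟩
      have hfin : (⋃ r ∈ Wj j, {n : ℕ | 1 ≤ n ∧ n ≤ X ∧ HP P l n ∧ n ≡ r [MOD 2 ^ j]}).Finite :=
        (Set.finite_Iic X).subset fun n hn => by
          rw [Set.mem_iUnion₂] at hn
          obtain ⟨r, _, h⟩ := hn
          exact h.2.1
      refine (Set.ncard_le_ncard hsub hfin).trans ?_
      refine (Finset.set_ncard_biUnion_le (Wj j) _).trans ?_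
      exact le_rfl
    have h2 : ((∑ r ∈ Wj j, cN P l X (2 ^ j) r : ℕ) : ℝ) ≤ (Wj j).card * (A * X / (2 ^ j * Real.sqrt (Real.log X))) := by
      push_cast
      calc ∑ r ∈ Wj j, (cN P l X (2 ^ j) r : ℝ) ≤ ∑ r ∈ Wj j, A * X / (2 ^ j * Real.sqrt (Real.log X)) := by
            apply Finset.sum_le_sum
            intro r hr
            unfold Wj at hr
            exact hc j hj r (Finset.mem_range.1 (Finset.mem_filter.1 hr).1)
        _ = _ := by rw [Finset.sum_const, nsmul_eq_mul]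
    have h2j : (0 : ℝ) < 2 ^ j := by positivity
    calc ((F j).ncard : ℝ) ≤ ((∑ r ∈ Wj j, cN P l X (2 ^ j) r : ℕ) : ℝ) := by exact_mod_cast h1
      _ ≤ _ := h2
      _ ≤ (2 * 2 ^ j * ρ ^ j) * (A * X / (2 ^ j * Real.sqrt (Real.log X))) :=
          mul_le_mul_of_nonneg_right (hW j) (by positivity)
      _ = _ := by field_simp
  have hsub : {n : ℕ | 1 ≤ n ∧ n ≤ X ∧ HP P l n ∧ ∃ j, J ≤ j ∧ j < j0 ∧ (3 / 5 : ℝ) * j ≤ (odn j n : ℝ)} ⊆
      ⋃ j ∈ Finset.Ico J j0, F j := by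
    rintro n ⟨g1, g2, g3, j, g4, g5, g6⟩
    rw [Set.mem_iUnion₂]
    exact ⟨j, Finset.mem_Ico.2 ⟨g4, g5⟩, g1, g2, g3, g6⟩
  have hfin : (⋃ j ∈ Finset.Ico J j0, F j).Finite := (Set.finite_Iic X).subset fun n hn => by
    rw [Set.mem_iUnion₂] at hn
    obtain ⟨j, _, h⟩ := hn
    exact h.2.1
  have h3 := (Set.ncard_le_ncard hsub hfin).trans (Finset.set_ncard_biUnion_le (Finset.Ico J j0) _)
  have h4 : ∑ j ∈ Finset.Ico J j0, ρ ^ j ≤ ρ ^ J / (1 - ρ) := by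
    have h5 : ∑ j ∈ Finset.Ico J j0, ρ ^ j = ρ ^ J * ∑ j ∈ Finset.range (j0 - J), ρ ^ j := by
      rw [Finset.sum_Ico_eq_sum_range, Finset.mul_sum]
      exact Finset.sum_congr rfl fun i _ => pow_add _ _ _
    rw [h5, div_eq_mul_inv]
    apply mul_le_mul_of_nonneg_left _ (by positivity)
    have h6 := Summable.sum_le_tsum (Finset.range (j0 - J)) (fun i _ => by positivity)
      (summable_geometric_of_lt_one hρ0.le hρ1)
    rwa [tsum_geometric_of_lt_one hρ0.le hρ1] at h6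
  calc _ ≤ ((∑ j ∈ Finset.Ico J j0, (F j).ncard : ℕ) : ℝ) := by exact_mod_cast h3
    _ = ∑ j ∈ Finset.Ico J j0, ((F j).ncard : ℝ) := by push_cast; rfl
    _ ≤ ∑ j ∈ Finset.Ico J j0, 2 * A * ρ ^ j * (X / Real.sqrt (Real.log X)) :=
        Finset.sum_le_sum fun j hj => hFc j (Finset.mem_Ico.1 hj).2
    _ = 2 * A * (X / Real.sqrt (Real.log X)) * ∑ j ∈ Finset.Ico J j0, ρ ^ j := by
        rw [Finset.mul_sum]
        exact Finset.sum_congr rfl fun i _ => by ring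
    _ ≤ 2 * A * (X / Real.sqrt (Real.log X)) * (ρ ^ J / (1 - ρ)) :=
        mul_le_mul_of_nonneg_left h4 (by positivity)
    _ = _ := by ring

/-- IN A LEVEL FEW TRAJECTORIES COME BACK after a bounded time -/
theorem back_small (K : ℝ) {ε : ℝ} (hε : 0 < ε) : ∃ J : ℕ, ∀ᶠ p in xg P K,
    aZ P (fun n => ∃ j, J ≤ j ∧ n ≤ Tn^[j] n) p ≤ ε := by
  classical
  obtain ⟨ρ, hρ0, hρ1, hW, hS2⟩ := dev_both
  obtain ⟨A, X1, hA, hX1, hup⟩ := class_up P
  obtain ⟨c, hc, hgd⟩ := gd_low P K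
  obtain ⟨Y0, hY0, hthin⟩ := Dv_thin (η := 1 / 1000) (by norm_num)
  obtain ⟨l₀, K1, hl₀, hK1, hHY⟩ := HY_count (d := 1) odd_one isCoprime_one_left (γ := 1 / 8) (by norm_num) (by norm_num) 4
  obtain ⟨x0, hx0, hfar⟩ := far P K
  -- the choice of `J`
  have hq : 0 < 1 - ρ := by linarith
  obtain ⟨J1, hJ1⟩ := exists_pow_lt_of_lt_one (show (0 : ℝ) < ε / 2 * (c * (1 - ρ) / (4 * A)) by positivity) hρ1
  set J := max J1 21 with hJ
  have hJρ : ρ ^ J ≤ ε / 2 * (c * (1 - ρ) / (4 * A)) :=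
    (pow_le_pow_of_le_one hρ0.le hρ1.le (le_max_left _ _)).trans hJ1.le
  refine ⟨J, ?_⟩
  -- the negligible part
  set g : ℝ × ℤ → ℝ := fun p => (2 + K1) * p.1 / Real.log p.1 with hg
  have hneg : Tendsto (fun p : ℝ × ℤ => g p / (p.1 * gd P p.1 p.2)) (xg P K) (𝓝 0) := by
    apply negl P K
    refine ⟨2 + K1, ?_⟩
    filter_upwards [xg_ge P K 1, (xg_log P K).eventually (eventually_gt_atTop 0)] with p h1 h2
    rw [hg, abs_of_nonneg (by positivity)]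
  have hlogbig : ∀ᶠ p : ℝ × ℤ in xg P K, max (max l₀ (Real.log Y0)) 1 ≤ Real.sqrt (Real.log p.1) :=
    (xg_sqrt P K).eventually (eventually_ge_atTop _)
  have hexp : ∀ᶠ p : ℝ × ℤ in xg P K, (4 : ℝ) ≤ p.1 ∧ X1 ≤ ⌊p.1⌋₊ ∧ 1 < ⌊p.1⌋₊ ∧
    1 ≤ Real.log p.1 ∧ Real.log p.1 / 2 ≤ Real.log ⌊p.1⌋₊ ∧
    2 * ((Nat.log 2 ⌊p.1⌋₊ : ℝ) + 1) ^ 2 * ρ ^ (⌊Real.sqrt (Real.log ⌊p.1⌋₊) / 2⌋₊ + 1) ≤ 1 / Real.log p.1 :=
    (xg_fst P K).eventually (ev_x hρ0 hρ1 X1)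
  filter_upwards [hneg.eventually (gt_mem_nhds (show (0 : ℝ) < ε / 2 by positivity)), hgd, hlogbig, hexp,
    xg_ge P K x0, xg_dev P K, gd_pos_ev P K] with p g1 g2 g3 g5 g6 g8 g9
  obtain ⟨q1, q2, q3, q4, q5, q6⟩ := g5
  obtain ⟨x, l⟩ := p
  simp only at g1 g2 g3 q1 q2 q3 q4 q5 q6 g6 g8 g9
  have hxpos : 0 < x := by linarith
  set X := ⌊x⌋₊ with hX
  have f1 := Nat.floor_le hxpos.le
  rw [← hX] at f1
  set L := Real.log x with hL
  have hLpos : 0 < L := by linarith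
  have hsL : 0 < Real.sqrt L := Real.sqrt_pos.2 hLpos
  set y := Real.exp (Real.sqrt L) with hy
  have hly : Real.log y = Real.sqrt L := Real.log_exp _
  have hy0 : 0 < y := Real.exp_pos _
  have hYy : Y0 ≤ y := by
    have h1 : Real.log Y0 ≤ Real.sqrt L := ((le_max_right _ _).trans (le_max_left _ _)).trans g3
    rwa [← Real.log_le_iff_le_exp (by linarith)]
  set j0 := ⌊Real.sqrt (Real.log X) / 2⌋₊ + 1 with hj0
  -- the four sets
  set S0 : Set ℕ := {n : ℕ | 1 ≤ n ∧ (n : ℝ) ≤ x / L} with hS0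
  set S1 : Set ℕ := {n : ℕ | 1 ≤ n ∧ n ≤ X ∧ ((n : ℕ) : ℤ) ∈ HY 1 (Dv (1 / 1000)) y} with hS1
  set S2 : Set ℕ := {n : ℕ | 1 ≤ n ∧ n ≤ X ∧ ∃ j, j0 ≤ j ∧ 2 * j ≤ Nat.log 2 n ∧ (3 / 5 : ℝ) * j ≤ (odn j n : ℝ)} with hS2'
  set S3 : Set ℕ := {n : ℕ | 1 ≤ n ∧ n ≤ X ∧ HP P l n ∧ ∃ j, J ≤ j ∧ j < j0 ∧ (3 / 5 : ℝ) * j ≤ (odn j n : ℝ)} with hS3
  have hS0f : S0.Finite := (Set.finite_Iic ⌊x / L⌋₊).subset fun n hn => Nat.le_floor hn.2
  have hS1f : S1.Finite := (Set.finite_Iic X).subset fun n hn => hn.2.1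
  have hS2f : S2.Finite := (Set.finite_Iic X).subset fun n hn => hn.2.1
  have hS3f : S3.Finite := (Set.finite_Iic X).subset fun n hn => hn.2.1
  have hsub : {n : ℕ | 1 ≤ n ∧ (n : ℝ) ≤ x ∧ (∃ j, J ≤ j ∧ n ≤ Tn^[j] n) ∧ HP P l n} ⊆
      (S0 ∪ S1) ∪ (S2 ∪ S3) := by
    rintro n ⟨e1, e2, ⟨j, e3, e4⟩, e5⟩
    have hnX : n ≤ X := Nat.le_floor e2
    by_cases h1 : (n : ℝ) ≤ x / L
    · exact Or.inl (Or.inl ⟨e1, h1⟩)
    by_cases h2 : ((n : ℕ) : ℤ) ∈ HY 1 (Dv (1 / 1000)) y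
    · exact Or.inl (Or.inr ⟨e1, hnX, h2⟩)
    right
    push Not at h1
    have h3 := hfar x g6 n l e2 h1.le g8 e5 h2 j
    have hjl : 2 * j ≤ Nat.log 2 n := by
      by_contra hcon
      have := h3 (by omega)
      omega
    have h4 := many_odd e1 ((le_max_right _ _).trans e3) hjl e4
    rcases Nat.lt_or_ge j j0 with h5 | h5
    · exact Or.inr ⟨e1, hnX, e5, j, e3, h5, h4⟩
    · exact Or.inl ⟨e1, hnX, j, h5, hjl, h4⟩
  have hcard : cZ P (fun n => ∃ j, J ≤ j ∧ n ≤ Tn^[j] n) (x, l) ≤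
      ((S0.ncard : ℝ) + S1.ncard) + (S2.ncard + S3.ncard) := by
    have h1 := Set.ncard_le_ncard hsub ((hS0f.union hS1f).union (hS2f.union hS3f))
    have h2 := h1.trans (Set.ncard_union_le _ _)
    have h3 := h2.trans (add_le_add (Set.ncard_union_le _ _) (Set.ncard_union_le _ _))
    have h4 := (Nat.cast_le (α := ℝ)).2 h3
    rw [Nat.cast_add, Nat.cast_add, Nat.cast_add] at h4
    exact h4
  -- the counts
  have c0 : (S0.ncard : ℝ) ≤ x / L := by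
    have h1 : S0 ⊆ ((Finset.Icc 1 ⌊x / L⌋₊ : Finset ℕ) : Set ℕ) := by
      intro n hn
      rw [Finset.coe_Icc]
      exact ⟨hn.1, Nat.le_floor hn.2⟩
    have h2 := Set.ncard_le_ncard h1 (Finset.finite_toSet _)
    rw [Set.ncard_coe_finset, Nat.card_Icc, Nat.add_sub_cancel] at h2
    calc (S0.ncard : ℝ) ≤ (⌊x / L⌋₊ : ℝ) := by exact_mod_cast h2
      _ ≤ x / L := Nat.floor_le (by positivity)
  have c1 : (S1.ncard : ℝ) ≤ K1 * (x / L) := by
    have h1 := hHY y hy0 (by rw [hly]; exact ((le_max_left _ _).trans (le_max_left _ _)).trans g3) (Dv (1 / 1000)) (fun X' hX' => by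
      have h2 := hthin y hYy X' hX'
      have : (2 * (1 / 8) : ℝ) = 1 / 4 := by norm_num
      rw [this]
      exact h2) X
    have h2 : S1.ncard ≤ ((Icc (1 : ℤ) X).filter (fun n => n ∈ HY 1 (Dv (1 / 1000)) y)).card := by
      rw [← Set.ncard_coe_finset]
      apply Set.ncard_le_ncard_of_injOn (fun n : ℕ => (n : ℤ))
      · rintro n ⟨e1, e2, e3⟩
        rw [Finset.mem_coe, Finset.mem_filter, Finset.mem_Icc]
        exact ⟨⟨by exact_mod_cast e1, by exact_mod_cast e2⟩, e3⟩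
      · intro a _ b _ h
        simpa using h
    have h3 : (Real.sqrt L) ^ 4 = L ^ 2 := by
      calc (Real.sqrt L) ^ 4 = ((Real.sqrt L) ^ 2) ^ 2 := by ring
        _ = L ^ 2 := by rw [Real.sq_sqrt hLpos.le]
    rw [hly, h3] at h1
    calc (S1.ncard : ℝ) ≤ _ := by exact_mod_cast h2
      _ ≤ K1 * X / L ^ 2 := h1
      _ ≤ K1 * (x / L) := by
          rw [mul_div_assoc]
          apply mul_le_mul_of_nonneg_left _ hK1.le
          rw [div_le_div_iff₀ (by positivity) hLpos]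
          have h4 : (X : ℝ) * L ≤ x * L := mul_le_mul_of_nonneg_right f1 hLpos.le
          have h5 : x * L ≤ x * L ^ 2 := by
            apply mul_le_mul_of_nonneg_left _ hxpos.le
            nlinarith
          linarith
  have c2 : (S2.ncard : ℝ) ≤ x / L := by
    have h1 := hS2 X j0
    calc (S2.ncard : ℝ) ≤ _ := h1
      _ = X * (2 * ((Nat.log 2 X : ℝ) + 1) ^ 2 * ρ ^ j0) := by ring
      _ ≤ x * (1 / L) := mul_le_mul f1 q6 (by positivity) hxpos.le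
      _ = _ := by ring
  have c3 : (S3.ncard : ℝ) ≤ 2 * A / (1 - ρ) * ρ ^ J * (X / Real.sqrt (Real.log X)) := by
    apply mid_count P hρ0 hρ1 hW hA q3
    intro j hj r hr
    have hjs : (j : ℝ) ≤ Real.sqrt (Real.log X) / 2 := by
      have h1 : j ≤ ⌊Real.sqrt (Real.log X) / 2⌋₊ := by omega
      have h2 : (j : ℝ) ≤ (⌊Real.sqrt (Real.log X) / 2⌋₊ : ℝ) := by exact_mod_cast h1
      exact h2.trans (Nat.floor_le (by positivity))
    exact hup X q2 j hjs r hr l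
  have hlX0 : 0 < Real.log X := by linarith
  have c3' : (S3.ncard : ℝ) ≤ 2 * A / (1 - ρ) * ρ ^ J * (x * (2 / Real.sqrt L)) := by
    refine c3.trans ?_
    apply mul_le_mul_of_nonneg_left _ (by positivity)
    rw [div_eq_mul_inv]
    apply mul_le_mul f1 _ (by positivity) hxpos.le
    rw [inv_eq_one_div, div_le_div_iff₀ (Real.sqrt_pos.2 hlX0) hsL]
    have h1 : Real.sqrt L / 2 ≤ Real.sqrt (Real.log X) := by
      rw [Real.le_sqrt (by positivity) hlX0.le, div_pow, Real.sq_sqrt hLpos.le]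
      linarith
    linarith
  -- conclusion
  have hden : 0 < x * gd P x l := mul_pos hxpos g9
  unfold aZ
  simp only
  rw [hg] at g1
  simp only at g1
  have h1 : cZ P (fun n => ∃ j, J ≤ j ∧ n ≤ Tn^[j] n) (x, l) ≤ (2 + K1) * x / L +
      2 * A / (1 - ρ) * ρ ^ J * (x * (2 / Real.sqrt L)) := by
    have e : (2 + K1) * x / L = x / L + K1 * (x / L) + x / L := by ring
    rw [e]
    linarith
  have h2 := div_le_div_of_nonneg_right h1 hden.le
  rw [add_div] at h2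
  have h3 : 2 * A / (1 - ρ) * ρ ^ J * (x * (2 / Real.sqrt L)) / (x * gd P x l) ≤ ε / 2 := by
    have h4 : 2 * A / (1 - ρ) * ρ ^ J * (x * (2 / Real.sqrt L)) / (x * gd P x l) ≤
        2 * A / (1 - ρ) * ρ ^ J * (x * (2 / Real.sqrt L)) / (x * (c / Real.sqrt L)) := by
      apply div_le_div_of_nonneg_left (by positivity) (by positivity)
      exact mul_le_mul_of_nonneg_left g2 hxpos.le
    refine h4.trans ?_
    have e : 2 * A / (1 - ρ) * ρ ^ J * (x * (2 / Real.sqrt L)) / (x * (c / Real.sqrt L)) =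
        ρ ^ J * (4 * A / (c * (1 - ρ))) := by
      field_simp
      ring
    rw [e]
    calc ρ ^ J * (4 * A / (c * (1 - ρ))) ≤ (ε / 2 * (c * (1 - ρ) / (4 * A))) * (4 * A / (c * (1 - ρ))) :=
          mul_le_mul_of_nonneg_right hJρ (by positivity)
      _ = ε / 2 := by field_simp
  linarith

end Pool.Agent.K3h31.CL
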