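import Pool.Agent.K3h31.CL.H
import Pool.Agent.R468.RC.S

/-!
Residue classes for the statistics `α (odd terms) + β (steps)`, part 9: the law of the descent word and of
the maximum excursion inside the levels.
-/

set_option autoImplicit false

namespace Pool.Agent.K3h31.CL

open Filter Topology Finset
open Pool.Agent.R468.GL hiding ph
open Pool.Agent.R468.LL (lam lam_eq lam_pos lam_lt)
open Pool.Agent.H499R2.LT
open Pool.Agent.H499R2.ND (Td Tn Dn AK AK_mod AK_of_bound exists_nK iter_real er_le)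
open Pool.Agent.H499R2.HL
open Pool.Agent.Helper894.Collatz (er)
open Pool.Agent.R468.RC (crt_card word zc EJ EJ_mod EJ_card th_tend z_tail CD_ST ST z_one DW DW_fin cnt_ext)

variable (P : Par)

/-- odd and admissible -/
def OA (J : ℕ) (lam : ℝ) (c : ℕ) : Prop := c % 2 = 1 ∧ AK J lam c

open Classical in
/-- the proportion of the admissible parity vectors among the odd residues modulo `2^(J+1)` -/
noncomputable def rO (J : ℕ) (lam : ℝ) : ℝ :=
  (((range (2 ^ (J + 1))).filter (OA (J + 1) lam)).card : ℝ) / 2 ^ J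

theorem odd_mod (J n : ℕ) : n % 2 ^ (J + 1) % 2 = n % 2 := by
  rw [pow_succ']
  exact Nat.mod_mul_right_mod n 2 (2 ^ J)

theorem OA_mod (J : ℕ) (lam : ℝ) (n : ℕ) : OA (J + 1) lam (n % 2 ^ (J + 1)) ↔ OA (J + 1) lam n := by
  unfold OA
  rw [odd_mod, AK_mod]

theorem rO_anti (lam : ℝ) : Antitone (fun J => rO J lam) := by
  classical
  apply antitone_nat_of_succ_le
  intro J
  show rO (J + 1) lam ≤ rO J lam
  unfold rO
  have h1 := cnt_ext (show J + 1 ≤ J + 1 + 1 by omega) (OA (J + 1) lam) (OA_mod J lam)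
  have h2 : ((range (2 ^ (J + 1 + 1))).filter (OA (J + 1 + 1) lam)).card ≤
      ((range (2 ^ (J + 1 + 1))).filter (OA (J + 1) lam)).card := by
    apply card_le_card
    intro c hc
    rw [mem_filter] at hc ⊢
    exact ⟨hc.1, hc.2.1, fun k hk1 hk2 => hc.2.2 k hk1 (by omega)⟩
  rw [h1] at h2
  have e : J + 1 + 1 - (J + 1) = 1 := by omega
  rw [e, pow_one] at h2
  set a := ((range (2 ^ (J + 1 + 1))).filter (OA (J + 1 + 1) lam)).card with ha
  set b := ((range (2 ^ (J + 1))).filter (OA (J + 1) lam)).card with hb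
  have h3 : (a : ℝ) ≤ (b : ℝ) * 2 := by exact_mod_cast h2
  have h4 : (0 : ℝ) < 2 ^ J := by positivity
  rw [div_le_div_iff₀ (by positivity) h4, pow_succ]
  calc (a : ℝ) * 2 ^ J ≤ (b * 2) * 2 ^ J := mul_le_mul_of_nonneg_right h3 h4.le
    _ = b * (2 ^ J * 2) := by ring

theorem rO_nonneg (J : ℕ) (lam : ℝ) : 0 ≤ rO J lam := by unfold rO; positivity

theorem odd_card (J : ℕ) : ((range (2 ^ (J + 1))).filter (fun c => c % 2 = 1)).card = 2 ^ J := by
  have h := cnt_ext (s := 1) (J := J + 1) (by omega) (fun c => c % 2 = 1) (fun n => by rw [pow_one, Nat.mod_mod])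
  rw [h, Nat.add_sub_cancel, pow_one]
  have : ((range 2).filter (fun c => c % 2 = 1)).card = 1 := by decide
  rw [this, one_mul]

theorem rO_le_one (J : ℕ) (lam : ℝ) : rO J lam ≤ 1 := by
  classical
  unfold rO
  rw [div_le_one (by positivity)]
  have h1 : ((range (2 ^ (J + 1))).filter (OA (J + 1) lam)).card ≤ 2 ^ J := by
    rw [← odd_card J]
    apply card_le_card
    intro c hc
    rw [mem_filter] at hc ⊢
    exact ⟨hc.1, hc.2.1⟩
  exact_mod_cast h1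

theorem rO_ge {lam : ℝ} (hl : 0 < lam) (J : ℕ) : 1 - 2 / lam ≤ rO J lam := by
  classical
  have h1 := Pool.Agent.H499R2.ND.rK_ge hl (J + 1)
  unfold Pool.Agent.H499R2.ND.rK at h1
  unfold rO
  have h2 : ((range (2 ^ (J + 1))).filter (AK (J + 1) lam)).card ≤
      ((range (2 ^ (J + 1))).filter (OA (J + 1) lam)).card +
      ((range (2 ^ (J + 1))).filter (fun c => ¬ c % 2 = 1)).card := by
    refine (card_le_card ?_).trans (card_union_le _ _)
    intro c hc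
    rw [mem_filter] at hc
    rw [mem_union, mem_filter, mem_filter]
    by_cases h : c % 2 = 1
    · exact Or.inl ⟨hc.1, h, hc.2⟩
    · exact Or.inr ⟨hc.1, h⟩
  have h3 := card_filter_add_card_filter_not (s := range (2 ^ (J + 1))) (fun c => c % 2 = 1)
  rw [card_range, odd_card] at h3
  have h4 : ((range (2 ^ (J + 1))).filter (fun c => ¬ c % 2 = 1)).card = 2 ^ J := by
    have e2 : 2 ^ (J + 1) = 2 ^ J * 2 := pow_succ 2 J
    omega
  rw [h4] at h2
  have h5 : (((range (2 ^ (J + 1))).filter (AK (J + 1) lam)).card : ℝ) ≤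
      (((range (2 ^ (J + 1))).filter (OA (J + 1) lam)).card : ℝ) + 2 ^ J := by
    exact_mod_cast h2
  have h6 : (0 : ℝ) < 2 ^ J := by positivity
  rw [le_div_iff₀ (by positivity)] at h1 ⊢
  rw [pow_succ] at h1
  have e : (1 - 2 / lam) * 2 ^ J = (1 - 1 / lam) * (2 ^ J * 2) - 2 ^ J := by ring
  rw [e]
  linarith

section
variable {Ψ : ℝ → ℝ} (hc : Continuous Ψ) (hp : ∀ t, Ψ (t + 1) = Ψ t) {M : ℝ} (hM : ∀ t, |Ψ t| ≤ M)
  (hL : LQ P (fun _ => True) 1 Ψ)
include hc hp hM hL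

open Classical in
/-- properties with a period which is a power of two, in a residue class of odd modulus -/
theorem per_law {Q : ℕ} (hQ : Odd Q) (r J : ℕ) (A : ℕ → Prop) (hA : ∀ n, A (n % 2 ^ J) ↔ A n) :
    LQ P (fun n => n ≡ r [MOD Q] ∧ A n) ((((range (2 ^ J)).filter A).card : ℝ) / 2 ^ J / Q) Ψ := by
  have hQ0 : 0 < Q := hQ.pos
  set W : Finset ℕ := (range (2 ^ J * Q)).filter (fun c => c ≡ r [MOD Q] ∧ A c) with hW
  have h1 := LQ_union P (Ψ := Ψ) (q := 2 ^ J * Q) (by positivity) (t := 1 / ((2 ^ J * Q : ℕ) : ℝ)) W (filter_subset _ _)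
    (fun c _ => mod_law P hc hp hM hL (q := 2 ^ J * Q) (Nat.one_le_iff_ne_zero.2 (by positivity)) c)
  have e1 : (fun n => n % (2 ^ J * Q) ∈ W) = fun n => n ≡ r [MOD Q] ∧ A n := by
    funext n
    rw [hW, mem_filter, mem_range]
    have h2 : n % (2 ^ J * Q) < 2 ^ J * Q := Nat.mod_lt _ (by positivity)
    have h3 : n % (2 ^ J * Q) ≡ r [MOD Q] ↔ n ≡ r [MOD Q] := by
      have h4 : n % (2 ^ J * Q) ≡ n [MOD Q] := (Nat.mod_modEq n (2 ^ J * Q)).of_mul_left _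
      exact ⟨fun h => h4.symm.trans h, fun h => h4.trans h⟩
    have h5 : A (n % (2 ^ J * Q)) ↔ A n := by
      rw [← hA (n % (2 ^ J * Q)), Nat.mod_mul_right_mod, hA]
    rw [h3, h5]
    simp [h2]
  have e3 : (W.card : ℝ) * (1 / ((2 ^ J * Q : ℕ) : ℝ)) = (((range (2 ^ J)).filter A).card : ℝ) / 2 ^ J / Q := by
    rw [hW, crt_card hQ r J A hA]
    push_cast
    field_simp
  rw [e1, e3] at h1
  exact h1

/-- the excursion law in the levels, odd integers -/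
theorem exc_level {Q : ℕ} (hQ : Odd Q) (r : ℕ) {lam q : ℝ} (hl : 1 ≤ lam)
    (hq : Tendsto (fun J => rO J lam) atTop (𝓝 q)) :
    LQ P (fun n => n ≡ r [MOD Q] ∧ (n % 2 = 1 ∧ ∀ k, ((Tn^[k] n : ℕ) : ℝ) ≤ lam * n)) (q / 2 / Q) Ψ := by
  classical
  intro K
  have hQ1 : (1 : ℝ) ≤ Q := by exact_mod_cast hQ.pos
  have hM0 : 0 ≤ M := (abs_nonneg _).trans (hM 0)
  rw [Metric.tendsto_nhds]
  intro ε hε
  obtain ⟨J0, hJ0⟩ := back_small P K (ε := ε / 8) (by positivity)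
  have hq1 : Tendsto (fun J => |rO J lam - q| * M) atTop (𝓝 0) := by
    have h3 := ((hq.sub_const q).abs).mul_const M
    simpa using h3
  obtain ⟨J', hJ2, hJ1⟩ := ((hq1.eventually (gt_mem_nhds (show (0 : ℝ) < ε / 8 by positivity))).and
    (eventually_ge_atTop J0)).exists
  set J := J' + 1 with hJJ
  obtain ⟨n1, hn1⟩ := exists_nK J lam
  have hlaw := per_law P hc hp hM hL hQ r J (OA J lam) (OA_mod J' lam)
  have hrO : (((range (2 ^ J)).filter (OA J lam)).card : ℝ) / 2 ^ J / Q = rO J' lam / 2 / Q := by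
    unfold rO
    have e2 : (2 : ℝ) ^ J = 2 ^ J' * 2 := by rw [hJJ]; exact pow_succ 2 J'
    rw [e2, ← div_div]
  rw [hrO] at hlaw
  filter_upwards [hJ0, const_small P (n1 + 1) K (ε := ε / 8) (by positivity),
    (Metric.tendsto_nhds.1 (hlaw K)) (ε / 8) (by positivity), gd_pos_ev P K, xg_ge P K 1]
    with p g1 g2 g3 g4 g5
  have hx : 0 < p.1 * gd P p.1 p.2 := mul_pos (by linarith) g4
  set A := {n : ℕ | 1 ≤ n ∧ (n : ℝ) ≤ p.1 ∧ (n ≡ r [MOD Q] ∧ OA J lam n) ∧ HP P p.2 n} with hA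
  set B := {n : ℕ | 1 ≤ n ∧ (n : ℝ) ≤ p.1 ∧ (n ≡ r [MOD Q] ∧ (n % 2 = 1 ∧ ∀ k, ((Tn^[k] n : ℕ) : ℝ) ≤ lam * n)) ∧
    HP P p.2 n} with hB
  set D := {n : ℕ | 1 ≤ n ∧ (n : ℝ) ≤ p.1 ∧ (∃ j, J0 ≤ j ∧ n ≤ Tn^[j] n) ∧ HP P p.2 n} with hD
  have hAf : A.Finite := fin_cZ P _ p
  have hBf : B.Finite := fin_cZ P _ p
  have hDf : D.Finite := fin_cZ P _ p
  set E : Set ℕ := ((Finset.range (n1 + 1) : Finset ℕ) : Set ℕ) with hE
  have hEf : E.Finite := Finset.finite_toSet _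
  have hEc : E.ncard = n1 + 1 := by rw [hE, Set.ncard_coe_finset, Finset.card_range]
  have i1 : B ⊆ A := fun n hn => ⟨hn.1, hn.2.1, ⟨hn.2.2.1.1, hn.2.2.1.2.1, AK_of_bound hl hn.1 hn.2.2.1.2.2 J⟩, hn.2.2.2⟩
  have i2 : A ⊆ (B ∪ D) ∪ E := by
    rintro n ⟨a1, a2, ⟨a0, a00, a3⟩, a5⟩
    by_cases hn : n < n1 + 1
    · right
      rw [hE, Finset.mem_coe, Finset.mem_range]
      exact hn
    left
    by_cases hd : ∃ j, J0 ≤ j ∧ n ≤ Tn^[j] n
    · exact Or.inr ⟨a1, a2, hd, a5⟩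
    left
    refine ⟨a1, a2, ⟨a0, a00, fun k => ?_⟩, a5⟩
    have hnR : (0 : ℝ) < n := by exact_mod_cast a1
    by_contra hk
    push Not at hk
    have hle : n ≤ Tn^[k] n := by
      have h4 : (n : ℝ) ≤ lam * n := by nlinarith
      have h5 : (n : ℝ) < ((Tn^[k] n : ℕ) : ℝ) := by linarith
      exact_mod_cast h5.le
    have hkJ : k < J0 := by
      by_contra hc
      exact hd ⟨k, by omega, hle⟩
    have hk1 : 1 ≤ k := by
      by_contra h0
      have : k = 0 := by omega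
      subst this
      simp only [Function.iterate_zero, id] at hk
      nlinarith
    have hkJ' : k ≤ J := by omega
    have h4 := a3 k hk1 hkJ'
    have h5 := hn1 k hkJ' (Pool.Agent.Helper894.Collatz.od k n) ((Pool.Agent.H499R2.ND.od_le k n).trans hkJ') h4
    have h6 := iter_real k n
    have h7 : (er k n : ℝ) ≤ 3 ^ J := by
      have h8 : er k n ≤ 3 ^ k := by
        have := er_le k n
        exact le_trans (Nat.le_add_right _ _) this
      have h9 : 3 ^ k ≤ 3 ^ J := Nat.pow_le_pow_right (by norm_num) hkJ'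
      exact_mod_cast h8.trans h9
    have hnn1 : (n1 : ℝ) ≤ n := by
      have : n1 ≤ n := by omega
      exact_mod_cast this
    have h8 : (lam * 2 ^ k - 3 ^ Pool.Agent.Helper894.Collatz.od k n) * n1 ≤ (lam * 2 ^ k - 3 ^ Pool.Agent.Helper894.Collatz.od k n) * n :=
      mul_le_mul_of_nonneg_left hnn1 (by linarith)
    have h9 : (2 : ℝ) ^ k * ((Tn^[k] n : ℕ) : ℝ) ≤ 2 ^ k * (lam * n) := by
      rw [h6]
      have : (2 : ℝ) ^ k * (lam * n) = 3 ^ Pool.Agent.Helper894.Collatz.od k n * n + (lam * 2 ^ k - 3 ^ Pool.Agent.Helper894.Collatz.od k n) * n := by ring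
      rw [this]; linarith
    have h10 := le_of_mul_le_mul_left h9 (by positivity)
    linarith
  have c1 : B.ncard ≤ A.ncard := Set.ncard_le_ncard i1 hAf
  have c2 : A.ncard ≤ B.ncard + D.ncard + (n1 + 1) := by
    refine (Set.ncard_le_ncard i2 ((hBf.union hDf).union hEf)).trans ?_
    refine (Set.ncard_union_le _ _).trans ?_
    exact add_le_add (Set.ncard_union_le _ _) hEc.le
  have c1' : cZ P (fun n => n ≡ r [MOD Q] ∧ (n % 2 = 1 ∧ ∀ k, ((Tn^[k] n : ℕ) : ℝ) ≤ lam * n)) p ≤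
      cZ P (fun n => n ≡ r [MOD Q] ∧ OA J lam n) p := by
    unfold cZ
    exact_mod_cast c1
  have c2' : cZ P (fun n => n ≡ r [MOD Q] ∧ OA J lam n) p ≤
      cZ P (fun n => n ≡ r [MOD Q] ∧ (n % 2 = 1 ∧ ∀ k, ((Tn^[k] n : ℕ) : ℝ) ≤ lam * n)) p +
      cZ P (fun n => ∃ j, J0 ≤ j ∧ n ≤ Tn^[j] n) p + ((n1 : ℝ) + 1) := by
    unfold cZ
    exact_mod_cast c2
  have d1 := div_le_div_of_nonneg_right c1' hx.le
  have d2 := div_le_div_of_nonneg_right c2' hx.le
  rw [add_div, add_div] at d2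
  unfold aZ at g1
  rw [Real.dist_eq, sub_zero] at g3 ⊢
  have g3' := abs_lt.1 g3
  have hΨ : |rO J' lam / 2 / Q * Ψ (sv P p) - q / 2 / Q * Ψ (sv P p)| ≤ ε / 8 := by
    rw [← sub_mul, ← sub_div, ← sub_div, abs_mul, abs_div, abs_div, abs_of_pos (by linarith : (0 : ℝ) < Q), abs_two]
    calc |rO J' lam - q| / 2 / Q * |Ψ (sv P p)| ≤ |rO J' lam - q| * M := by
          apply mul_le_mul _ (hM _) (abs_nonneg _) (abs_nonneg _)
          exact (div_le_self (by positivity) hQ1).trans (div_le_self (abs_nonneg _) (by norm_num))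
      _ ≤ ε / 8 := hJ2.le
  have hΨ' := abs_le.1 hΨ
  rw [abs_lt]
  constructor <;> linarith [g3'.1, g3'.2, hΨ'.1, hΨ'.2]

/-- uniformity over the unions of classes -/
theorem unif_union {q : ℕ} (hq : 1 ≤ q) (K : ℝ) {ε : ℝ} (hε : 0 < ε) : ∀ᶠ p in xg P K, ∀ W ⊆ range q,
    |aZ P (fun n => n % q ∈ W) p - W.card / q * Ψ (sv P p)| ≤ ε := by
  have h : ∀ W ∈ (range q).powerset, ∀ᶠ p in xg P K,
      |aZ P (fun n => n % q ∈ W) p - W.card / q * Ψ (sv P p)| ≤ ε := by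
    intro W hW
    rw [mem_powerset] at hW
    have h1 := LQ_union P (Ψ := Ψ) (q := q) (by omega) (t := 1 / (q : ℝ)) W hW
      (fun r _ => mod_law P hc hp hM hL hq r) K
    filter_upwards [(Metric.tendsto_nhds.1 h1) ε hε] with p hp'
    rw [Real.dist_eq, sub_zero] at hp'
    unfold aZ
    have e : (W.card : ℝ) / q = W.card * (1 / q) := by ring
    rw [e]
    exact hp'.le
  have h2 := (Filter.eventually_all_finset (range q).powerset).2 h
  filter_upwards [h2] with p hp' W hW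
  exact hp' W (mem_powerset.2 hW)

/-- THE LAW OF THE DESCENT WORD inside the levels, in total variation -/
theorem desc_level {Q : ℕ} (hQ : Odd Q) (r : ℕ) (K : ℝ) {ε : ℝ} (hε : 0 < ε) : ∀ᶠ p in xg P K,
    ∀ S : Set (List ℕ), |aZ P (fun n => n ≡ r [MOD Q] ∧ ∃ s, ST s n ∧ word s n ∈ S) p -
      (∑' s : ℕ, (zc S s : ℝ) / 2 ^ s) / Q * Ψ (sv P p)| ≤ ε := by
  classical
  have hQ1 : (1 : ℝ) ≤ Q := by exact_mod_cast hQ.pos
  have hQ0 : 0 < Q := hQ.pos
  have hM0 : 0 ≤ M := (abs_nonneg _).trans (hM 0)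
  obtain ⟨J0, hJ0⟩ := back_small P K (ε := ε / 4) (by positivity)
  have ht : Tendsto (fun J : ℕ => 2 * Pool.Agent.H499R2.ND.th ^ J * M) atTop (𝓝 0) := by
    have := th_tend.mul_const M
    simpa using this
  obtain ⟨J, hJ1, hJ2, hJ3⟩ := ((ht.eventually (gt_mem_nhds (show (0 : ℝ) < ε / 4 by positivity))).and
    ((eventually_ge_atTop J0).and (eventually_ge_atTop 1))).exists
  have hq : 1 ≤ 2 ^ J * Q := Nat.one_le_iff_ne_zero.2 (by positivity)
  filter_upwards [hJ0, const_small P (4 ^ J) K (ε := ε / 4) (by positivity),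
    unif_union P hc hp hM hL hq K (ε := ε / 4) (by positivity), gd_pos_ev P K, xg_ge P K 1] with p g1 g2 g3 g4 g5 S
  have hx : 0 < p.1 * gd P p.1 p.2 := mul_pos (by linarith) g4
  set W : Finset ℕ := (range (2 ^ J * Q)).filter (fun c => c ≡ r [MOD Q] ∧ EJ S J c) with hW
  have g3' := g3 W (filter_subset _ _)
  have e1 : (fun n => n % (2 ^ J * Q) ∈ W) = fun n => n ≡ r [MOD Q] ∧ EJ S J n := by
    funext n
    rw [hW, mem_filter, mem_range]
    have h2 : n % (2 ^ J * Q) < 2 ^ J * Q := Nat.mod_lt _ (by positivity)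
    have h3 : n % (2 ^ J * Q) ≡ r [MOD Q] ↔ n ≡ r [MOD Q] := by
      have h4 : n % (2 ^ J * Q) ≡ n [MOD Q] := (Nat.mod_modEq n (2 ^ J * Q)).of_mul_left _
      exact ⟨fun h => h4.symm.trans h, fun h => h4.trans h⟩
    have h5 : EJ S J (n % (2 ^ J * Q)) ↔ EJ S J n := by
      rw [← EJ_mod S J (n % (2 ^ J * Q)), Nat.mod_mul_right_mod, EJ_mod]
    rw [h3, h5]
    simp [h2]
  have e2 : (W.card : ℝ) / ((2 ^ J * Q : ℕ) : ℝ) = (∑ s ∈ range (J + 1), (zc S s : ℝ) / 2 ^ s) / Q := by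
    rw [hW, crt_card hQ r J (EJ S J) (EJ_mod S J), ← EJ_card]
    push_cast
    rw [div_div]
  rw [e1, e2] at g3'
  -- comparison
  set A := {n : ℕ | 1 ≤ n ∧ (n : ℝ) ≤ p.1 ∧ (n ≡ r [MOD Q] ∧ EJ S J n) ∧ HP P p.2 n} with hA
  set B := {n : ℕ | 1 ≤ n ∧ (n : ℝ) ≤ p.1 ∧ (n ≡ r [MOD Q] ∧ ∃ s, ST s n ∧ word s n ∈ S) ∧
    HP P p.2 n} with hB
  set D := {n : ℕ | 1 ≤ n ∧ (n : ℝ) ≤ p.1 ∧ (∃ j, J0 ≤ j ∧ n ≤ Tn^[j] n) ∧ HP P p.2 n} with hD
  have hAf : A.Finite := fin_cZ P _ p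
  have hBf : B.Finite := fin_cZ P _ p
  have hDf : D.Finite := fin_cZ P _ p
  set E : Set ℕ := ((Finset.range (4 ^ J) : Finset ℕ) : Set ℕ) with hE
  have hEf : E.Finite := Finset.finite_toSet _
  have hEc : E.ncard = 4 ^ J := by rw [hE, Set.ncard_coe_finset, Finset.card_range]
  have i1 : A ⊆ (B ∪ D) ∪ E := by
    rintro n ⟨a1, a2, ⟨a0, s, hs, a3, a3'⟩, a5⟩
    by_cases hn : n < 4 ^ J
    · right
      rw [hE, Finset.mem_coe, Finset.mem_range]
      exact hn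
    · left; left
      exact ⟨a1, a2, ⟨a0, s, (CD_ST hs (by omega)).1 a3, a3'⟩, a5⟩
  have i2 : B ⊆ (A ∪ D) ∪ E := by
    rintro n ⟨a1, a2, ⟨a0, s, a3, a3'⟩, a5⟩
    by_cases hn : n < 4 ^ J
    · right
      rw [hE, Finset.mem_coe, Finset.mem_range]
      exact hn
    left
    rcases le_or_gt s J with hs | hs
    · left
      exact ⟨a1, a2, ⟨a0, s, hs, (CD_ST hs (by omega)).2 a3, a3'⟩, a5⟩
    · right
      exact ⟨a1, a2, ⟨J, hJ2, a3.2 J hs⟩, a5⟩
  have c1 : A.ncard ≤ B.ncard + D.ncard + 4 ^ J := by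
    refine (Set.ncard_le_ncard i1 ((hBf.union hDf).union hEf)).trans ?_
    refine (Set.ncard_union_le _ _).trans ?_
    exact add_le_add (Set.ncard_union_le _ _) hEc.le
  have c2 : B.ncard ≤ A.ncard + D.ncard + 4 ^ J := by
    refine (Set.ncard_le_ncard i2 ((hAf.union hDf).union hEf)).trans ?_
    refine (Set.ncard_union_le _ _).trans ?_
    exact add_le_add (Set.ncard_union_le _ _) hEc.le
  have c1' : cZ P (fun n => n ≡ r [MOD Q] ∧ EJ S J n) p ≤
      cZ P (fun n => n ≡ r [MOD Q] ∧ ∃ s, ST s n ∧ word s n ∈ S) p +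
      cZ P (fun n => ∃ j, J0 ≤ j ∧ n ≤ Tn^[j] n) p + (4 : ℝ) ^ J := by
    unfold cZ
    exact_mod_cast c1
  have c2' : cZ P (fun n => n ≡ r [MOD Q] ∧ ∃ s, ST s n ∧ word s n ∈ S) p ≤
      cZ P (fun n => n ≡ r [MOD Q] ∧ EJ S J n) p +
      cZ P (fun n => ∃ j, J0 ≤ j ∧ n ≤ Tn^[j] n) p + (4 : ℝ) ^ J := by
    unfold cZ
    exact_mod_cast c2
  have d1 := div_le_div_of_nonneg_right c1' hx.le
  have d2 := div_le_div_of_nonneg_right c2' hx.le
  rw [add_div, add_div] at d1 d2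
  have hΨ : |(∑ s ∈ range (J + 1), (zc S s : ℝ) / 2 ^ s) / Q * Ψ (sv P p) -
      (∑' s : ℕ, (zc S s : ℝ) / 2 ^ s) / Q * Ψ (sv P p)| ≤ ε / 4 := by
    rw [← sub_mul, ← sub_div, abs_mul, abs_div, abs_of_pos (by linarith : (0 : ℝ) < Q)]
    calc |(∑ s ∈ range (J + 1), (zc S s : ℝ) / 2 ^ s) - ∑' s : ℕ, (zc S s : ℝ) / 2 ^ s| / Q * |Ψ (sv P p)|
        ≤ 2 * Pool.Agent.H499R2.ND.th ^ J * M := by
          apply mul_le_mul _ (hM _) (abs_nonneg _) (by have := Pool.Agent.H499R2.ND.th_pos; positivity)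
          exact (div_le_self (abs_nonneg _) hQ1).trans (z_tail S hJ3)
      _ ≤ ε / 4 := hJ1.le
  have g3'' := abs_le.1 g3'
  have hΨ' := abs_le.1 hΨ
  unfold aZ at g1 g3'' ⊢
  rw [abs_le]
  constructor <;> linarith [g3''.1, g3''.2, hΨ'.1, hΨ'.2]

end

end Pool.Agent.K3h31.CL
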