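import Pool.Agent.K3h31.CL.I
import Pool.Agent.R469.Eseq

/-!
Residue classes, part 11: the words of the exponents `e(m), e(C m), ..., e(C^(j-1) m)`.
-/

set_option autoImplicit false

namespace Pool.Agent.K3h31.CL

open Filter Topology Finset
open Pool.Agent.H499R2.LT
open Pool.Agent.H499R2.ND (Tn)
open Pool.Agent.R468.RC (word word_len word_sum word_take word_bit word_mod word_inj word_surj word_succ odn_succ'
  cnt_ext EJ EJ_card EJ_univ EJ_mod CD CD_pos lt_iff pow_ne th_tend)

/-- `C(m) = (3m+1)/2^e(m)` -/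
def Cs (n : ℕ) : ℕ := (3 * n + 1) / 2 ^ padicValNat 2 (3 * n + 1)

/-- the exponents of the trajectory -/
def ex (n i : ℕ) : ℕ := padicValNat 2 (3 * Cs^[i] n + 1)

/-- the word of the first `j` exponents -/
def ew (j n : ℕ) : List ℕ := (List.range j).map (ex n)

theorem ew_len (j n : ℕ) : (ew j n).length = j := by unfold ew; simp

theorem ew_take {i j : ℕ} (h : i ≤ j) (n : ℕ) : (ew j n).take i = ew i n := by
  unfold ew
  rw [← List.map_take, List.take_range, min_eq_left h]

theorem ew_succ (j n : ℕ) : ew (j + 1) n = ex n 0 :: ew j (Cs n) := by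
  unfold ew
  rw [List.range_succ_eq_map, List.map_cons, List.map_map]
  rfl

theorem sum_map_range (f : ℕ → ℕ) (j : ℕ) : ((List.range j).map f).sum = ∑ i ∈ range j, f i := by
  induction j with
  | zero => simp
  | succ j ih => rw [List.range_succ, List.map_append, List.sum_append, ih, sum_range_succ]; simp

theorem Cs_odd {n : ℕ} (hn : n % 2 = 1) (i : ℕ) : Cs^[i] n % 2 = 1 :=
  Pool.Agent.R469.Eseq.S_iter_odd hn i

theorem ex_pos {n : ℕ} (hn : n % 2 = 1) (i : ℕ) : 1 ≤ ex n i :=
  (Pool.Agent.R469.Eseq.step_odd (Cs_odd hn i)).1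

theorem ew_pos {n : ℕ} (hn : n % 2 = 1) (j : ℕ) : ∀ e ∈ ew j n, 1 ≤ e := by
  intro e he
  unfold ew at he
  rw [List.mem_map] at he
  obtain ⟨i, _, rfl⟩ := he
  exact ex_pos hn i

/-- the time of the `j`-th odd term -/
theorem link {n : ℕ} (hn : n % 2 = 1) (j : ℕ) : Tn^[(ew j n).sum] n = Cs^[j] n ∧ odn (ew j n).sum n = j := by
  have h := Pool.Agent.R469.Eseq.link hn j
  have e : (ew j n).sum = Pool.Agent.R469.Eseq.b n j := by
    unfold ew Pool.Agent.R469.Eseq.b
    rw [sum_map_range]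
    rfl
  rw [e]
  exact h

theorem Tn_odd {n : ℕ} (hn : n % 2 = 1) (j : ℕ) : Tn^[(ew j n).sum] n % 2 = 1 := by
  rw [(link hn j).1]
  exact Cs_odd hn j

theorem odn_mono' {a b : ℕ} (h : a ≤ b) (v : ℕ) : odn a v ≤ odn b v := by
  obtain ⟨c, rfl⟩ := Nat.exists_eq_add_of_le h
  rw [Pool.Agent.H499R2.HL.odn_add]
  exact Nat.le_add_right _ _

/-- an odd term at the time `t` is counted later -/
theorem odn_lt {t s n : ℕ} (h : Tn^[t] n % 2 = 1) (hts : t < s) : odn t n < odn s n := by
  have h1 := odn_mono' (show t + 1 ≤ s by omega) n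
  rw [odn_succ', h] at h1
  omega

/-- the times of the odd terms are determined by the number of the odd terms before -/
theorem time_unique {s t n : ℕ} (hs : Tn^[s] n % 2 = 1) (ht : Tn^[t] n % 2 = 1) (h : odn s n = odn t n) : s = t := by
  rcases lt_trichotomy s t with h1 | h1 | h1
  · have := odn_lt hs h1
    omega
  · exact h1
  · have := odn_lt ht h1
    omega

/-! ### from words of exponents to words of parities -/

/-- the word of parities -/
def tw : List ℕ → List ℕ
  | [] => [1]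
  | e :: a => (1 :: List.replicate (e - 1) 0) ++ tw a

theorem tw_len : ∀ a : List ℕ, (∀ e ∈ a, 1 ≤ e) → (tw a).length = a.sum + 1
  | [], _ => rfl
  | e :: a, h => by
    have h1 := h e List.mem_cons_self
    have h2 := tw_len a (fun x hx => h x (List.mem_cons_of_mem e hx))
    unfold tw
    rw [List.length_append, List.length_cons, List.length_replicate, h2, List.sum_cons]
    omega

theorem tw_sum : ∀ a : List ℕ, (tw a).sum = a.length + 1
  | [] => rfl
  | e :: a => by
    have h2 := tw_sum a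
    unfold tw
    rw [List.sum_append, List.sum_cons, List.sum_replicate, h2, List.length_cons]
    simp
    omega

theorem tw_bit : ∀ a : List ℕ, ∀ x ∈ tw a, x = 0 ∨ x = 1
  | [], x, hx => by
    unfold tw at hx
    rw [List.mem_singleton] at hx
    exact Or.inr hx
  | e :: a, x, hx => by
    unfold tw at hx
    rw [List.mem_append, List.mem_cons] at hx
    rcases hx with (hx | hx) | hx
    · exact Or.inr hx
    · exact Or.inl (List.eq_of_mem_replicate hx)
    · exact tw_bit a x hx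

theorem word_add (a b n : ℕ) : word (a + b) n = word a n ++ word b (Tn^[a] n) := by
  unfold word
  rw [List.range_add, List.map_append, List.map_map]
  congr 1
  apply List.map_congr_left
  intro i _
  show Tn^[a + i] n % 2 = Tn^[i] (Tn^[a] n) % 2
  rw [Nat.add_comm, Function.iterate_add_apply]

/-- one exponent -/
theorem word_one {e n : ℕ} (he : 1 ≤ e) (hn : n % 2 = 1) :
    (word e n = 1 :: List.replicate (e - 1) 0 ∧ Tn^[e] n % 2 = 1) ↔ ex n 0 = e := by
  have h0 : Tn^[ex n 0] n = Cs n ∧ odn (ex n 0) n = 1 := by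
    have h := link hn 1
    have e1 : (ew 1 n).sum = ex n 0 := by unfold ew; simp
    rw [e1] at h
    exact h
  have hodd : Tn^[ex n 0] n % 2 = 1 := by rw [h0.1]; exact Cs_odd hn 1
  constructor
  · rintro ⟨h1, h2⟩
    have h3 : odn e n = 1 := by
      rw [← word_sum, h1, List.sum_cons, List.sum_replicate]
      simp
    exact time_unique hodd h2 (by rw [h0.2, h3])
  · intro h
    subst h
    refine ⟨?_, hodd⟩
    set e := ex n 0 with hee
    obtain ⟨j, hj⟩ : ∃ j, e = j + 1 := ⟨e - 1, by omega⟩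
    have h3 := word_sum e n
    rw [h0.2] at h3
    have h4 : word e n = 1 :: word j (Tn n) := by
      rw [hj, Nat.add_comm j 1, word_add]
      have e1 : word 1 n = [1] := by unfold word; simp [hn]
      rw [e1]
      rfl
    rw [h4, List.sum_cons] at h3
    have h5 : (word j (Tn n)).sum = 0 := by omega
    rw [h4]
    congr 1
    rw [List.eq_replicate_iff]
    refine ⟨by rw [word_len]; omega, fun b hb => ?_⟩
    have h6 := List.single_le_sum (fun x _ => Nat.zero_le x) b hb
    omega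

/-- THE KEY: words of exponents and words of parities -/
theorem key : ∀ (a : List ℕ), (∀ e ∈ a, 1 ≤ e) → ∀ n : ℕ,
    word (a.sum + 1) n = tw a ↔ (n % 2 = 1 ∧ ew a.length n = a)
  | [], _, n => by
    constructor
    · intro h
      unfold word tw at h
      simp at h
      exact ⟨h, rfl⟩
    · rintro ⟨h, _⟩
      unfold word tw
      simp [h]
  | e :: a, h, n => by
    have he := h e List.mem_cons_self
    have ih := key a (fun x hx => h x (List.mem_cons_of_mem e hx))
    have h1 : word ((e :: a).sum + 1) n = word e n ++ word (a.sum + 1) (Tn^[e] n) := by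
      rw [List.sum_cons, Nat.add_assoc, word_add]
    have h2 : tw (e :: a) = (1 :: List.replicate (e - 1) 0) ++ tw a := rfl
    have h3 : word e n ++ word (a.sum + 1) (Tn^[e] n) = (1 :: List.replicate (e - 1) 0) ++ tw a ↔
        word e n = 1 :: List.replicate (e - 1) 0 ∧ word (a.sum + 1) (Tn^[e] n) = tw a := by
      constructor
      · intro h4
        exact List.append_inj h4 (by rw [word_len, List.length_cons, List.length_replicate]; omega)
      · rintro ⟨h4, h5⟩
        rw [h4, h5]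
    rw [h1, h2, h3, ih, List.length_cons, ew_succ, List.cons.injEq]
    constructor
    · rintro ⟨g1, g2, g3⟩
      have hn : n % 2 = 1 := by
        obtain ⟨j, hj⟩ : ∃ j, e = j + 1 := ⟨e - 1, by omega⟩
        rw [hj, Nat.add_comm j 1, word_add] at g1
        have e1 : word 1 n = [n % 2] := by unfold word; simp
        rw [e1] at g1
        simp only [List.singleton_append, List.cons.injEq] at g1
        exact g1.1
      have g4 := (word_one he hn).1 ⟨g1, g2⟩
      refine ⟨hn, g4, ?_⟩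
      have h5 := (link hn 1).1
      have e1 : (ew 1 n).sum = ex n 0 := by unfold ew; simp
      rw [e1, g4] at h5
      rw [h5] at g3
      exact g3
    · rintro ⟨hn, g4, g3⟩
      obtain ⟨g1, g2⟩ := (word_one he hn).2 g4
      refine ⟨g1, g2, ?_⟩
      have h5 := (link hn 1).1
      have e1 : (ew 1 n).sum = ex n 0 := by unfold ew; simp
      rw [e1, g4] at h5
      rw [h5]
      exact g3

/-! ### descent words -/

/-- the descent words of exponents -/
def CW (a : List ℕ) : Prop := (∀ e ∈ a, 1 ≤ e) ∧ 3 ^ a.length < 2 ^ a.sum ∧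
  ∀ i, 1 ≤ i → i < a.length → 2 ^ (a.take i).sum < 3 ^ i

theorem CW_len {a : List ℕ} (h : CW a) : 1 ≤ a.length := by
  by_contra hc
  have h0 : a = [] := List.length_eq_zero_iff.1 (by omega)
  subst h0
  have := h.2.1
  simp at this

/-- a descent word in the set, of sum `t` -/
def CE (S : Set (List ℕ)) (t n : ℕ) : Prop := ∃ a ∈ S, CW a ∧ a.sum = t ∧ word (t + 1) n = tw a

/-- a descent word in the set, of sum less than `J` -/
def EC (S : Set (List ℕ)) (J n : ℕ) : Prop := ∃ t < J, CE S t n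

theorem CE_iff {S : Set (List ℕ)} {t n : ℕ} : CE S t n ↔ n % 2 = 1 ∧ ∃ j, CW (ew j n) ∧ (ew j n).sum = t ∧ ew j n ∈ S := by
  constructor
  · rintro ⟨a, h1, h2, h3, h4⟩
    rw [← h3] at h4
    obtain ⟨h5, h6⟩ := (key a h2.1 n).1 h4
    refine ⟨h5, a.length, ?_⟩
    rw [h6]
    exact ⟨h2, h3, h1⟩
  · rintro ⟨h0, j, h1, h2, h3⟩
    refine ⟨ew j n, h3, h1, h2, ?_⟩
    have h4 := (key (ew j n) h1.1 n).2 ⟨h0, by rw [ew_len]⟩
    rwa [h2] at h4

theorem CE_mod {S : Set (List ℕ)} {t J : ℕ} (h : t < J) (n : ℕ) : CE S t (n % 2 ^ J) ↔ CE S t n := by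
  unfold CE
  rw [word_mod (show t + 1 ≤ J by omega)]

theorem EC_mod (S : Set (List ℕ)) (J n : ℕ) : EC S J (n % 2 ^ J) ↔ EC S J n := by
  unfold EC
  exact exists_congr fun t => and_congr_right fun ht => CE_mod ht n

/-- the descent word is unique -/
theorem CW_uni {n j j' : ℕ} (h : CW (ew j n)) (h' : CW (ew j' n)) : j = j' := by
  rcases lt_trichotomy j j' with h1 | h1 | h1
  · have h2 := h'.2.2 j (by have := CW_len h; rwa [ew_len] at this) (by rw [ew_len]; exact h1)
    rw [ew_take h1.le] at h2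
    have h3 := h.2.1
    rw [ew_len] at h3
    omega
  · exact h1
  · have h2 := h.2.2 j' (by have := CW_len h'; rwa [ew_len] at this) (by rw [ew_len]; exact h1)
    rw [ew_take h1.le] at h2
    have h3 := h'.2.1
    rw [ew_len] at h3
    omega

theorem CE_uni {S : Set (List ℕ)} {t t' n : ℕ} (h : CE S t n) (h' : CE S t' n) : t = t' := by
  obtain ⟨_, j, h1, h2, _⟩ := CE_iff.1 h
  obtain ⟨_, j', h1', h2', _⟩ := CE_iff.1 h'
  have := CW_uni h1 h1'
  subst this
  rw [← h2, ← h2']

/-- the number of the descent words of sum `t` in the set -/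
noncomputable def zd (S : Set (List ℕ)) (t : ℕ) : ℕ := {a : List ℕ | a ∈ S ∧ a.sum = t ∧ CW a}.ncard

/-- the word of exponents of sum `t` -/
noncomputable def ff (t n : ℕ) : List ℕ := ew (odn t n) n

theorem ff_eq {t n j : ℕ} (hn : n % 2 = 1) (h : (ew j n).sum = t) : ff t n = ew j n := by
  unfold ff
  have h1 := (link hn j).2
  rw [h] at h1
  rw [h1]

open Classical in
theorem zd_eq (S : Set (List ℕ)) (t : ℕ) : ((range (2 ^ (t + 1))).filter (CE S t)).card = zd S t := by
  unfold zd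
  rw [← Set.ncard_coe_finset, ← Set.InjOn.ncard_image (f := ff t)]
  · congr 1
    ext a
    rw [Set.mem_image]
    constructor
    · rintro ⟨c, hc, rfl⟩
      rw [Finset.mem_coe, mem_filter] at hc
      obtain ⟨h1, j, h2, h3, h4⟩ := CE_iff.1 hc.2
      rw [ff_eq h1 h3]
      exact ⟨h4, h3, h2⟩
    · rintro ⟨h1, h2, h3⟩
      obtain ⟨c, hc, hcw⟩ := word_surj (t + 1) (tw a) (by rw [tw_len a h3.1, h2]) (tw_bit a)
      have h4 := hcw
      rw [← h2] at h4
      obtain ⟨h5, h6⟩ := (key a h3.1 c).1 h4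
      refine ⟨c, ?_, ?_⟩
      · rw [Finset.mem_coe, mem_filter, mem_range]
        exact ⟨hc, a, h1, h3, h2, hcw⟩
      · rw [ff_eq h5 (j := a.length) (by rw [h6]; exact h2), h6]
  · intro c hc c' hc' he
    rw [Finset.mem_coe, mem_filter, mem_range] at hc hc'
    obtain ⟨h1, j, h2, h3, h4⟩ := CE_iff.1 hc.2
    obtain ⟨h1', j', h2', h3', h4'⟩ := CE_iff.1 hc'.2
    rw [ff_eq h1 h3, ff_eq h1' h3'] at he
    apply word_inj hc.1 hc'.1
    have h5 := (key (ew j c) h2.1 c).2 ⟨h1, by rw [ew_len]⟩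
    have h5' := (key (ew j' c') h2'.1 c').2 ⟨h1', by rw [ew_len]⟩
    rw [h3] at h5
    rw [h3'] at h5'
    rw [h5, h5', he]

open Classical in
/-- the proportion of the residues -/
theorem EC_card (S : Set (List ℕ)) (J : ℕ) : (((range (2 ^ J)).filter (EC S J)).card : ℝ) / 2 ^ J =
    (∑ t ∈ range J, (zd S t : ℝ) / 2 ^ t) / 2 := by
  have h1 : (range (2 ^ J)).filter (EC S J) = (range J).biUnion
      (fun t => (range (2 ^ J)).filter (CE S t)) := by
    ext c
    rw [mem_filter, mem_biUnion]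
    constructor
    · rintro ⟨h1, t, ht, h2⟩
      exact ⟨t, mem_range.2 ht, by rw [mem_filter]; exact ⟨h1, h2⟩⟩
    · rintro ⟨t, ht, h2⟩
      rw [mem_filter] at h2
      exact ⟨h2.1, t, mem_range.1 ht, h2.2⟩
  rw [h1, card_biUnion]
  · push_cast
    rw [sum_div, sum_div]
    refine sum_congr rfl fun t ht => ?_
    have htJ : t + 1 ≤ J := by have := mem_range.1 ht; omega
    have h2 := cnt_ext htJ (CE S t) (fun n => CE_mod (Nat.lt_succ_self t) n)
    rw [h2, zd_eq]
    push_cast
    have e : (2 : ℝ) ^ J = 2 ^ (t + 1) * 2 ^ (J - (t + 1)) := by rw [← pow_add, Nat.add_sub_cancel' htJ]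
    rw [e, pow_succ]
    field_simp
  · intro t _ t' _ hne
    rw [Function.onFun, disjoint_left]
    intro c hc hc'
    rw [mem_filter] at hc hc'
    exact hne (CE_uni hc.2 hc'.2)

theorem EC_le_one (S : Set (List ℕ)) (J : ℕ) : ∑ t ∈ range J, (zd S t : ℝ) / 2 ^ t ≤ 1 := by
  classical
  rcases Nat.eq_zero_or_pos J with h0 | h0
  · subst h0; simp
  have h1 := EC_card S J
  have h2 : (((range (2 ^ J)).filter (EC S J)).card : ℝ) ≤ 2 ^ J / 2 := by
    obtain ⟨j, rfl⟩ : ∃ j, J = j + 1 := ⟨J - 1, by omega⟩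
    have h3 : ((range (2 ^ (j + 1))).filter (EC S (j + 1))).card ≤ 2 ^ j := by
      rw [← odd_card j]
      apply card_le_card
      intro c hc
      rw [mem_filter] at hc ⊢
      obtain ⟨h4, t, _, h5⟩ := hc
      exact ⟨h4, (CE_iff.1 h5).1⟩
    have e : (2 : ℝ) ^ (j + 1) / 2 = 2 ^ j := by rw [pow_succ]; ring
    rw [e]
    exact_mod_cast h3
  have h3 : (((range (2 ^ J)).filter (EC S J)).card : ℝ) / 2 ^ J ≤ 1 / 2 := by
    rw [div_le_iff₀ (by positivity)]
    linarith
  linarith

/-- even terms from the time `J0` on -/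
def FE (J0 J n : ℕ) : Prop := ∀ i, J0 ≤ i → i < J → Tn^[i] n % 2 = 0

theorem FE_mod (J0 J n : ℕ) : FE J0 J (n % 2 ^ J) ↔ FE J0 J n := by
  unfold FE
  refine forall_congr' fun i => forall_congr' fun _ => forall_congr' fun hi => ?_
  rw [Pool.Agent.R468.RC.par_mod hi]

open Classical in
theorem FE_card (J0 J : ℕ) : ((range (2 ^ J)).filter (FE J0 J)).card ≤ 2 ^ J0 := by
  rw [← card_range (2 ^ J0)]
  apply card_le_card_of_injOn (fun c => c % 2 ^ J0)
  · intro c _
    rw [Finset.mem_coe, mem_range]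
    exact Nat.mod_lt _ (by positivity)
  · intro a ha b hb hab
    rw [Finset.mem_coe, mem_filter, mem_range] at ha hb
    simp only at hab
    apply Pool.Agent.H499R2.ND.pv_inj J a b ha.1 hb.1
    intro i hi
    rcases Nat.lt_or_ge i J0 with h1 | h1
    · rw [← Pool.Agent.R468.RC.par_mod h1 a, ← Pool.Agent.R468.RC.par_mod h1 b, hab]
    · rw [ha.2 i h1 hi, hb.2 i h1 hi]

/-- almost all odd residues have a descent word -/
theorem EC_all {J0 J c : ℕ} (hc : c % 2 = 1) (h1 : EJ Set.univ J0 c) (h2 : ¬ FE J0 J c) :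
    EC Set.univ J c := by
  obtain ⟨s, hs, ⟨h3, h4⟩, _⟩ := h1
  unfold FE at h2
  push Not at h2
  obtain ⟨i, hi1, hi2, hi3⟩ := h2
  have hi3' : Tn^[i] c % 2 = 1 := by omega
  have hs1 : 1 ≤ s := by
    by_contra hc0
    have : s = 0 := by omega
    subst this
    simp [odn] at h3
  set j := odn s c with hj
  set t := (ew j c).sum with ht
  have hT := Tn_odd hc j
  rw [← ht] at hT
  have hodt := (link hc j).2
  rw [← ht] at hodt
  have hts : s ≤ t := by
    by_contra hcon
    push Not at hcon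
    have := odn_lt hT hcon
    omega
  have htJ : t < J := by
    by_contra hcon
    push Not at hcon
    have h5 := odn_lt hi3' (show i < t by omega)
    have h6 := odn_mono' (show s ≤ i by omega) c
    omega
  refine ⟨t, htJ, CE_iff.2 ⟨hc, j, ⟨ew_pos hc j, ?_, ?_⟩, rfl, Set.mem_univ _⟩⟩
  · rw [ew_len]
    exact h3.trans_le (Nat.pow_le_pow_right (by norm_num) hts)
  · intro l hl1 hl2
    rw [ew_len] at hl2
    rw [ew_take hl2.le]
    have h5 := (link hc l).2
    have h6 : (ew l c).sum < s := by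
      by_contra hcon
      push Not at hcon
      have := odn_mono' hcon c
      omega
    have h7 : 1 ≤ (ew l c).sum := by
      by_contra hcon
      have h8 : (ew l c).sum = 0 := by omega
      rw [h8] at h5
      simp [odn] at h5
      omega
    have h8 := h4 _ h7 h6
    rwa [h5] at h8

theorem EC_tail {J0 J : ℕ} (hJ0 : 1 ≤ J0) (hJ : J0 ≤ J) :
    1 - (4 * Pool.Agent.H499R2.ND.th ^ J0 + 2 * (2 ^ J0 / 2 ^ J)) ≤ ∑ t ∈ range J, (zd Set.univ t : ℝ) / 2 ^ t := by
  classical
  have h1 := EC_card Set.univ J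
  obtain ⟨j, rfl⟩ : ∃ j, J = j + 1 := ⟨J - 1, by omega⟩
  have h2 : 2 ^ j ≤ ((range (2 ^ (j + 1))).filter (EC Set.univ (j + 1))).card +
      (((range (2 ^ (j + 1))).filter (fun c => ¬ EJ Set.univ J0 c)).card +
        ((range (2 ^ (j + 1))).filter (FE J0 (j + 1))).card) := by
    rw [← odd_card j]
    refine (card_le_card ?_).trans ((card_union_le _ _).trans (Nat.add_le_add_left (card_union_le _ _) _))
    intro c hc
    rw [mem_filter] at hc
    rw [mem_union, mem_union, mem_filter, mem_filter, mem_filter]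
    by_cases g1 : EJ Set.univ J0 c
    · by_cases g2 : FE J0 (j + 1) c
      · exact Or.inr (Or.inr ⟨hc.1, g2⟩)
      · exact Or.inl ⟨hc.1, EC_all hc.2 g1 g2⟩
    · exact Or.inr (Or.inl ⟨hc.1, g1⟩)
  have h3 : (((range (2 ^ (j + 1))).filter (fun c => ¬ EJ Set.univ J0 c)).card : ℝ) ≤
      2 * Pool.Agent.H499R2.ND.th ^ J0 * 2 ^ (j + 1) := by
    have g1 := cnt_ext hJ (fun c => ¬ EJ Set.univ J0 c) (fun n => by rw [EJ_mod])
    have g2 := card_filter_add_card_filter_not (s := range (2 ^ J0)) (EJ Set.univ J0)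
    rw [card_range] at g2
    have g3 := EJ_univ hJ0
    rw [← EJ_card, le_div_iff₀ (by positivity)] at g3
    have g4 : (((range (2 ^ J0)).filter (EJ Set.univ J0)).card : ℝ) +
        (((range (2 ^ J0)).filter (fun c => ¬ EJ Set.univ J0 c)).card : ℝ) = 2 ^ J0 := by exact_mod_cast g2
    have g5 : (((range (2 ^ J0)).filter (fun c => ¬ EJ Set.univ J0 c)).card : ℝ) ≤
        2 * Pool.Agent.H499R2.ND.th ^ J0 * 2 ^ J0 := by
      have e : (1 - 2 * Pool.Agent.H499R2.ND.th ^ J0) * 2 ^ J0 = 2 ^ J0 - 2 * Pool.Agent.H499R2.ND.th ^ J0 * 2 ^ J0 := by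
        ring
      rw [e] at g3
      linarith
    rw [g1]
    push_cast
    have e : (2 : ℝ) ^ (j + 1) = 2 ^ J0 * 2 ^ (j + 1 - J0) := by rw [← pow_add, Nat.add_sub_cancel' hJ]
    rw [e, ← mul_assoc]
    exact mul_le_mul_of_nonneg_right g5 (by positivity)
  have h4 : (((range (2 ^ (j + 1))).filter (FE J0 (j + 1))).card : ℝ) ≤ 2 ^ J0 := by exact_mod_cast FE_card J0 (j + 1)
  have h5 : (2 : ℝ) ^ j ≤ (((range (2 ^ (j + 1))).filter (EC Set.univ (j + 1))).card : ℝ) +
      (2 * Pool.Agent.H499R2.ND.th ^ J0 * 2 ^ (j + 1) + 2 ^ J0) := by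
    have : (2 : ℝ) ^ j ≤ (((range (2 ^ (j + 1))).filter (EC Set.univ (j + 1))).card : ℝ) +
      ((((range (2 ^ (j + 1))).filter (fun c => ¬ EJ Set.univ J0 c)).card : ℝ) +
        (((range (2 ^ (j + 1))).filter (FE J0 (j + 1))).card : ℝ)) := by exact_mod_cast h2
    linarith
  have h6 : (0 : ℝ) < 2 ^ (j + 1) := by positivity
  have h7 : (1 : ℝ) / 2 ≤ (((range (2 ^ (j + 1))).filter (EC Set.univ (j + 1))).card : ℝ) / 2 ^ (j + 1) +
      (2 * Pool.Agent.H499R2.ND.th ^ J0 + 2 ^ J0 / 2 ^ (j + 1)) := by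
    have e1 : (1 : ℝ) / 2 = 2 ^ j / 2 ^ (j + 1) := by rw [pow_succ]; field_simp
    have e2 : (((range (2 ^ (j + 1))).filter (EC Set.univ (j + 1))).card : ℝ) / 2 ^ (j + 1) +
      (2 * Pool.Agent.H499R2.ND.th ^ J0 + 2 ^ J0 / 2 ^ (j + 1)) =
      ((((range (2 ^ (j + 1))).filter (EC Set.univ (j + 1))).card : ℝ) +
      (2 * Pool.Agent.H499R2.ND.th ^ J0 * 2 ^ (j + 1) + 2 ^ J0)) / 2 ^ (j + 1) := by field_simp
    rw [e1, e2]
    exact div_le_div_of_nonneg_right h5 h6.le
  rw [h1] at h7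
  linarith

theorem zd_fin (t : ℕ) : {a : List ℕ | a.sum = t ∧ CW a}.Finite := by
  apply ((Set.finite_Iio (2 ^ (t + 1))).image (ff t)).subset
  rintro a ⟨h2, h3⟩
  obtain ⟨c, hc, hcw⟩ := word_surj (t + 1) (tw a) (by rw [tw_len a h3.1, h2]) (tw_bit a)
  have h4 := hcw
  rw [← h2] at h4
  obtain ⟨h5, h6⟩ := (key a h3.1 c).1 h4
  exact ⟨c, hc, by rw [ff_eq h5 (j := a.length) (by rw [h6]; exact h2), h6]⟩

theorem zd_mono (S : Set (List ℕ)) (t : ℕ) : zd S t ≤ zd Set.univ t := by
  unfold zd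
  apply Set.ncard_le_ncard
  · rintro w ⟨_, h2, h3⟩
    exact ⟨Set.mem_univ _, h2, h3⟩
  · exact (zd_fin t).subset fun w hw => hw.2

theorem zds (S : Set (List ℕ)) : Summable fun t : ℕ => (zd S t : ℝ) / 2 ^ t := by
  apply summable_of_sum_range_le (c := 1)
  · intro s; positivity
  · intro n
    exact EC_le_one S n

theorem zd_one : HasSum (fun t : ℕ => (zd Set.univ t : ℝ) / 2 ^ t) 1 := by
  have hs := zds Set.univ
  have h1 : ∑' t : ℕ, (zd Set.univ t : ℝ) / 2 ^ t ≤ 1 :=
    hs.tsum_le_of_sum_range_le (fun n => EC_le_one Set.univ n)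
  have h2 : 1 ≤ ∑' t : ℕ, (zd Set.univ t : ℝ) / 2 ^ t := by
    have hlim : Tendsto (fun J : ℕ => 1 - (4 * Pool.Agent.H499R2.ND.th ^ J + 2 * (1 / 2 : ℝ) ^ J)) atTop (𝓝 (1 - (0 + 0))) := by
      apply tendsto_const_nhds.sub
      apply Tendsto.add
      · have := (tendsto_pow_atTop_nhds_zero_of_lt_one Pool.Agent.H499R2.ND.th_pos.le
          Pool.Agent.H499R2.ND.th_lt).const_mul 4
        simpa using this
      · have := (tendsto_pow_atTop_nhds_zero_of_lt_one (r := (1 / 2 : ℝ)) (by norm_num) (by norm_num)).const_mul 2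
        simpa using this
    rw [add_zero, sub_zero] at hlim
    refine le_of_tendsto hlim ?_
    filter_upwards [eventually_ge_atTop 1] with J hJ
    have h3 := EC_tail hJ (show J ≤ J + J by omega)
    have e : (2 : ℝ) ^ J / 2 ^ (J + J) = (1 / 2) ^ J := by
      rw [pow_add, div_mul_eq_div_div, div_self (by positivity), one_div, one_div, inv_pow]
    rw [e] at h3
    exact h3.trans (hs.sum_le_tsum _ (fun i _ => by positivity))
  have h3 : ∑' t : ℕ, (zd Set.univ t : ℝ) / 2 ^ t = 1 := le_antisymm h1 h2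
  rw [← h3]
  exact hs.hasSum

/-- the tails are small uniformly in the set -/
theorem zd_tail (S : Set (List ℕ)) (J : ℕ) :
    |(∑ t ∈ range J, (zd S t : ℝ) / 2 ^ t) - ∑' t : ℕ, (zd S t : ℝ) / 2 ^ t| ≤
      1 - ∑ t ∈ range J, (zd Set.univ t : ℝ) / 2 ^ t := by
  have h1 := (zds S).sum_add_tsum_nat_add J
  have h2 := (zds Set.univ).sum_add_tsum_nat_add J
  have h3 : ∑' i : ℕ, (zd S (i + J) : ℝ) / 2 ^ (i + J) ≤
      ∑' i : ℕ, (zd Set.univ (i + J) : ℝ) / 2 ^ (i + J) := by
    apply Summable.tsum_le_tsum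
    · intro i
      exact div_le_div_of_nonneg_right (by exact_mod_cast zd_mono S _) (by positivity)
    · exact (summable_nat_add_iff J).2 (zds S)
    · exact (summable_nat_add_iff J).2 (zds Set.univ)
  have h4 : 0 ≤ ∑' i : ℕ, (zd S (i + J) : ℝ) / 2 ^ (i + J) := tsum_nonneg fun i => by positivity
  rw [zd_one.tsum_eq] at h2
  rw [abs_le]
  constructor <;> linarith

/-! ### the first descent under `C` -/

/-- the first index of descent -/
def DI (j n : ℕ) : Prop := 1 ≤ j ∧ Cs^[j] n < n ∧ ∀ i, 1 ≤ i → i < j → n ≤ Cs^[i] n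

theorem sum_take_le {n i j : ℕ} (h : i ≤ j) : (ew i n).sum ≤ (ew j n).sum := by
  rw [← ew_take h]
  conv_rhs => rw [← List.take_append_drop i (ew j n)]
  rw [List.sum_append]
  exact Nat.le_add_right _ _

theorem C_lt_iff {i J n : ℕ} (hn : n % 2 = 1) (hi : (ew i n).sum ≤ J) (h4 : 4 ^ J ≤ n) :
    Cs^[i] n < n ↔ 3 ^ i < 2 ^ (ew i n).sum := by
  obtain ⟨h1, h2⟩ := link hn i
  have h3 := lt_iff hi h4
  rw [h1, h2] at h3
  exact h3

theorem ew_sum_pos {n i : ℕ} (hn : n % 2 = 1) (hi : 1 ≤ i) : 1 ≤ (ew i n).sum := by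
  by_contra hcon
  have h8 : (ew i n).sum = 0 := by omega
  have h5 := (link hn i).2
  rw [h8] at h5
  simp [odn] at h5
  omega

theorem CW_DI {j J n : ℕ} (hn : n % 2 = 1) (hj : (ew j n).sum ≤ J) (h4 : 4 ^ J ≤ n) :
    CW (ew j n) ↔ DI j n := by
  unfold DI
  constructor
  · intro h
    have h1 := CW_len h
    rw [ew_len] at h1
    refine ⟨h1, ?_, fun i hi1 hi2 => ?_⟩
    · have h2 := h.2.1
      rw [ew_len] at h2
      exact (C_lt_iff hn hj h4).2 h2
    · have h2 := h.2.2 i hi1 (by rw [ew_len]; exact hi2)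
      rw [ew_take hi2.le] at h2
      by_contra hc
      push Not at hc
      have := (C_lt_iff hn ((sum_take_le hi2.le).trans hj) h4).1 hc
      omega
  · rintro ⟨h1, h2, h3⟩
    refine ⟨ew_pos hn j, ?_, fun i hi1 hi2 => ?_⟩
    · rw [ew_len]
      exact (C_lt_iff hn hj h4).1 h2
    · rw [ew_len] at hi2
      rw [ew_take hi2.le]
      have h5 := h3 i hi1 hi2
      have h6 : ¬ 3 ^ i < 2 ^ (ew i n).sum := by
        rw [← C_lt_iff hn ((sum_take_le hi2.le).trans hj) h4]
        omega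
      exact lt_of_le_of_ne (by omega) (pow_ne (ew_sum_pos hn hi1))

end Pool.Agent.K3h31.CL
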