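import Pool.Agent.K3h31.CL.F
import Pool.Agent.K3h31.CL.K

/-!
Residue classes, part 12: the levels of the height: residue classes, runs, the word of exponents of the
first descent under `C`, and the maximum excursion.
-/

set_option autoImplicit false

namespace Pool.Agent.K3h31.CL

open Filter Topology Finset
open Pool.Agent.R468.GL hiding ph
open Pool.Agent.R468.LL (lam lam_eq lam_pos lam_lt mu_lam)
open Pool.Agent.H499R2.LT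
open Pool.Agent.H499R2.ND (Td Tn Dn Bas IsHt AK)
open Pool.Agent.H499R2.HL
open Pool.Agent.R468.RC (crt_card)

section
variable (P : Par)
variable {Ψ : ℝ → ℝ} (hc : Continuous Ψ) (hp : ∀ t, Ψ (t + 1) = Ψ t) {M : ℝ} (hM : ∀ t, |Ψ t| ≤ M)
  (hL : LQ P (fun _ => True) 1 Ψ)
include hc hp hM hL

/-- long runs of even terms are rare in the levels -/
theorem FE_small (J0 : ℕ) {ε : ℝ} (hε : 0 < ε) : ∃ J1 : ℕ, ∀ J, J1 ≤ J → ∀ K : ℝ, ∀ᶠ p in xg P K,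
    aZ P (FE J0 J) p ≤ ε := by
  classical
  have hM0 : 0 ≤ M := (abs_nonneg _).trans (hM 0)
  have hlim : Tendsto (fun J : ℕ => (2 : ℝ) ^ J0 * (1 / 2) ^ J * M) atTop (𝓝 0) := by
    have h1 := tendsto_pow_atTop_nhds_zero_of_lt_one (r := (1 / 2 : ℝ)) (by norm_num) (by norm_num)
    have h2 := (h1.const_mul ((2 : ℝ) ^ J0)).mul_const M
    simpa using h2
  obtain ⟨J1, hJ1⟩ := eventually_atTop.1 (hlim.eventually (gt_mem_nhds (show (0 : ℝ) < ε / 2 by positivity)))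
  refine ⟨J1, fun J hJ K => ?_⟩
  have h1 := per_law P hc hp hM hL odd_one 0 J (FE J0 J) (FE_mod J0 J) K
  filter_upwards [h1.eventually (gt_mem_nhds (show (0 : ℝ) < ε / 2 by positivity))] with p h2
  have h3 : aZ P (FE J0 J) p = cZ P (fun n => n ≡ 0 [MOD 1] ∧ FE J0 J n) p / (p.1 * gd P p.1 p.2) :=
    aZ_congr P (fun n => ⟨fun g => ⟨Nat.modEq_one, g⟩, fun g => g.2⟩) p
  rw [h3]
  have h4 : (((range (2 ^ J)).filter (FE J0 J)).card : ℝ) / 2 ^ J / ((1 : ℕ) : ℝ) * Ψ (sv P p) ≤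
      (2 : ℝ) ^ J0 * (1 / 2) ^ J * M := by
    have h5 : (((range (2 ^ J)).filter (FE J0 J)).card : ℝ) ≤ 2 ^ J0 := by exact_mod_cast FE_card J0 J
    have h6 : (((range (2 ^ J)).filter (FE J0 J)).card : ℝ) / 2 ^ J / ((1 : ℕ) : ℝ) ≤ (2 : ℝ) ^ J0 * (1 / 2) ^ J := by
      rw [Nat.cast_one, div_one, one_div, inv_pow, ← div_eq_mul_inv]
      exact div_le_div_of_nonneg_right h5 (by positivity)
    calc _ ≤ (((range (2 ^ J)).filter (FE J0 J)).card : ℝ) / 2 ^ J / ((1 : ℕ) : ℝ) * M :=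
          mul_le_mul_of_nonneg_left ((le_abs_self _).trans (hM _)) (by positivity)
      _ ≤ _ := mul_le_mul_of_nonneg_right h6 hM0
  have h7 := hJ1 J hJ
  linarith

/-- THE LAW OF THE FIRST DESCENT UNDER `C` inside the levels, in total variation -/
theorem desc_C {Q : ℕ} (hQ : Odd Q) (r : ℕ) (K : ℝ) {ε : ℝ} (hε : 0 < ε) : ∀ᶠ p in xg P K,
    ∀ S : Set (List ℕ), |aZ P (fun n => n ≡ r [MOD Q] ∧ (n % 2 = 1 ∧ ∃ j, DI j n ∧ ew j n ∈ S)) p -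
      (∑' t : ℕ, (zd S t : ℝ) / 2 ^ t) / 2 / Q * Ψ (sv P p)| ≤ ε := by
  classical
  have hQ1 : (1 : ℝ) ≤ Q := by exact_mod_cast hQ.pos
  have hQ0 : 0 < Q := hQ.pos
  have hM0 : 0 ≤ M := (abs_nonneg _).trans (hM 0)
  obtain ⟨J0, hJ0⟩ := back_small P K (ε := ε / 8) (by positivity)
  obtain ⟨J1, hJ1⟩ := FE_small P hc hp hM hL J0 (ε := ε / 8) (by positivity)
  have ht : Tendsto (fun J : ℕ => (1 - ∑ t ∈ range J, (zd Set.univ t : ℝ) / 2 ^ t) * M) atTop (𝓝 0) := by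
    have h1 := (tendsto_const_nhds (x := (1 : ℝ))).sub zd_one.tendsto_sum_nat
    rw [sub_self] at h1
    have := h1.mul_const M
    simpa using this
  obtain ⟨J, hJa, hJb, hJc⟩ := ((ht.eventually (gt_mem_nhds (show (0 : ℝ) < ε / 4 by positivity))).and
    ((eventually_ge_atTop J0).and (eventually_ge_atTop J1))).exists
  have hq : 1 ≤ 2 ^ J * Q := Nat.one_le_iff_ne_zero.2 (by positivity)
  filter_upwards [hJ0, hJ1 J hJc K, const_small P (4 ^ J) K (ε := ε / 4) (by positivity),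
    unif_union P hc hp hM hL hq K (ε := ε / 4) (by positivity), gd_pos_ev P K, xg_ge P K 1]
    with p g1 g1' g2 g3 g4 g5 S
  have hx : 0 < p.1 * gd P p.1 p.2 := mul_pos (by linarith) g4
  set W : Finset ℕ := (range (2 ^ J * Q)).filter (fun c => c ≡ r [MOD Q] ∧ EC S J c) with hW
  have g3' := g3 W (filter_subset _ _)
  have e1 : (fun n => n % (2 ^ J * Q) ∈ W) = fun n => n ≡ r [MOD Q] ∧ EC S J n := by
    funext n
    rw [hW, mem_filter, mem_range]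
    have h2 : n % (2 ^ J * Q) < 2 ^ J * Q := Nat.mod_lt _ (by positivity)
    have h3 : n % (2 ^ J * Q) ≡ r [MOD Q] ↔ n ≡ r [MOD Q] := by
      have h4 : n % (2 ^ J * Q) ≡ n [MOD Q] := (Nat.mod_modEq n (2 ^ J * Q)).of_mul_left _
      exact ⟨fun h => h4.symm.trans h, fun h => h4.trans h⟩
    have h5 : EC S J (n % (2 ^ J * Q)) ↔ EC S J n := by
      rw [← EC_mod S J (n % (2 ^ J * Q)), Nat.mod_mul_right_mod, EC_mod]
    rw [h3, h5]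
    simp [h2]
  have e2 : (W.card : ℝ) / ((2 ^ J * Q : ℕ) : ℝ) = (∑ t ∈ range J, (zd S t : ℝ) / 2 ^ t) / 2 / Q := by
    rw [hW, crt_card hQ r J (EC S J) (EC_mod S J), ← EC_card]
    push_cast
    rw [div_div]
  rw [e1, e2] at g3'
  -- comparison
  set A := {n : ℕ | 1 ≤ n ∧ (n : ℝ) ≤ p.1 ∧ (n ≡ r [MOD Q] ∧ EC S J n) ∧ HP P p.2 n} with hA
  set B := {n : ℕ | 1 ≤ n ∧ (n : ℝ) ≤ p.1 ∧ (n ≡ r [MOD Q] ∧ (n % 2 = 1 ∧ ∃ j, DI j n ∧ ew j n ∈ S)) ∧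
    HP P p.2 n} with hB
  set D := {n : ℕ | 1 ≤ n ∧ (n : ℝ) ≤ p.1 ∧ (∃ j, J0 ≤ j ∧ n ≤ Tn^[j] n) ∧ HP P p.2 n} with hD
  set F := {n : ℕ | 1 ≤ n ∧ (n : ℝ) ≤ p.1 ∧ FE J0 J n ∧ HP P p.2 n} with hF
  have hAf : A.Finite := fin_cZ P _ p
  have hBf : B.Finite := fin_cZ P _ p
  have hDf : D.Finite := fin_cZ P _ p
  have hFf : F.Finite := fin_cZ P _ p
  set E : Set ℕ := ((Finset.range (4 ^ J) : Finset ℕ) : Set ℕ) with hE
  have hEf : E.Finite := Finset.finite_toSet _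
  have hEc : E.ncard = 4 ^ J := by rw [hE, Set.ncard_coe_finset, Finset.card_range]
  have i1 : A ⊆ B ∪ E := by
    rintro n ⟨a1, a2, ⟨a0, t, ht, a3⟩, a5⟩
    by_cases hn : n < 4 ^ J
    · right
      rw [hE, Finset.mem_coe, Finset.mem_range]
      exact hn
    · left
      obtain ⟨b1, j, b2, b3, b4⟩ := CE_iff.1 a3
      exact ⟨a1, a2, ⟨a0, b1, j, (CW_DI b1 (b3.le.trans ht.le) (not_lt.1 hn)).1 b2, b4⟩, a5⟩
  have i2 : B ⊆ (A ∪ (D ∪ F)) ∪ E := by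
    rintro n ⟨a1, a2, ⟨a0, a3, j, a4, a4'⟩, a5⟩
    by_cases hn : n < 4 ^ J
    · right
      rw [hE, Finset.mem_coe, Finset.mem_range]
      exact hn
    left
    rcases Nat.lt_or_ge (ew j n).sum J with hs | hs
    · left
      exact ⟨a1, a2, ⟨a0, (ew j n).sum, hs, CE_iff.2 ⟨a3, j, (CW_DI a3 hs.le (not_lt.1 hn)).2 a4, rfl, a4'⟩⟩, a5⟩
    · right
      by_cases hd : ∃ i, J0 ≤ i ∧ n ≤ Tn^[i] n
      · exact Or.inl ⟨a1, a2, hd, a5⟩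
      right
      refine ⟨a1, a2, fun i hi1 hi2 => ?_, a5⟩
      -- the last odd term before the descent
      obtain ⟨l, rfl⟩ : ∃ l, j = l + 1 := ⟨j - 1, by have := a4.1; omega⟩
      have b1 : n ≤ Tn^[(ew l n).sum] n := by
        rw [(link a3 l).1]
        rcases Nat.eq_zero_or_pos l with h0 | h0
        · subst h0; exact le_rfl
        · exact a4.2.2 l h0 (Nat.lt_succ_self l)
      have b2 : (ew l n).sum < J0 := by
        by_contra hcon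
        push Not at hcon
        exact hd ⟨_, hcon, b1⟩
      by_contra hodd
      have hodd' : Tn^[i] n % 2 = 1 := by omega
      have b3 := odn_lt (Tn_odd a3 l) (show (ew l n).sum < i by omega)
      have b4 := odn_lt hodd' (show i < (ew (l + 1) n).sum by omega)
      rw [(link a3 l).2] at b3
      rw [(link a3 (l + 1)).2] at b4
      omega
  have c1 : A.ncard ≤ B.ncard + 4 ^ J := by
    refine (Set.ncard_le_ncard i1 (hBf.union hEf)).trans ?_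
    refine (Set.ncard_union_le _ _).trans ?_
    exact Nat.add_le_add_left hEc.le _
  have c2 : B.ncard ≤ A.ncard + (D.ncard + F.ncard) + 4 ^ J := by
    refine (Set.ncard_le_ncard i2 ((hAf.union (hDf.union hFf)).union hEf)).trans ?_
    refine (Set.ncard_union_le _ _).trans ?_
    refine add_le_add ((Set.ncard_union_le _ _).trans ?_) hEc.le
    exact Nat.add_le_add_left (Set.ncard_union_le _ _) _
  have c1' : cZ P (fun n => n ≡ r [MOD Q] ∧ EC S J n) p ≤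
      cZ P (fun n => n ≡ r [MOD Q] ∧ (n % 2 = 1 ∧ ∃ j, DI j n ∧ ew j n ∈ S)) p + (4 : ℝ) ^ J := by
    unfold cZ
    exact_mod_cast c1
  have c2' : cZ P (fun n => n ≡ r [MOD Q] ∧ (n % 2 = 1 ∧ ∃ j, DI j n ∧ ew j n ∈ S)) p ≤
      cZ P (fun n => n ≡ r [MOD Q] ∧ EC S J n) p +
      (cZ P (fun n => ∃ j, J0 ≤ j ∧ n ≤ Tn^[j] n) p + cZ P (FE J0 J) p) + (4 : ℝ) ^ J := by
    unfold cZ
    exact_mod_cast c2
  have d1 := div_le_div_of_nonneg_right c1' hx.le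
  have d2 := div_le_div_of_nonneg_right c2' hx.le
  rw [add_div] at d1
  rw [add_div, add_div, add_div] at d2
  have hΨ : |(∑ t ∈ range J, (zd S t : ℝ) / 2 ^ t) / 2 / Q * Ψ (sv P p) -
      (∑' t : ℕ, (zd S t : ℝ) / 2 ^ t) / 2 / Q * Ψ (sv P p)| ≤ ε / 4 := by
    rw [← sub_mul, ← sub_div, ← sub_div, abs_mul, abs_div, abs_div, abs_of_pos (by linarith : (0 : ℝ) < Q), abs_two]
    have hz := zd_tail S J
    calc |(∑ t ∈ range J, (zd S t : ℝ) / 2 ^ t) - ∑' t : ℕ, (zd S t : ℝ) / 2 ^ t| / 2 / Q * |Ψ (sv P p)|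
        ≤ (1 - ∑ t ∈ range J, (zd Set.univ t : ℝ) / 2 ^ t) * M := by
          apply mul_le_mul _ (hM _) (abs_nonneg _) ((abs_nonneg _).trans hz)
          exact ((div_le_self (by positivity) hQ1).trans (div_le_self (abs_nonneg _) (by norm_num))).trans hz
      _ ≤ ε / 4 := hJa.le
  have g3'' := abs_le.1 g3'
  have hΨ' := abs_le.1 hΨ
  unfold aZ at g1 g1' g3'' ⊢
  rw [abs_le]
  constructor <;> linarith [g3''.1, g3''.2, hΨ'.1, hΨ'.2]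

end

/-- THE LEVELS OF THE HEIGHT -/
theorem main_C : ∃ (δ : ℝ) (Ψ qq : ℝ → ℝ), 0 < δ ∧ δ ≤ 1 ∧
    (δ = 1 ↔ ∀ n : ℕ, 1 ≤ n → Bas n) ∧ Dn Bas δ ∧
    Continuous Ψ ∧ (∀ t, Ψ (t + 1) = Ψ t) ∧
    (∀ t, δ * Real.log 2 ≤ Ψ t ∧ Ψ t ≤ 2 * δ * Real.log 2) ∧
    (∫ t in (0 : ℝ)..1, Ψ t = δ) ∧
    (∀ (q r h : ℕ), 1 ≤ q → r % 2 = 1 → ∀ K ε : ℝ, 0 < ε → ∃ X₀ : ℝ, ∀ x : ℝ, X₀ ≤ x → ∀ k : ℕ,
      |(k : ℝ) - 2 / Real.log (16 / 9) * Real.log x| ≤ K * Real.sqrt (Real.log x) →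
      |({m : ℕ | (m : ℝ) ≤ x ∧ m ≡ r [MOD 2 * q] ∧ ∀ i ≤ h, IsHt (m + 2 * i) k}.ncard : ℝ) /
        (x / 2 * Pool.Agent.R468.LL.gd x k) - 1 / q * Ψ (Real.logb 2 (3 ^ k * x))| ≤ ε) ∧
    (∀ (Q r : ℕ), Odd Q → ∀ K ε : ℝ, 0 < ε → ∃ X₀ : ℝ, ∀ x : ℝ, X₀ ≤ x → ∀ k : ℕ,
      |(k : ℝ) - 2 / Real.log (16 / 9) * Real.log x| ≤ K * Real.sqrt (Real.log x) → ∀ S : Set (List ℕ),
      |({m : ℕ | 1 ≤ m ∧ (m : ℝ) ≤ x ∧ (m ≡ r [MOD Q] ∧ (m % 2 = 1 ∧ ∃ j, DI j m ∧ ew j m ∈ S)) ∧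
          IsHt m k}.ncard : ℝ) / (x / 2 * Pool.Agent.R468.LL.gd x k) -
        (∑' t : ℕ, (zd S t : ℝ) / 2 ^ t) / Q * Ψ (Real.logb 2 (3 ^ k * x))| ≤ ε) ∧
    (∀ l : ℝ, 1 ≤ l → 1 - 2 / l ≤ qq l ∧ qq l ≤ 1 ∧ Tendsto (fun J => rO J l) atTop (𝓝 (qq l)) ∧
      ∀ (Q r : ℕ), Odd Q → ∀ K ε : ℝ, 0 < ε → ∃ X₀ : ℝ, ∀ x : ℝ, X₀ ≤ x → ∀ k : ℕ,
      |(k : ℝ) - 2 / Real.log (16 / 9) * Real.log x| ≤ K * Real.sqrt (Real.log x) →
      |({m : ℕ | 1 ≤ m ∧ (m : ℝ) ≤ x ∧ (m ≡ r [MOD Q] ∧ (m % 2 = 1 ∧ ∀ i, ((Tn^[i] m : ℕ) : ℝ) ≤ l * m)) ∧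
          IsHt m k}.ncard : ℝ) / (x / 2 * Pool.Agent.R468.LL.gd x k) -
        qq l / Q * Ψ (Real.logb 2 (3 ^ k * x))| ≤ ε) := by
  obtain ⟨δ, Ψ, M, g0, g1, g2, g3, h2, h3, hlo, h5, hM, h8⟩ := base_H
  refine ⟨δ, Ψ, fun l => ⨅ J, rO J l, g0, g1, g2, g3, h2, h3, hlo, h5, fun q r h hq hr K ε hε =>
    heights_elem h2 h3 hM h8 q r h hq hr K ε hε, fun Q r hQ K ε hε => ?_, fun l hl => ?_⟩
  · obtain ⟨X₀, hX⟩ := ht_elem (ι := Set (List ℕ))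
      (fun S n => n ≡ r [MOD Q] ∧ (n % 2 = 1 ∧ ∃ j, DI j n ∧ ew j n ∈ S)) (fun _ _ hn => hn.2.1)
      (fun S => (∑' t : ℕ, (zd S t : ℝ) / 2 ^ t) / 2 / Q) Ψ
      (fun K ε hε => desc_C PO h2 h3 hM h8 hQ r K hε) K ε hε
    refine ⟨X₀, fun x hx k hk S => ?_⟩
    have h9 := hX x hx k hk S
    have e : 2 * ((∑' t : ℕ, (zd S t : ℝ) / 2 ^ t) / 2 / Q) = (∑' t : ℕ, (zd S t : ℝ) / 2 ^ t) / Q := by ring
    simp only [e] at h9
    exact h9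
  · have hlim := tendsto_atTop_ciInf (rO_anti l) ⟨0, by rintro _ ⟨K, rfl⟩; exact rO_nonneg K l⟩
    refine ⟨ge_of_tendsto' hlim fun K => rO_ge (by linarith) K, le_of_tendsto' hlim fun K => rO_le_one K l, hlim,
      fun Q r hQ K ε hε => ?_⟩
    obtain ⟨X₀, hX⟩ := ht_elem (ι := Unit) (fun _ n => n ≡ r [MOD Q] ∧ (n % 2 = 1 ∧ ∀ i, ((Tn^[i] n : ℕ) : ℝ) ≤ l * n))
      (fun _ n hn => hn.2.1) (fun _ => (⨅ J, rO J l) / 2 / Q) Ψ
      (fun K ε hε => by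
        filter_upwards [(Metric.tendsto_nhds.1 (exc_level PO h2 h3 hM h8 hQ r hl hlim K)) ε hε] with p hp _
        rw [Real.dist_eq, sub_zero] at hp
        exact hp.le) K ε hε
    refine ⟨X₀, fun x hx k hk => ?_⟩
    have h9 := hX x hx k hk ()
    have e : 2 * ((⨅ J, rO J l) / 2 / Q) = (⨅ J, rO J l) / Q := by ring
    simp only [e] at h9
    exact h9

end Pool.Agent.K3h31.CL
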